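import Pool.Agent.P.MP_f57657_co.SZ.Defs

/-! Anticoncentration against a subspace, and hitting all points by a union bound. -/

open Finset

namespace Pool.Agent.P.MP_f57657_co.SZ

open SX SY

namespace ACAux

theorem card_pos' (Ω : Type) [Fintype Ω] [Nonempty Ω] : (0 : ℝ) < Fintype.card Ω := by
  exact_mod_cast Fintype.card_pos

theorem pr_nonneg {Ω : Type} [Fintype Ω] (E : Ω → Prop) : 0 ≤ pr E := by
  unfold pr; positivity

theorem pr_le_one {Ω : Type} [Fintype Ω] [Nonempty Ω] (E : Ω → Prop) : pr E ≤ 1 := by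
  unfold pr
  rw [div_le_one (card_pos' Ω)]
  exact_mod_cast card_le_univ _

theorem pr_mono {Ω : Type} [Fintype Ω] {E E' : Ω → Prop} (h : ∀ ω, E ω → E' ω) :
    pr E ≤ pr E' := by
  unfold pr
  refine div_le_div_of_nonneg_right ?_ (Nat.cast_nonneg _)
  exact_mod_cast card_le_card fun ω hω => by
    simp only [mem_filter, mem_univ, true_and] at hω ⊢
    exact h ω hω

open Classical in
theorem sum_ind {Ω : Type} [Fintype Ω] [Nonempty Ω] (E : Ω → Prop) :
    ∑ ω, (if E ω then (1 : ℝ) else 0) = pr E * Fintype.card Ω := by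
  unfold pr
  rw [div_mul_cancel₀ _ (card_pos' Ω).ne', sum_boole]

/-- Conditioning on all coordinates but one. -/
theorem slice {ι Ω : Type} [Fintype ι] [DecidableEq ι] [Fintype Ω] [Nonempty Ω] (t : ι)
    {E E' : (ι → Ω) → Prop} {ρ : ℝ} (h1 : ∀ a ω, E (Function.update a t ω) → E' a)
    (h2 : ∀ a, pr (fun ω => E (Function.update a t ω)) ≤ ρ) : pr E ≤ ρ * pr E' := by
  classical
  have hΩ := card_pos' Ω
  have hA := card_pos' (ι → Ω)
  let σ : (ι → Ω) × Ω → (ι → Ω) × Ω := fun z => (Function.update z.1 t z.2, z.1 t)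
  have hσ : Function.Involutive σ := fun z => by simp [σ]
  have e1 : ∑ a : ι → Ω, ∑ ω : Ω, (if E (Function.update a t ω) then (1 : ℝ) else 0) =
      pr E * Fintype.card (ι → Ω) * Fintype.card Ω := by
    rw [← Fintype.sum_prod_type', ← sum_ind, sum_mul]
    refine (hσ.bijective.sum_comp fun z => if E z.1 then (1 : ℝ) else 0).trans ?_
    rw [Fintype.sum_prod_type]
    refine sum_congr rfl fun a _ => ?_
    by_cases ha : E a <;> simp [ha]
  have e2 : ∀ a : ι → Ω, ∑ ω : Ω, (if E (Function.update a t ω) then (1 : ℝ) else 0) ≤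
      (if E' a then (1 : ℝ) else 0) * (ρ * Fintype.card Ω) := fun a => by
    by_cases ha : E' a
    · rw [if_pos ha, one_mul, sum_ind fun ω => E (Function.update a t ω)]
      exact mul_le_mul_of_nonneg_right (h2 a) hΩ.le
    · rw [if_neg ha, zero_mul]
      exact (sum_eq_zero fun ω _ => if_neg fun h => ha (h1 a ω h)).le
  have e3 := sum_le_sum fun a (_ : a ∈ univ) => e2 a
  rw [e1, ← sum_mul, sum_ind] at e3
  refine le_of_mul_le_mul_right ?_ (mul_pos hA hΩ)
  linarith

theorem sum_update {F ι Ω : Type} [Field F] [Fintype ι] [DecidableEq ι] (S : Ω → F) (x : ι → F)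
    (a : ι → Ω) (t : ι) (ω : Ω) : ∑ s, x s * S (Function.update a t ω s) =
      x t * S ω + ∑ s ∈ univ.erase t, x s * S (a s) := by
  rw [← add_sum_erase _ _ (mem_univ t), Function.update_self]
  congr 1
  exact sum_congr rfl fun s hs => by rw [Function.update_of_ne (ne_of_mem_erase hs)]

theorem ac {F ι Ω : Type} [Field F] [Fintype ι] [DecidableEq ι] [Fintype Ω] [Nonempty Ω]
    (S : Ω → F) (ρ : ℝ) (h : ∀ c, pr (fun ω => S ω = c) ≤ ρ) (n : ℕ) :
    ∀ K : Submodule F (ι → F), n ≤ Module.finrank F K →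
      pr (fun a : ι → Ω => ∀ x ∈ K, ∑ t, x t * S (a t) = 0) ≤ ρ ^ n := by
  have hρ : 0 ≤ ρ := (pr_nonneg _).trans (h 0)
  induction n with
  | zero => exact fun K _ => by simpa using pr_le_one _
  | succ n ih =>
    intro K hK
    have hb : K ≠ ⊥ := fun e => by subst e; simp at hK
    obtain ⟨x₀, hx₀, hne⟩ := Submodule.exists_mem_ne_zero_of_ne_bot hb
    obtain ⟨t, ht⟩ := Function.ne_iff.1 hne
    let f : K →ₗ[F] F := (LinearMap.proj t : (ι → F) →ₗ[F] F).domRestrict K
    have h1 := f.finrank_range_add_finrank_ker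
    have h2 : Module.finrank F (LinearMap.range f) ≤ 1 := by
      simpa using (LinearMap.range f).finrank_le
    have h3 := ih ((LinearMap.ker f).map K.subtype) (by
      rw [Submodule.finrank_map_subtype_eq]; omega)
    rw [pow_succ']
    refine (slice t (fun a ω ha x hx => ?_) fun a => ?_).trans
      (mul_le_mul_of_nonneg_left h3 hρ)
    · obtain ⟨y, hy, rfl⟩ := Submodule.mem_map.1 hx
      have h4 : (y : ι → F) t = 0 := hy
      have h5 := ha y y.2
      rw [sum_update, h4, zero_mul, zero_add] at h5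
      rw [← add_sum_erase _ _ (mem_univ t)]
      simp only [Submodule.subtype_apply, h4, zero_mul, zero_add, h5]
    · refine (pr_mono fun ω hω => ?_).trans
        (h (-(∑ s ∈ univ.erase t, x₀ s * S (a s)) / x₀ t))
      have h5 := hω x₀ hx₀
      rw [sum_update] at h5
      rw [eq_div_iff ht]
      linear_combination h5

end ACAux

theorem pAC : StAC := fun _ _ _ _ _ _ _ _ S ρ K h => ACAux.ac S ρ h _ K le_rfl

theorem pHit : StHit := by
  intro Ω Q _ _ B E ρ e h hs
  classical
  by_contra hc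
  push Not at hc
  have hΩ := ACAux.card_pos' Ω
  have h1 : (univ : Finset (Fin e → Ω)) ⊆
      B.biUnion fun q => Fintype.piFinset fun _ : Fin e => univ.filter (E q) := fun a _ => by
    obtain ⟨q, hq, hE⟩ := hc fun i => if h : i < e then a ⟨i, h⟩ else Classical.arbitrary Ω
    refine mem_biUnion.2 ⟨q, hq, Fintype.mem_piFinset.2 fun i => mem_filter.2 ⟨mem_univ _, ?_⟩⟩
    simpa using hE i i.2
  have h2 := (card_le_card h1).trans card_biUnion_le
  simp only [card_univ, Fintype.card_pi, prod_const, Fintype.card_fin, Fintype.card_piFinset] at h2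
  have h3 : (Fintype.card Ω : ℝ) ^ e ≤ ∑ q ∈ B, ((univ.filter (E q)).card : ℝ) ^ e := by
    exact_mod_cast h2
  have h4 : ∑ q ∈ B, ((univ.filter (E q)).card : ℝ) ^ e ≤
      ∑ q ∈ B, ρ q ^ e * (Fintype.card Ω : ℝ) ^ e := sum_le_sum fun q hq => by
    rw [← mul_pow]
    refine pow_le_pow_left₀ (Nat.cast_nonneg _) ?_ e
    have := h q hq
    unfold pr at this
    rw [div_le_iff₀ hΩ] at this
    convert this
  rw [← sum_mul] at h4
  nlinarith [pow_pos hΩ e]

end Pool.Agent.P.MP_f57657_co.SZ
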