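import Pool.Agent.P.MP_f57657_co.SZ.Seed

/-! The anchored graph with a clique whose size depends only on the degrees. -/

open Matrix Finset

set_option linter.unusedSectionVars false

namespace Pool.Agent.P.MP_f57657_co.SZ

open SX SY SY.Trk SeedAux

namespace AncFAux

variable {V : Type} [Fintype V] [DecidableEq V]

open AncAux in
theorem front3 (G : SimpleGraph V) (ρ : V) (tw k D : ℕ) (hD : MaxDeg G D) (hk : 1 ≤ k)
    (hD1 : 1 ≤ D) (htw : 2 * (D + 2) + 2 ≤ tw) :
    Front (ancLay ρ tw k) (ancG G ρ tw k) (k + 1) (D + 2) (ancP ρ tw k) where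
  layered := layered G ρ tw k
  two_le := by omega
  clique := by
    intro x y hx hy hxy
    obtain ⟨s, rfl⟩ := lay_zero ρ tw k hx
    obtain ⟨s', rfl⟩ := lay_zero ρ tw k hy
    rw [adj_tt]
    rintro rfl
    exact hxy rfl
  pv_lay := by
    intro j h1 h2
    by_cases h : j = k + 1
    · rw [h, ancP_top, lay_rho]
    · have e := ancP_path ρ tw k ⟨j - 1, by omega⟩
      simp only at e
      rw [show j - 1 + 1 = j by omega] at e
      rw [e]
      simp only [ancLay]
      omega
  pv_uniq := by
    intro x h1 h2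
    rcases x with x | s | i
    · by_cases h : x = ρ
      · rw [h, lay_rho, ancP_top]
      · simp only [ancLay, if_neg h] at h2
        omega
    · simp [ancLay] at h1
    · exact (ancP_path ρ tw k i).symm
  pv_adj := by
    intro x hx
    rcases x with x | s | i
    · have := lay_inl ρ tw k x
      omega
    · have e := ancP_path ρ tw k ⟨0, by omega⟩
      simp only at e
      change (ancG G ρ tw k).Adj _ (ancP ρ tw k (0 + 1))
      rw [e, adj_tp]
    · exact adj_next G ρ tw k i
  deg := by
    intro x hx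
    rw [Fintype.sum_sum_type, Fintype.sum_sum_type]
    have h2 : ∑ s : Fin tw, up (ancLay ρ tw k) 1 (am (ancG G ρ tw k)) x
        (Sum.inr (Sum.inl s)) = 0 := Finset.sum_eq_zero fun s _ => by simp [up, ancLay]
    have h1 := Finset.sum_le_sum (s := univ) fun (y : V) _ =>
      up_le tw k (ancLay ρ tw k) (ancG G ρ tw k) x (Sum.inl y)
    have h3 := Finset.sum_le_sum (s := univ) fun (j : Fin k) _ =>
      up_le tw k (ancLay ρ tw k) (ancG G ρ tw k) x (Sum.inr (Sum.inr j))
    rcases x with x | s | i
    · simp only [am_inl (Main.anc_adj G ρ tw k)] at h1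
      have h4 := sum_le_code (ancG G ρ tw k) (Sum.inl x) (fun u => Sum.inr (Sum.inr u))
        Fin.val Fin.val_injective [k - 1] fun u hu => by
          have := (adj_lp G ρ tw k x u).1 hu
          simp only [List.mem_singleton]
          omega
      have := hD x
      simp only [List.length_singleton] at h4
      push_cast at h4 ⊢
      omega
    · simp [ancLay] at hx
    · have h4 := sum_le_code (ancG G ρ tw k) (Sum.inr (Sum.inr i)) Sum.inl id
        Function.injective_id [ρ] fun u hu => by simpa using ((adj_pl G ρ tw k u i).1 hu).2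
      have h5 := sum_le_code (ancG G ρ tw k) (Sum.inr (Sum.inr i)) (fun u => Sum.inr (Sum.inr u))
        Fin.val Fin.val_injective [i.val + 1, i.val - 1] fun u hu => by
          have := (adj_pp G ρ tw k i u).1 hu
          simp only [List.mem_cons, List.not_mem_nil, or_false]
          omega
      simp only [List.length_cons, List.length_nil] at h4 h5
      push_cast at h4 h5 ⊢
      omega
  big := by rw [card_L0]; exact htw

open AncDSAux in
/-- The anchored graph with a small clique. -/
theorem anc_all3 (G : SimpleGraph V) (t : Fin 1 → V) (tw k D : ℕ) (hD : MaxDeg G D) (hD1 : 1 ≤ D)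
    (h1 : k % 3 = 1) (h2 : 2 * (D + 2) + 2 ≤ tw) (h3 : Fintype.card V + 2 ≤ k) (hP : Pre G t)
    (hRig : Rigid G t) :
    (ancG G (t 0) tw k).Connected ∧
      (∀ x, ∃ y z, y ≠ z ∧ (ancG G (t 0) tw k).Adj x y ∧ (ancG G (t 0) tw k).Adj x z) ∧
      DSV (ancG G (t 0) tw k) := by
  have hk1 : 1 ≤ k := by omega
  refine ⟨AncAux.connected G _ tw k hk1 fun x => ?_,
    AncAux.two_nb G _ tw k hk1 (by omega) ?_ fun x hx => ?_, ?_⟩
  · obtain ⟨i, hi⟩ := hP.reach x
    rwa [Subsingleton.elim (α := Fin 1) i 0] at hi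
  · by_contra h
    have e := hP.deg0
    rw [Finset.sum_eq_zero fun y _ => AncAux.am_neg fun h' => h ⟨y, h'⟩] at e
    exact absurd e (by norm_num)
  · exact hP.two x fun i => by rwa [Subsingleton.elim (α := Fin 1) i 0]
  intro H0 hc
  have hR := pRestr
  have F := front3 G (t 0) tw k D hD hk1 hD1 h2
  have hK := AncAux.ker_ok G tw k t h1 hP.ker ⟨0, by omega⟩
  have hU := AncAux.card_U (t 0) tw k
  obtain ⟨H, ⟨hg, ⟨e0⟩⟩, ha, -⟩ := SX.Main.phaseA (pTop pSim) F
    (SX.Main.phase0 (pTwins pSim) F rfl hK hc) (k + 1) le_rfl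
  obtain ⟨d1, d2⟩ := pOne pGlue pBasic pSep _ _ _ H _ _ _ F hg ha.1 (by omega)
  have hp : ancP (t 0) tw k (k + 1) = Sum.inl (t 0) := dif_neg (by omega)
  rw [(restr hR H).1, (restr hR _).1, comap_anc] at d1
  obtain ⟨e, he⟩ := hRig (H.comap Sum.inl) t d1 fun j i i' => by
    have := d2 j
    rw [hp, (restr hR H).2, (restr hR _).2, comap_anc] at this
    rwa [Subsingleton.elim i 0, Subsingleton.elim i' 0]
  have he' : ∀ x, e x = t 0 ↔ x = t 0 := fun x =>
    ⟨fun h => e.injective (h.trans (he 0).symm), fun h => h ▸ he 0⟩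
  have key : ∀ u b, H.Adj (Sum.inr u) (Sum.map e id b) ↔
      (ancG G (t 0) tw k).Adj (Sum.inr u) b := fun u b => by
    rw [ha.1 _ _ (lay_inr u)]
    rcases b with y | w
    · exact adj_cross G u (he' y)
    · exact Iff.rfl
  refine ⟨e0.trans (RelIso.symm (⟨Equiv.sumCongr e.toEquiv (Equiv.refl _), ?_⟩ :
    ancG G (t 0) tw k ≃g H))⟩
  rintro (x | u) b
  · rcases b with y | w
    · exact (e.map_adj_iff (v := x) (w := y)).trans (Main.anc_adj G _ tw k x y).symm
    · rw [H.adj_comm, (ancG G (t 0) tw k).adj_comm]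
      exact key w (Sum.inl x)
  · exact key u b

end AncFAux

theorem pAncF : StAncF := by
  intro V _ _ G t tw k β h1 hβ h2 h3 hP hR
  have e := hP.deg0
  rw [← dg_cast] at e
  have := hβ (t 0)
  exact AncFAux.anc_all3 G t tw k (β - 2) ((maxDeg_iff _ _).2 fun x => by
    have := hβ x
    omega) (by omega) h1 (by omega) h3 hP hR

end Pool.Agent.P.MP_f57657_co.SZ
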