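import Mathlib

/-! Choice of the parameters and the final count. -/

namespace Pool.Agent.P.MP_f57657_co.SZ

theorem pow_le_choose_mul (t : ℕ) : ∀ e : ℕ, t ^ e ≤ (e * t).choose e := by
  intro e
  induction e with
  | zero => simp
  | succ e ih =>
    rcases Nat.eq_zero_or_pos t with rfl | ht
    · simp
    obtain ⟨u, hu⟩ : ∃ u, (e + 1) * t = u + 1 := ⟨(e + 1) * t - 1, by
      have : 0 < (e + 1) * t := by positivity
      omega⟩
    have h1 : e * t ≤ u := by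
      rw [add_mul] at hu
      omega
    have h2 := Nat.add_one_mul_choose_eq u e
    have h3 : (u + 1).choose (e + 1) = t * u.choose e := by
      refine Nat.eq_of_mul_eq_mul_right (Nat.succ_pos e) ?_
      change _ * (e + 1) = _ * (e + 1)
      rw [← h2, ← hu]
      ring
    rw [hu, h3, pow_succ']
    exact Nat.mul_le_mul_left _ (ih.trans (Nat.choose_le_choose e h1))

theorem pow_le_choose {e t h : ℕ} (H : e * t ≤ h) : t ^ e ≤ h.choose e :=
  (pow_le_choose_mul t e).trans (Nat.choose_le_choose e H)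

theorem le_two_mul_div {a b : ℕ} (ha : 1 ≤ a) (h : a ≤ b) :
    1 ≤ b / a ∧ a * (b / a) ≤ b ∧ b ≤ 2 * (a * (b / a)) := by
  have h1 : 1 ≤ b / a := (Nat.le_div_iff_mul_le ha).2 (by omega)
  have h2 := Nat.lt_mul_div_succ b ha
  have h3 : a * 1 ≤ a * (b / a) := Nat.mul_le_mul_left a h1
  refine ⟨h1, Nat.mul_div_le b a, ?_⟩
  rw [mul_add] at h2
  omega

theorem fin_count {M : ℝ} {n d t x q : ℕ} (hM : 1 ≤ M) (hd : 64 * M ^ 2 ≤ d) (hn : d ≤ n)
    (ht : 2 * n ≤ d * t ^ 2) (hx : 4 * ((d : ℝ) * n) ≤ M * x) (hq : t ^ x ≤ q * n.factorial) :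
    Real.exp (1 / M * d * n * Real.log (2 * n / d)) ≤ q := by
  have hM0 : 0 < M := by linarith
  have hd0 : (0 : ℝ) < d := by nlinarith
  have hn' : (d : ℝ) ≤ n := by exact_mod_cast hn
  have hn0 : (0 : ℝ) < n := by linarith
  have ht' : 2 * (n : ℝ) / d ≤ (t : ℝ) ^ 2 := by
    rw [div_le_iff₀' hd0]
    exact_mod_cast ht
  have h2 : (2 : ℝ) ≤ 2 * n / d := by
    rw [le_div_iff₀ hd0]
    linarith
  have ht0 : (0 : ℝ) < t := by
    rcases Nat.eq_zero_or_pos t with rfl | h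
    · simp only [Nat.cast_zero, ne_eq, OfNat.ofNat_ne_zero, not_false_eq_true, zero_pow] at ht'
      linarith
    · exact_mod_cast h
  set l := Real.log (2 * n / d) with hl
  have l1 : 1 / 2 ≤ l := by
    have := Real.log_le_log two_pos h2
    linarith [Real.log_two_gt_d9]
  have l2 : l ≤ 2 * Real.log t := by
    have := Real.log_le_log (by linarith) ht'
    rwa [Real.log_pow] at this
  have l3 : Real.log n ≤ l + Real.log d := by
    rw [hl, ← Real.log_mul (by linarith) hd0.ne', div_mul_cancel₀ _ hd0.ne']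
    exact Real.log_le_log hn0 (by linarith)
  have l4 : Real.log d ≤ d / (8 * M) + 8 * M := by
    have a1 := Real.log_le_sub_one_of_pos (show 0 < (d : ℝ) / (8 * M) by positivity)
    have a2 := Real.log_le_sub_one_of_pos (show 0 < 8 * M by positivity)
    rw [Real.log_div hd0.ne' (by positivity)] at a1
    linarith
  have l5 : M * Real.log d ≤ d / 4 := by
    have a1 := mul_le_mul_of_nonneg_left l4 hM0.le
    have a2 : M * (d / (8 * M) + 8 * M) = d / 8 + 8 * M ^ 2 := by field_simp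
    linarith
  have l6 : M * Real.log n ≤ d * l := by
    have a1 := mul_le_mul_of_nonneg_left l3 hM0.le
    have a2 : M * l ≤ d / 2 * l := mul_le_mul_of_nonneg_right (by nlinarith) (by linarith)
    nlinarith
  have e1 : (n.factorial : ℝ) ≤ Real.exp (1 / M * d * n * l) := by
    have a1 : (n.factorial : ℝ) ≤ (n : ℝ) ^ n := by exact_mod_cast Nat.factorial_le_pow n
    refine a1.trans ?_
    rw [← Real.exp_log (pow_pos hn0 n), Real.log_pow, Real.exp_le_exp,
      show 1 / M * d * n * l = n * (d * l / M) by ring]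
    exact mul_le_mul_of_nonneg_left ((le_div_iff₀' hM0).2 l6) hn0.le
  have e2 : Real.exp (1 / M * d * n * l) * Real.exp (1 / M * d * n * l) ≤ (t : ℝ) ^ x := by
    rw [← Real.exp_add, ← Real.exp_log (pow_pos ht0 x), Real.log_pow, Real.exp_le_exp,
      show 1 / M * d * n * l + 1 / M * d * n * l = 4 * (d * n) / M * (l / 2) by ring]
    exact mul_le_mul ((div_le_iff₀' hM0).2 hx) (by linarith) (by linarith) (Nat.cast_nonneg x)
  have e3 : (t : ℝ) ^ x ≤ q * n.factorial := by exact_mod_cast hq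
  exact le_of_mul_le_mul_right ((e2.trans e3).trans
    (mul_le_mul_of_nonneg_left e1 (Nat.cast_nonneg q))) (Real.exp_pos _)

theorem asy (C N0 : ℕ) : ∃ c : ℝ, 0 < c ∧ ∃ d0 : ℕ, ∀ n d : ℕ, d0 ≤ d → d ≤ n →
    ∃ h L e t : ℕ, N0 ≤ h * L ∧ 1 ≤ L ∧ 1 ≤ e ∧ e * t ≤ h ∧ C * (h * L) ≤ n ∧ C * h ≤ n ∧
      n ≤ h ^ 2 ∧ C * h ^ 2 ≤ d * n ∧ C * (e * (h * L)) ≤ d * n ∧ C ≤ d ∧ N0 ≤ h ∧
      h ≤ 2 * (e * t) ∧ ∀ q : ℕ, t ^ (e * (e * t * L)) ≤ q * n.factorial →
        Real.exp (c * d * n * Real.log (2 * n / d)) ≤ q := by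
  obtain ⟨a, ha, hC⟩ : ∃ a, 1 ≤ a ∧ C ≤ a := ⟨C + 1, by omega, by omega⟩
  have ha' : (1 : ℝ) ≤ a := by exact_mod_cast ha
  refine ⟨1 / (4096 * (a : ℝ) ^ 2), by positivity, 64 * (4096 * a ^ 2) ^ 2 + N0 ^ 2,
    fun n d hd hn => ?_⟩
  have a2 : a ≤ a ^ 2 := Nat.le_self_pow two_ne_zero a
  have a3 : 4096 * a ^ 2 ≤ (4096 * a ^ 2) ^ 2 := Nat.le_self_pow two_ne_zero _
  obtain ⟨-, n2, n3⟩ := le_two_mul_div ha (show a ≤ n by omega)
  obtain ⟨e1, e2, e3⟩ := le_two_mul_div (show 1 ≤ 64 * a by omega) (show 64 * a ≤ d by omega)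
  have e4 : 8 * a ≤ d / (64 * a) := (Nat.le_div_iff_mul_le (by omega)).2 (by nlinarith)
  generalize n / a = N at n2 n3
  generalize d / (64 * a) = e at e1 e2 e3 e4
  have e5 : e ≤ N := Nat.le_of_mul_le_mul_left (show a * e ≤ a * N by nlinarith) ha
  have h1 : e ≤ Nat.sqrt (e * N) := Nat.le_sqrt.2 (Nat.mul_le_mul_left e e5)
  have h2 : Nat.sqrt (e * N) ^ 2 ≤ e * N := Nat.sqrt_le' _
  have h3 : e * N < (Nat.sqrt (e * N) + 1) ^ 2 := Nat.lt_succ_sqrt' _
  generalize Nat.sqrt (e * N) = h at h1 h2 h3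
  have h4 : e * N ≤ 4 * h ^ 2 := by nlinarith
  have h5 : h ≤ N := (Nat.pow_le_pow_iff_left two_ne_zero).1
    (h2.trans (by rw [sq]; exact Nat.mul_le_mul_right N e5))
  obtain ⟨l1, l2, l3⟩ := le_two_mul_div (show 1 ≤ h by omega) h5
  obtain ⟨-, t2, t3⟩ := le_two_mul_div e1 h1
  generalize N / h = L at l1 l2 l3
  generalize h / e = t at t2 t3
  have c1 : C * N ≤ n := (Nat.mul_le_mul_right N hC).trans n2
  have c2 : e ≤ d := by nlinarith
  have c3 : C * (e * N) ≤ d * n := by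
    rw [mul_left_comm]
    exact Nat.mul_le_mul c2 c1
  have c4 : n ≤ h ^ 2 := by nlinarith [Nat.mul_le_mul_right N e4]
  have c5 : N0 ≤ h := (Nat.pow_le_pow_iff_left two_ne_zero).1 (show N0 ^ 2 ≤ h ^ 2 by omega)
  have c6 : h * 1 ≤ h * L := Nat.mul_le_mul_left h l1
  refine ⟨h, L, e, t, by omega, l1, e1, t2, (Nat.mul_le_mul_left C l2).trans c1,
    (Nat.mul_le_mul_left C h5).trans c1, c4, (Nat.mul_le_mul_left C h2).trans c3,
    (Nat.mul_le_mul_left C (Nat.mul_le_mul_left e l2)).trans c3, by omega, c5, t3,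
    fun q hq => ?_⟩
  refine fin_count (by linarith [one_le_pow₀ (n := 2) ha']) ?_ hn ?_ ?_ hq
  · have : 64 * (4096 * a ^ 2) ^ 2 ≤ d := by omega
    exact_mod_cast this
  · have b1 : h ^ 2 ≤ (2 * (e * t)) ^ 2 := Nat.pow_le_pow_left t3 2
    have b2 : N ≤ 16 * (e * t ^ 2) :=
      Nat.le_of_mul_le_mul_left ((h4.trans (Nat.mul_le_mul_left 4 b1)).trans
        (le_of_eq (show _ = e * (16 * (e * t ^ 2)) by ring))) e1
    calc 2 * n ≤ 2 * (2 * (a * (16 * (e * t ^ 2)))) :=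
          Nat.mul_le_mul_left 2 (n3.trans (Nat.mul_le_mul_left 2 (Nat.mul_le_mul_left a b2)))
      _ = 64 * a * e * t ^ 2 := by ring
      _ ≤ _ := Nat.mul_le_mul_right (t ^ 2) e2
  · have b0 : N ≤ 2 * (2 * (e * t) * L) :=
      l3.trans (Nat.mul_le_mul_left 2 (Nat.mul_le_mul_right L t3))
    have b1 : d * n ≤ 2 * (64 * a * e) * (2 * (a * (2 * (2 * (e * t) * L)))) :=
      Nat.mul_le_mul e3 (n3.trans (Nat.mul_le_mul_left 2 (Nat.mul_le_mul_left a b0)))
    have b2 : 4 * (d * n) ≤ 4096 * a ^ 2 * (e * (e * t * L)) :=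
      (Nat.mul_le_mul_left 4 b1).trans (le_of_eq (by ring))
    exact_mod_cast b2

end Pool.Agent.P.MP_f57657_co.SZ
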