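import Pool.Agent.P.MP_f57657_co.SZ.Defs
import Pool.Agent.P.MP_f57657_co.SZ.Asy

/-! The parameters of the count. -/

namespace Pool.Agent.P.MP_f57657_co.SZ

namespace AsyD

theorem XX_le (n : ℕ) : 4 * XX n ≤ 2 ^ (4 * Nat.log 2 n + 12) := by
  have h1 : n ≤ 2 ^ (Nat.log 2 n + 1) := (Nat.lt_pow_succ_log_self (by omega) n).le
  have h2 : n ^ 4 ≤ (2 ^ (Nat.log 2 n + 1)) ^ 4 := Nat.pow_le_pow_left h1 4
  have h3 : n ≤ n ^ 4 := Nat.le_self_pow (by omega) n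
  have h4 : 4 * XX n = 80 * n ^ 4 + 80 * n := by
    rw [XX]
    ring
  have h5 : 2 ^ (4 * Nat.log 2 n + 12) = 256 * (2 ^ (Nat.log 2 n + 1)) ^ 4 := by ring
  omega

theorem gM_le {k w : ℕ} (hk : 1 ≤ k) (hw : 5000 ≤ w) : gM k w 200 200 ≤ 100 * k ^ 2 * w := by
  have h1 : k ≤ k ^ 2 := Nat.le_self_pow two_ne_zero k
  have h2 : k * w ≤ k ^ 2 * w := Nat.mul_le_mul_right w h1
  have h3 : k * 5000 ≤ k * w := Nat.mul_le_mul_left k hw
  have h4 : gM k w 200 200 = 72 * (k ^ 2 * w) + 9 * (k * w) + 17 * k + 80200 := by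
    rw [gM]
    ring
  rw [h4, mul_assoc]
  omega

theorem small {u m : ℕ} (hu : 4 ≤ u) (h1 : 1 ≤ m) (hm : m ≤ 200 * u + 208) :
    2 * gM ((2 * m + 1) * m) (400 * 32 ^ (u + 2)) 200 200 ≤ 2 ^ (25 * u) := by
  have a1 : 1 ≤ 32 ^ u := Nat.one_le_pow _ _ (by omega)
  have a2 := gM_le (k := (2 * m + 1) * m) (w := 400 * 32 ^ (u + 2)) (by nlinarith)
    (by rw [pow_add]; omega)
  have a3 : m ≤ 2 ^ (u + 8) := by
    have := Nat.lt_two_pow_self (n := u)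
    rw [pow_add]
    omega
  have a4 : (2 * m + 1) * m ≤ 4 * (2 ^ (u + 8)) ^ 2 := by nlinarith
  have a5 : 100 * ((2 * m + 1) * m) ^ 2 * (400 * 32 ^ (u + 2)) ≤
      128 * (4 * (2 ^ (u + 8)) ^ 2) ^ 2 * (512 * 32 ^ (u + 2)) := by
    gcongr <;> norm_num
  have a6 : 2 * (128 * (4 * (2 ^ (u + 8)) ^ 2) ^ 2 * (512 * 32 ^ (u + 2))) = 2 ^ (9 * u + 63) := by
    rw [show 32 = 2 ^ 5 by norm_num, ← pow_mul, ← pow_mul]
    ring
  have a7 : 2 ^ (9 * u + 63) ≤ 2 ^ (25 * u) := Nat.pow_le_pow_right (by omega) (by omega)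
  omega

end AsyD

open AsyD

theorem pAsyD : StAsyD := by
  intro C _
  obtain ⟨c, hc, d0, h⟩ := asy (C + 60000) 0
  refine ⟨c, hc, d0, 2 ^ 200, fun n hn d hd hdn => ?_⟩
  obtain ⟨h, L, e, t, -, l1, e1, t1, c1, -, c2, c3, c4, c5, -, t2, hq⟩ := h n d hd hdn
  obtain ⟨s, rfl⟩ : ∃ s, L = s + 1 := ⟨L - 1, by omega⟩
  have hl : 200 ≤ Nat.log 2 n := (Nat.le_log_iff_pow_le (by omega) (by
    have : 0 < 2 ^ 200 := by positivity
    omega)).2 hn
  have h1 : 2 ^ Nat.log 2 n ≤ n := Nat.pow_log_le_self 2 (by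
    have : 0 < 2 ^ 200 := by positivity
    omega)
  have h2 := XX_le n
  generalize Nat.log 2 n = l at hl h1 h2
  have b1 : e * t * (s + 1) ≤ h * (s + 1) := Nat.mul_le_mul_right _ t1
  refine ⟨e, t, 4 * l + 12, l / 50 + 2, s, e1, by omega, h2,
    h2.trans (Nat.pow_le_pow_right (by omega) (by omega)), ?_,
    (Nat.mul_le_mul (by omega) b1).trans c1, ?_, hq⟩
  · have a1 := small (u := l / 50) (m := 4 * l + 12) (by omega) (by omega) (by omega)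
    have a2 : (2 ^ (25 * (l / 50))) ^ 2 ≤ (2 * (e * t)) ^ 2 := by
      rw [← pow_mul]
      exact (((Nat.pow_le_pow_right (by omega) (by omega)).trans h1).trans c2).trans
        (Nat.pow_le_pow_left t2 2)
    have a3 := (Nat.pow_le_pow_iff_left two_ne_zero).1 a2
    omega
  · have a1 : 60000 * (e * (e * t * (s + 1))) ≤ d * n :=
      (Nat.mul_le_mul (by omega) (Nat.mul_le_mul_left e b1)).trans c4
    have a2 : 60000 * (e * t) ^ 2 ≤ d * n :=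
      (Nat.mul_le_mul (by omega) (Nat.pow_le_pow_left t1 2)).trans c3
    have a3 : 60000 * n ≤ d * n := Nat.mul_le_mul_right n (by omega)
    omega

end Pool.Agent.P.MP_f57657_co.SZ
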