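import Pool.Agent.P.MP_f57657_co.SZ.Defs
import Pool.Agent.P.MP_f57657_co.SY.Fin
import Pool.Agent.P.MP_f57657_co.SY.Row

/-! Only finitely many points can carry a large solution space. -/

open Matrix Finset

namespace Pool.Agent.P.MP_f57657_co.SZ

open SX SY

namespace CandAux

set_option linter.unusedSectionVars false

variable {W : Type} [Fintype W] [DecidableEq W]

theorem am_ll (H : SimpleGraph W) (R : ℕ → W → Bool) (j : ℕ) (x y : W) :
    am (rootG H R j) (Sum.inl x) (Sum.inl y) = am H x y := by
  have h : (rootG H R j).Adj (Sum.inl x) (Sum.inl y) ↔ H.Adj x y := by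
    simp only [rootG, SimpleGraph.fromRel_adj, rootRel, ne_eq, Sum.inl.injEq]
    exact ⟨fun h => h.2.elim id fun h' => h'.symm, fun h => ⟨h.ne, Or.inl h⟩⟩
  simp only [am, Matrix.of_apply]
  rw [propext h]

theorem am_rl (H : SimpleGraph W) (R : ℕ → W → Bool) (j : ℕ) (i : Fin j) (y : W) :
    am (rootG H R j) (Sum.inr i) (Sum.inl y) = if R i y = true then 1 else 0 := by
  have h : (rootG H R j).Adj (Sum.inr i) (Sum.inl y) ↔ R i y = true := by
    simp [rootG, SimpleGraph.fromRel_adj, rootRel]
  simp only [am, Matrix.of_apply]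
  by_cases c : R i y = true
  · rw [if_pos c, if_pos (h.2 c)]
  · rw [if_neg c, if_neg fun a => c (h.1 a)]

theorem am_comap {V U : Type} [Fintype V] [DecidableEq V] [Fintype U] [DecidableEq U] (e : V → U)
    (H : SimpleGraph U) (a b : V) : am (H.comap e) a b = am H (e a) (e b) := by
  by_cases h : H.Adj (e a) (e b)
  · have h' : (H.comap e).Adj a b := h
    simp only [am, Matrix.of_apply, if_pos h, if_pos h']
  · have h' : ¬ (H.comap e).Adj a b := h
    simp only [am, Matrix.of_apply, if_neg h, if_neg h']

/-- Extension by zero. -/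
def ext (F : Type) [Field F] {N j : ℕ} (e : Fin N ≃ W ⊕ Fin j) : (W → F) →ₗ[F] (Fin N → F) where
  toFun g := fun x => Sum.elim g 0 (e x)
  map_add' g g' := by
    funext x
    simp only [Pi.add_apply]
    rcases e x with w | i <;> simp
  map_smul' c g := by
    funext x
    simp only [Pi.smul_apply, RingHom.id_apply]
    rcases e x with w | i <;> simp

theorem ext_apply (F : Type) [Field F] {N j : ℕ} (e : Fin N ≃ W ⊕ Fin j) (g : W → F)
    (x : Fin N) : ext F e g x = Sum.elim g 0 (e x) := rfl

theorem ext_inj (F : Type) [Field F] {N j : ℕ} (e : Fin N ≃ W ⊕ Fin j) :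
    Function.Injective (ext F e) := by
  intro g g' h
  funext w
  have := congrFun h (e.symm (Sum.inl w))
  simpa [ext_apply] using this

theorem sum_ext (F : Type) [Field F] {N j : ℕ} (e : Fin N ≃ W ⊕ Fin j)
    (K : SimpleGraph (W ⊕ Fin j)) (g : W → F) (x : Fin N) :
    ∑ l, ((am (K.comap e) x l : ℤ) : F) * ext F e g l =
      ∑ w, ((am K (e x) (Sum.inl w) : ℤ) : F) * g w := by
  have h : ∑ l, ((am (K.comap e) x l : ℤ) : F) * ext F e g l =
      ∑ y : W ⊕ Fin j, ((am K (e x) y : ℤ) : F) * Sum.elim g 0 y := by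
    rw [← Equiv.sum_comp e]
    exact Finset.sum_congr rfl fun l _ => by rw [am_comap, ext_apply]
  rw [h, Fintype.sum_sum_type]
  simp

theorem dot_eq (F : Type) [Field F] (H : SimpleGraph W) (R : ℕ → W → Bool) (j : ℕ) (i : Fin j)
    (g : W → F) :
    ∑ w, ((am (rootG H R j) (Sum.inr i) (Sum.inl w) : ℤ) : F) * g w = dotW (R i) g := by
  unfold dotW
  refine Finset.sum_congr rfl fun w _ => ?_
  rw [am_rl]
  split_ifs <;> simp

theorem nu_eq (F : Type) [Field F] (H : SimpleGraph W) (R : ℕ → W → Bool) (c j : ℕ) (θ : F)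
    (e : Fin (c + j) ≃ W ⊕ Fin j) (hl : ∀ w, (e.symm (Sum.inl w)).val < c)
    (hr : ∀ i, c ≤ (e.symm (Sum.inr i)).val) :
    nu F ((rootG H R j).comap e) c j θ = dm F H θ R j := by
  have key : KK F ((rootG H R j).comap e) c j θ = (Sol F H θ R j).map (ext F e) := by
    ext f
    rw [Submodule.mem_map]
    constructor
    · rintro ⟨h0, h1⟩
      have hf : ext F e (fun w => f (e.symm (Sum.inl w))) = f := by
        funext x
        rw [ext_apply]
        rcases hx : e x with w | i
        · rw [Sum.elim_inl, ← hx, Equiv.symm_apply_apply]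
        · have : x = e.symm (Sum.inr i) := by rw [← hx]; simp
          rw [this, h0 _ (hr i)]
          rfl
      refine ⟨fun w => f (e.symm (Sum.inl w)), ⟨fun x => ?_, fun i hi => ?_⟩, hf⟩
      · have := h1 (e.symm (Sum.inl x)) (Fin.is_lt _)
        rw [← hf, sum_ext, hf] at this
        simp only [Equiv.apply_symm_apply, am_ll] at this
        exact this
      · have := h1 (e.symm (Sum.inr ⟨i, hi⟩)) (Fin.is_lt _)
        rw [h0 _ (hr _), mul_zero, ← hf, sum_ext] at this
        simp only [Equiv.apply_symm_apply] at this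
        rw [dot_eq] at this
        exact this
    · rintro ⟨g, ⟨h0, h1⟩, rfl⟩
      refine ⟨fun x hx => ?_, fun x _ => ?_⟩
      · rw [ext_apply]
        rcases hx' : e x with w | i
        · have : x = e.symm (Sum.inl w) := by rw [← hx']; simp
          have h2 := hl w
          rw [← this] at h2
          omega
        · rfl
      · rw [sum_ext, ext_apply]
        rcases e x with w | i
        · simp only [am_ll, Sum.elim_inl]
          exact h0 w
        · rw [dot_eq, h1 i i.2]
          simp
  unfold nu dm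
  rw [key]
  exact (LinearEquiv.finrank_eq (Submodule.equivMapOfInjective _ (ext_inj F e) _)).symm

end CandAux

open CandAux in
theorem pCand : StCand := by
  classical
  intro W _ _ H R j y n hn
  obtain ⟨e, hl, hr⟩ : ∃ e : Fin (Fintype.card W + j) ≃ W ⊕ Fin j,
      (∀ w, (e.symm (Sum.inl w)).val < Fintype.card W) ∧
        ∀ i, Fintype.card W ≤ (e.symm (Sum.inr i)).val := by
    refine ⟨(((Fintype.equivFin W).sumCongr (Equiv.refl (Fin j))).trans finSumFinEquiv).symm,
      fun w => ?_, fun i => ?_⟩ <;> simp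
  have hnu : ∀ (F : Type) [Field F] (θ : F),
      nu F ((rootG H R j).comap e) (Fintype.card W) j θ = dm F H θ R j :=
    fun F _ θ => nu_eq F H R _ j θ e hl hr
  refine ⟨?_, fun hR => ?_⟩
  · obtain ⟨S, hS, hm⟩ := pEig ℝ _ ((rootG H R j).comap e) (Fintype.card W) j
    exact ⟨S, hS.trans hn, fun θ h => hm θ (by rwa [hnu])⟩
  · by_cases hy : y ≤ Fintype.card W + j
    · obtain ⟨S, hS, hm⟩ := pFin pEig _ ((rootG H R j).comap e) (Fintype.card W) j y hy
        fun θ => by rw [hnu]; exact hR θ
      choose T hT hTm using fun p : Nat.Primes =>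
        pEig (FF p) _ ((rootG H R j).comap e) (Fintype.card W) j
      refine ⟨S.sigma T, ?_, fun q hq => ?_⟩
      · rw [Finset.card_sigma]
        calc ∑ p ∈ S, (T p).card ≤ ∑ _p ∈ S, n := Finset.sum_le_sum fun p _ => (hT p).trans hn
          _ = S.card * n := by simp
          _ ≤ XX n := by
            unfold XX
            refine Nat.mul_le_mul_right _ (hS.trans ?_)
            have := Nat.pow_le_pow_left hn 3
            omega
      · rw [Finset.mem_sigma]
        rw [← hnu] at hq
        refine ⟨?_, hTm _ _ (by omega)⟩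
        by_contra hp
        have := hm q.1 hp q.2
        omega
    · refine ⟨∅, by simp, fun q hq => ?_⟩
      have h1 := Submodule.finrank_le (Sol (FF q.1) H q.2 R j)
      rw [Module.finrank_fintype_fun_eq_card] at h1
      unfold dm at hq
      omega

end Pool.Agent.P.MP_f57657_co.SZ
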