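import Pool.Agent.P.MP_f57657_co.SZ.Seed

/-! Degrees and edges of the core, the extension and the anchor. -/

open Matrix Finset

set_option linter.unusedSectionVars false

namespace Pool.Agent.P.MP_f57657_co.SZ

open SX SY SY.Trk SeedAux

namespace DegsAux

variable {V : Type} [Fintype V] [DecidableEq V]

theorem ext_a3 (G : SimpleGraph V) (t0 t1 : V) (l : ℕ) (w : St l) :
    ∑ y, am (extG G t0 t1 l) (Sum.inr w) y ≤ ((3 : ℕ) : ℤ) := by
  have hc : Function.Injective (Sum.map id (Option.map (Prod.map Fin.val id)) :
      V ⊕ St l → V ⊕ Option (ℕ × Bool)) :=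
    Function.injective_id.sumMap (Option.map_injective
      (Fin.val_injective.prodMap Function.injective_id))
  rcases w with _ | ⟨j, c⟩
  · refine (sum_le_code _ _ id _ hc [Sum.inr (some (0, true)), Sum.inr (some (0, false))]
      ?_).trans (by simp)
    rintro (x | _ | ⟨i, c⟩) h <;> simp [extG, SimpleGraph.fromRel_adj, extRel] at h ⊢
    cases c <;> simp [h]
  · refine sum_le_code _ _ id _ hc
      [if j.val = l + 1 then Sum.inl (if c then t1 else t0) else Sum.inr (some (j.val + 1, c)),
        if j.val = 0 then Sum.inr none else Sum.inr (some (j.val - 1, c)),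
        Sum.inr (some (j.val, !c))] ?_
    rintro (x | _ | ⟨i, c'⟩) h <;> simp [extG, SimpleGraph.fromRel_adj, extRel] at h
    · simp [h.1, h.2]
    · simp [h]
    · obtain ⟨-, h⟩ := h
      have hi := i.isLt
      have hj := j.isLt
      by_cases e1 : j.val = l + 1 <;> by_cases e2 : j.val = 0 <;>
        first | rw [if_pos e1, if_pos e2] | rw [if_pos e1, if_neg e2] | rw [if_neg e1, if_pos e2] |
          rw [if_neg e1, if_neg e2]
      all_goals cases c <;> cases c' <;> simp at h ⊢ <;> omega

/-- Neighbours in the gadget. -/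
def nb : Fin 7 → List (Fin 7) := ![[1, 2, 4], [0, 4], [0, 5], [5, 6], [0, 1, 6], [2, 3, 6], [3, 4, 5]]

theorem nb_len (a : Fin 7) : (nb a).length ≤ 3 := by revert a; decide

theorem nb_mem (a b : Fin 7) (h : gam a b ∨ gam b a) : b ∈ nb a := by
  revert a b
  unfold gam
  decide

theorem core_a4 {N k : ℕ} (G : SimpleGraph (Fin (N + k))) (w) :
    ∑ y, am (coreG G) (Sum.inr w) y ≤ ((4 : ℕ) : ℤ) := by
  rcases w with ⟨x, a⟩ | j
  · refine (sum_le_code _ _ id id Function.injective_id
      (Sum.inl x :: (nb a).map fun b : Fin 7 => Sum.inr (Sum.inl (x, b))) ?_).trans ?_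
    · rintro (y | ⟨y, b⟩ | j) h <;> simp only [coreG, SimpleGraph.fromRel_adj, coreRel, id] at h
      · simp_all
      · have : y = x := by tauto
        subst this
        exact List.mem_cons_of_mem _ (List.mem_map.2 ⟨b, nb_mem a b (by tauto), rfl⟩)
      · simp at h
    · have := nb_len a
      simp only [List.length_cons, List.length_map]
      exact_mod_cast (by omega)
  · refine (sum_le_code _ _ id (Sum.map Fin.val id) (Fin.val_injective.sumMap Function.injective_id)
      [Sum.inl N, Sum.inl (N + 1), Sum.inl (N + j.val - 1)] ?_).trans (by simp)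
    rintro (y | ⟨y, b⟩ | j) h <;> simp [coreG, SimpleGraph.fromRel_adj, coreRel] at h ⊢
    omega

open Classical in
theorem card_le_code {U α : Type} [Fintype U] (p : U → Prop) (c : U → α)
    (hc : Function.Injective c) (T : Finset α) (h : ∀ u, p u → c u ∈ T) :
    (univ.filter p).card ≤ T.card :=
  card_le_card_of_injOn c (fun u hu => by simpa using h u (by simpa using hu)) hc.injOn

theorem anc_deg (G : SimpleGraph V) (ρ : V) (tw k : ℕ) :
    DegSum (ancG G ρ tw k) (2 * (ed G + (tw * (tw + 1) + k))) := by
  classical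
  refine (degSum_fromRel (ancRel G ρ tw k)
    (Sum.elim (dg G) (Sum.elim (fun _ => tw + 1) fun _ => 1)) ?_).mono ?_
  · rintro (x | s | i)
    · refine (card_le_code _ id Function.injective_id
        ((univ.filter fun y => G.Adj x y).image Sum.inl) ?_).trans Finset.card_image_le
      rintro (y | u | j) h <;> simp only [ancRel] at h
      exact Finset.mem_image.2 ⟨y, by simpa using h, rfl⟩
    · refine (card_le_code _ (Sum.map id (Sum.map id Fin.val))
        (Function.injective_id.sumMap (Function.injective_id.sumMap Fin.val_injective))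
        (insert (Sum.inr (Sum.inr 0)) (univ.image fun u => Sum.inr (Sum.inl u))) ?_).trans
        ((Finset.card_insert_le _ _).trans (Nat.add_le_add_right
          (Finset.card_image_le.trans (by simp)) 1))
      rintro (y | u | j) h <;> simp only [ancRel] at h
      · simp
      · simp [h]
    · refine Finset.card_le_one.2 ?_
      intro y hy y' hy'
      replace hy := (Finset.mem_filter.1 hy).2
      replace hy' := (Finset.mem_filter.1 hy').2
      rcases y with y | u | j <;> rcases y' with y' | u' | j' <;> simp only [ancRel] at hy hy'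
      · rw [hy.2, hy'.2]
      · have := j'.isLt
        omega
      · have := j.isLt
        omega
      · rw [Fin.ext (hy.trans hy'.symm)]
  · simp only [Fintype.sum_sum_type, Sum.elim_inl, Sum.elim_inr, Finset.sum_const, card_univ,
      Fintype.card_fin, smul_eq_mul, mul_one]
    exact le_refl _

end DegsAux

open DegsAux in
theorem pDegs : StDegs := by
  refine ⟨fun N k D G hD => ⟨?_, ?_⟩, fun V _ _ G t0 t1 l D hD => ⟨?_, ?_⟩,
    fun V _ _ G ρ tw k => ?_⟩
  · exact (maxDeg_iff _ _).1 ((maxDeg_sum (Main.core_adj G) (core_a4 G) (core_b G)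
      ((maxDeg_iff _ _).2 hD)).mono (by omega))
  · refine (degSum_iff _ _).1 ((degSum_sum' (Main.core_adj G) (core_a4 G)
      ((degSum_iff _ _).2 le_rfl)).mono ?_)
    simp only [Fintype.card_sum]
    omega
  · exact (maxDeg_iff _ _).1 ((maxDeg_sum (Main.ext_adj G t0 t1 l) (ext_a3 G t0 t1 l)
      (ext_b G t0 t1 l) ((maxDeg_iff _ _).2 hD)).mono (by omega))
  · exact (degSum_iff _ _).1 ((degSum_sum' (Main.ext_adj G t0 t1 l) (ext_a3 G t0 t1 l)
      ((degSum_iff _ _).2 le_rfl)).mono (by omega))
  · have := (anc_deg G ρ tw k).ncard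
    nlinarith

end Pool.Agent.P.MP_f57657_co.SZ
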