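import Pool.Agent.P.MP_f57657_co.SZ.Defs

/-! Pendant paths at the roots. -/

open Matrix Finset

namespace Pool.Agent.P.MP_f57657_co.SZ

open SX SY

namespace InitAux

variable {W ι : Type} (H : SimpleGraph W) (t : ι → W) (s : ℕ)

theorem adj_ll (x y : W) : (initG H t s).Adj (Sum.inl x) (Sum.inl y) ↔ H.Adj x y := by
  simp only [initG, SimpleGraph.fromRel_adj, initRel, ne_eq, Sum.inl.injEq]
  constructor
  · rintro ⟨_, h | h⟩
    · exact h
    · exact h.symm
  · intro h
    exact ⟨h.ne, Or.inl h⟩

theorem adj_rl (u : ι × Fin s) (x : W) :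
    (initG H t s).Adj (Sum.inr u) (Sum.inl x) ↔ u.2.val + 1 = s ∧ x = t u.1 := by
  simp [initG, SimpleGraph.fromRel_adj, initRel]

theorem adj_rr (u v : ι × Fin s) :
    (initG H t s).Adj (Sum.inr u) (Sum.inr v) ↔
      u.1 = v.1 ∧ (v.2.val = u.2.val + 1 ∨ u.2.val = v.2.val + 1) := by
  simp only [initG, SimpleGraph.fromRel_adj, initRel, ne_eq, Sum.inr.injEq]
  constructor
  · rintro ⟨_, h | h⟩
    · exact ⟨h.1, Or.inl h.2⟩
    · exact ⟨h.1.symm, Or.inr h.2⟩
  · rintro ⟨h1, h | h⟩
    · refine ⟨fun e => ?_, Or.inl ⟨h1, h⟩⟩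
      rw [e] at h
      omega
    · refine ⟨fun e => ?_, Or.inr ⟨h1.symm, h⟩⟩
      rw [e] at h
      omega

theorem p_lt (i : ι) {j : ℕ} (h : j < s) : initP t s i j = Sum.inr (i, ⟨j, h⟩) := by
  simp only [initP, h, dif_pos]

theorem p_ge (i : ι) {j : ℕ} (h : ¬ j < s) : initP t s i j = Sum.inl (t i) := by
  simp only [initP, h, dif_neg, not_false_eq_true]

theorem nbr (i : ι) (j : ℕ) (hj : j < s) (y : W ⊕ ι × Fin s) :
    (initG H t s).Adj (initP t s i j) y ↔
      y = initP t s i (j + 1) ∨ (1 ≤ j ∧ y = initP t s i (j - 1)) := by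
  have h1 : j - 1 < s := by omega
  rw [p_lt t s i hj, p_lt t s i h1]
  rcases y with x | ⟨i', l, hl⟩
  · rw [adj_rl]
    by_cases h : j + 1 < s
    · rw [p_lt t s i h]
      simp only [reduceCtorEq, and_false, or_false, iff_false, not_and]
      intro e
      omega
    · rw [p_ge t s i h]
      simp only [Sum.inl.injEq, reduceCtorEq, and_false, or_false, and_iff_right_iff_imp]
      intro _
      omega
  · rw [adj_rr]
    by_cases h : j + 1 < s
    · rw [p_lt t s i h]
      simp only [Sum.inr.injEq, Prod.mk.injEq, Fin.mk.injEq]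
      constructor
      · rintro ⟨e, h2 | h2⟩
        · exact Or.inl ⟨e.symm, h2⟩
        · exact Or.inr ⟨by omega, e.symm, by omega⟩
      · rintro (⟨e, h2⟩ | ⟨h3, e, h2⟩)
        · exact ⟨e.symm, Or.inl h2⟩
        · exact ⟨e.symm, Or.inr (by omega)⟩
    · rw [p_ge t s i h]
      simp only [Sum.inr.injEq, Prod.mk.injEq, Fin.mk.injEq, reduceCtorEq, false_or]
      constructor
      · rintro ⟨e, h2 | h2⟩
        · omega
        · exact ⟨by omega, e.symm, by omega⟩
      · rintro ⟨h3, e, h2⟩
        exact ⟨e.symm, Or.inr (by omega)⟩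

/-- Zero forcing. -/
theorem force {V F : Type} [Fintype V] [Field F] (G : SimpleGraph V) (θ : F) (f : V → F)
    (x z : V) (h : ∑ y, ((am G x y : ℤ) : F) * f y = θ * f x) (hx : f x = 0) (hz : G.Adj x z)
    (ho : ∀ y, G.Adj x y → y = z ∨ f y = 0) : f z = 0 := by
  rw [Finset.sum_eq_single z, hx, mul_zero] at h
  · simpa [am, hz] using h
  · intro y _ hy
    by_cases ha : G.Adj x y
    · rcases ho y ha with e | e
      · exact absurd e hy
      · rw [e, mul_zero]
    · simp [am, ha]
  · intro hn
    exact absurd (Finset.mem_univ z) hn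

end InitAux

open InitAux in
theorem pInit : StInit := by
  intro W _ _ ι _ _ H t s hs
  refine ⟨⟨?_, fun i j y hj => nbr H t s i j (by omega) y⟩, ?_, adj_ll H t s, ?_⟩
  · intro i i' j j' hj hj' e
    rw [p_lt t s i hj, p_lt t s i' hj'] at e
    simpa using e
  · intro F _ hC θ f hf h0
    have hz : ∀ i j, j ≤ s → f (initP t s i j) = 0 := by
      intro i j
      induction j using Nat.strong_induction_on with
      | _ j ih =>
        intro hj
        rcases j with _ | j
        · exact h0 i
        · refine force (initG H t s) θ f (initP t s i j) _ (hf.1 _) (ih j (by omega) (by omega))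
            ((nbr H t s i j (by omega) _).2 (Or.inl rfl)) fun y hy => ?_
          rcases (nbr H t s i j (by omega) y).1 hy with e | ⟨_, e⟩
          · exact Or.inl e
          · right
            rw [e]
            exact ih (j - 1) (by omega) (by omega)
    have hr : ∀ u : ι × Fin s, f (Sum.inr u) = 0 := by
      intro u
      have := hz u.1 u.2.val u.2.isLt.le
      rwa [p_lt t s u.1 u.2.isLt] at this
    have hl : (fun x => f (Sum.inl x)) = 0 := by
      refine hC θ _ ⟨fun x => ?_, fun i hi => absurd hi (Nat.not_lt_zero i)⟩ fun i => ?_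
      · have := hf.1 (Sum.inl x)
        rw [Fintype.sum_sum_type] at this
        simp only [hr, mul_zero, Finset.sum_const_zero, add_zero] at this
        rw [← this]
        refine Finset.sum_congr rfl fun y _ => ?_
        by_cases ha : H.Adj x y
        · simp [am, ha, (adj_ll H t s x y).2 ha]
        · simp [am, ha, mt (adj_ll H t s x y).1 ha]
      · have := hz i s le_rfl
        rwa [p_ge t s i (lt_irrefl s)] at this
    funext v
    rcases v with x | u
    · exact congrFun hl x
    · exact hr u
  · intro x y hy ha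
    rcases y with y | u
    · exact absurd ⟨y, rfl⟩ hy
    · exact ⟨u.1, ((adj_rl H t s u x).1 ha.symm).2.symm⟩

end Pool.Agent.P.MP_f57657_co.SZ
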