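import Pool.Agent.P.MP_f57657_co.SZ.Defs

/-! Iteration of the steps and of the rounds of rows. -/

open Matrix Finset

namespace Pool.Agent.P.MP_f57657_co.SZ

open SX SY

namespace IterAux

/-- arithmetic of a double step -/
theorem dbl {d0 d1 d2 m : ℕ} {c1 c2 : Prop} (hc : c1 ∨ c2) (a1 : d1 ≤ d0 + 1) (a2 : d2 ≤ d1 + 1)
    (b1 : m ≤ d0 → d1 ≤ d0 ∧ (c1 → d1 + 1 ≤ d0)) (b2 : m ≤ d1 → d2 ≤ d1 ∧ (c2 → d2 + 1 ≤ d1))
    (k : ℕ) (h : d0 ≤ m + (k + 1)) : d2 ≤ m + k := by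
  by_cases h1 : m ≤ d1
  · obtain ⟨e1, e2⟩ := b2 h1
    by_cases h0 : m ≤ d0
    · obtain ⟨e3, e4⟩ := b1 h0
      rcases hc with hc | hc
      · have := e4 hc
        omega
      · have := e2 hc
        omega
    · omega
  · omega

section

variable {W : Type} [Fintype W] [DecidableEq W]

theorem real_step (hN : StNul) (H : SimpleGraph W) (b : W → Bool) (m L : ℕ)
    (h : Hit H noR 0 m m (fun _ => b) 1) (θ : ℝ) (hm : m ≤ dm ℝ H θ noR 0) :
    dm ℝ (stepG H b L) θ noR 0 ≤ dm ℝ H θ noR 0 ∧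
      (cheb θ L ≠ 0 → dm ℝ (stepG H b L) θ noR 0 + 1 ≤ dm ℝ H θ noR 0) := by
  obtain ⟨_, _, hf⟩ := h.1 θ hm
  exact ((hN ℝ θ).2 W H b L).2 hf

theorem prime_step (hN : StNul) (H : SimpleGraph W) (b : W → Bool) (m L : ℕ)
    (h : Hit H noR 0 m m (fun _ => b) 1) (hR : RB H noR 0 m) (q : Pt)
    (hm : m + 1 ≤ dm (FF q.1) H q.2 noR 0) :
    dm (FF q.1) (stepG H b L) q.2 noR 0 ≤ dm (FF q.1) H q.2 noR 0 ∧
      (cheb q.2 L ≠ 0 → dm (FF q.1) (stepG H b L) q.2 noR 0 + 1 ≤ dm (FF q.1) H q.2 noR 0) := by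
  obtain ⟨_, _, hf⟩ := h.2 hR q (by omega) (by omega)
  exact ((hN (FF q.1) q.2).2 W H b L).2 hf

theorem real_keep (hN : StNul) (H : SimpleGraph W) (b : W → Bool) (m L : ℕ)
    (h : Hit H noR 0 m m (fun _ => b) 1) (hR : RB H noR 0 m) : RB (stepG H b L) noR 0 m := by
  intro θ
  have h0 := hR θ
  have h1 := ((hN ℝ θ).2 W H b L).1
  by_cases hm : m ≤ dm ℝ H θ noR 0
  · have := (real_step hN H b m L h θ hm).1
    omega
  · omega

theorem sol_le (F : Type) [Field F] (H : SimpleGraph W) (θ : F) (R b : ℕ → W → Bool) (j e : ℕ) :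
    Sol F H θ (fun i => if i < j then R i else b (i - j)) (j + e) ≤ Sol F H θ R j := by
  intro f hf
  refine ⟨hf.1, fun i hi => ?_⟩
  have := hf.2 i (by omega)
  simpa only [if_pos hi] using this

theorem dm_le (F : Type) [Field F] (H : SimpleGraph W) (θ : F) (R b : ℕ → W → Bool) (j e : ℕ) :
    dm F H θ (fun i => if i < j then R i else b (i - j)) (j + e) ≤ dm F H θ R j :=
  Submodule.finrank_mono (sol_le F H θ R b j e)

theorem dm_lt (F : Type) [Field F] (H : SimpleGraph W) (θ : F) (R b : ℕ → W → Bool) (j e : ℕ)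
    (h : ∃ i, i < e ∧ ∃ f ∈ Sol F H θ R j, dotW (b i) f ≠ 0) :
    dm F H θ (fun i => if i < j then R i else b (i - j)) (j + e) < dm F H θ R j := by
  obtain ⟨i, hi, f, hf, hne⟩ := h
  refine Submodule.finrank_lt_finrank_of_lt (lt_of_le_of_ne (sol_le F H θ R b j e) fun heq => ?_)
  rw [← heq] at hf
  have := hf.2 (j + i) (by omega)
  simp only [if_neg (show ¬ j + i < j by omega), Nat.add_sub_cancel_left] at this
  exact hne this

end

theorem multi (hN : StNul) (W0 J : Type)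
    (C : J → ℕ → ∀ (W : Type) [Fintype W] [DecidableEq W], (W0 → W) → SimpleGraph W → Prop)
    (m L : ℕ)
    (hS : ∀ (a : J) (i : ℕ) (W : Type) [Fintype W] [DecidableEq W] (e : W0 → W)
      (H : SimpleGraph W), C a (i + 1) W e H → ∃ b : W → Bool, Hit H noR 0 m m (fun _ => b) 1 ∧
        C a i (W ⊕ Fin (L + 1)) (Sum.inl ∘ e) (stepG H b L) ∧
        C a i (W ⊕ Fin (L + 1 + 1)) (Sum.inl ∘ e) (stepG H b (L + 1))) (k : ℕ) :
    ∀ (W : Type) [Fintype W] [DecidableEq W] (e : W0 → W), Function.Injective e →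
      ∃ (W' : Type) (_ : Fintype W') (_ : DecidableEq W') (e' : W0 → W'), Function.Injective e' ∧
        Fintype.card W' = Fintype.card W + k * (2 * L + 3) ∧
        ∀ (a : J) (i : ℕ) (H : SimpleGraph W), C a (i + 2 * k) W e H →
          ∃ H' : SimpleGraph W', C a i W' e' H' ∧ (RB H noR 0 (m + k) → RB H' noR 0 m) ∧
            (RB H noR 0 m → PB H noR 0 (m + 1 + k) → PB H' noR 0 (m + 1)) := by
  induction k with
  | zero =>
    intro W _ _ e he
    exact ⟨W, inferInstance, inferInstance, e, he, by simp, fun a i H h =>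
      ⟨H, h, fun h1 => h1, fun _ h2 => h2⟩⟩
  | succ k ih =>
    intro W _ _ e he
    obtain ⟨W', i1, i2, e', he', hc, hW⟩ := ih ((W ⊕ Fin (L + 1)) ⊕ Fin (L + 1 + 1))
      (Sum.inl ∘ (Sum.inl ∘ e)) (Sum.inl_injective.comp (Sum.inl_injective.comp he))
    refine ⟨W', i1, i2, e', he', ?_, fun a i H h => ?_⟩
    · rw [hc]
      simp only [Fintype.card_sum, Fintype.card_fin]
      ring
    · obtain ⟨b1, hit1, c1, -⟩ := hS a (i + 2 * k + 1) W e H h
      obtain ⟨b2, hit2, -, c2⟩ := hS a (i + 2 * k) _ _ _ c1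
      obtain ⟨H', hC, hr, hp⟩ := hW a i _ c2
      refine ⟨H', hC, fun h1 => hr fun θ => ?_, fun h1 h2 => hp ?_ fun q => ?_⟩
      · exact dbl ((hN ℝ θ).1 L) ((hN ℝ θ).2 _ H b1 L).1 ((hN ℝ θ).2 _ _ b2 (L + 1)).1
          (real_step hN H b1 m L hit1 θ) (real_step hN _ b2 m (L + 1) hit2 θ) k (h1 θ)
      · exact real_keep hN _ b2 m (L + 1) hit2 (real_keep hN H b1 m L hit1 h1)
      · exact dbl ((hN (FF q.1) q.2).1 L) ((hN (FF q.1) q.2).2 _ H b1 L).1
          ((hN (FF q.1) q.2).2 _ _ b2 (L + 1)).1 (prime_step hN H b1 m L hit1 h1 q)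
          (prime_step hN _ b2 m (L + 1) hit2 (real_keep hN H b1 m L hit1 h1) q) k (h2 q)

end IterAux

open IterAux

theorem pIter (hN : StNul) : StIter := by
  intro W0 J C m L x y hS hP W _ _ e he
  obtain ⟨W1, i1, i2, e1, he1, hc1, h1⟩ := multi hN W0 J C m L hS x W e he
  obtain ⟨W2, j1, j2, e2, he2, hc2, h2⟩ := multi hN W0 J C m L hS y W1 e1 he1
  refine ⟨W2, j1, j2, e2, he2, ?_, fun a H hC hR => ?_⟩
  · rw [hc2, hc1]
    ring
  · obtain ⟨H1, c1, r1, -⟩ := h1 a (2 * y) H (by rwa [Nat.add_comm])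
    have r2 : RB H1 noR 0 m := r1 fun θ => (hR θ).trans (by omega)
    obtain ⟨H2, c2, r3, p3⟩ := h2 a 0 H1 (by rwa [Nat.zero_add])
    exact ⟨H2, c2, r3 fun θ => (r2 θ).trans (by omega),
      p3 r2 fun q => (hP a W1 e1 H1 c1 q).trans (by omega)⟩

theorem pRoots : StRoots := by
  intro W _ _ H Gd m e h0 hR hr hp
  have key : ∀ s, s ≤ 2 * m + 1 → ∃ R : ℕ → W → Bool, (∀ i, Gd (R i)) ∧ RB H R (s * e) (m - s) ∧
      PB H R (s * e) (2 * m + 1 - s) := by
    intro s
    induction s with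
    | zero =>
      intro _
      rw [Nat.zero_mul]
      exact ⟨noR, fun _ => h0, hr, fun q => (hp q).trans (by omega)⟩
    | succ s ih =>
      intro hs
      obtain ⟨R, g, r, p2⟩ := ih (by omega)
      obtain ⟨b, hit, gb⟩ := hR R (s * e) (m - s) (Nat.mul_le_mul_right e (by omega))
      rw [Nat.succ_mul]
      refine ⟨fun i => if i < s * e then R i else b (i - s * e), fun i => ?_, fun θ => ?_,
        fun q => ?_⟩
      · by_cases hi : i < s * e
        · simpa only [if_pos hi] using g i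
        · simpa only [if_neg hi] using gb _
      · have a1 := r θ
        have a2 := dm_le ℝ H θ R b (s * e) e
        by_cases h1 : 1 ≤ dm ℝ H θ R (s * e)
        · have := dm_lt ℝ H θ R b (s * e) e (hit.1 θ h1)
          omega
        · omega
      · have a3 := p2 q
        have a2 := dm_le _ H q.2 R b (s * e) e
        by_cases h1 : m - s < dm (FF q.1) H q.2 R (s * e)
        · have := dm_lt _ H q.2 R b (s * e) e (hit.2 r q (by omega) h1)
          omega
        · omega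
  obtain ⟨R, g, r, p⟩ := key (2 * m + 1) le_rfl
  refine ⟨R, g, fun θ => (r θ).trans (by omega), fun q => (p q).trans (by omega)⟩

end Pool.Agent.P.MP_f57657_co.SZ
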