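import Pool.Agent.P.MP_f57657_co.SZ.Defs

/-! A Littlewood-Offord bound in abelian groups, for blocks that generate large subgroups. -/

open Matrix Finset

namespace Pool.Agent.P.MP_f57657_co.SZ

open SX SY

namespace LO2Aux

open scoped Classical

variable {A : Type} [AddCommGroup A] {J : Type} (u : J → A)

theorem summ {ν : A → ℝ} (h : (Function.support ν).Finite) (x : A) (g : ℝ → ℝ → ℝ)
    (hg : g 0 0 = 0) : Summable fun y => g (ν y) (ν (y - x)) := by
  refine summable_of_hasFiniteSupport ((h.union (h.preimage (f := fun y => y - x)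
    sub_left_injective.injOn)).subset fun y hy => ?_)
  by_contra hn
  simp only [Set.mem_union, Set.mem_preimage, Function.mem_support, not_or, not_not] at hn
  exact hy (by simp only [hn.1, hn.2, hg])

theorem en_step {ν : A → ℝ} (hf : (Function.support ν).Finite) (x y0 : A) :
    ∑' y, ((ν y + ν (y - x)) / 2) ^ 2 ≤ ∑' y, ν y ^ 2 - (ν y0 - ν (y0 - x)) ^ 2 / 4 := by
  have s1 : Summable fun y => ν y ^ 2 := summ hf x (fun a _ => a ^ 2) (by norm_num)
  have s2 : Summable fun y => ν (y - x) ^ 2 := summ hf x (fun _ b => b ^ 2) (by norm_num)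
  have s3 : Summable fun y => (ν y - ν (y - x)) ^ 2 :=
    summ hf x (fun a b => (a - b) ^ 2) (by norm_num)
  have e : ∀ y, ((ν y + ν (y - x)) / 2) ^ 2 =
      (ν y ^ 2 + ν (y - x) ^ 2) / 2 - (ν y - ν (y - x)) ^ 2 / 4 := fun y => by ring
  have e2 : ∑' y, ν (y - x) ^ 2 = ∑' y, ν y ^ 2 := (Equiv.subRight x).tsum_eq fun y => ν y ^ 2
  simp only [e]
  rw [((s1.add s2).div_const 2).tsum_sub (s3.div_const 4), tsum_div_const, tsum_div_const,
    s1.tsum_add s2, e2]
  linarith [s3.le_tsum y0 fun _ _ => sq_nonneg _]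

/-- The law of the random subset sum over `T`. -/
noncomputable def law (T : Finset J) (y : A) : ℝ :=
  (∑ s ∈ T.powerset, if ∑ j ∈ s, u j = y then 1 else 0) / 2 ^ T.card

theorem law_insert [DecidableEq J] {T : Finset J} {j : J} (h : j ∉ T) (y : A) :
    law u (insert j T) y = (law u T y + law u T (y - u j)) / 2 := by
  rw [law, law, law, sum_powerset_insert h, card_insert_of_notMem h, pow_succ, ← add_div, div_div]
  congr 2
  refine sum_congr rfl fun s hs => ?_
  rw [sum_insert fun e => h (mem_powerset.1 hs e)]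
  simp only [eq_sub_iff_add_eq']

theorem law_fin (T : Finset J) : (Function.support (law u T)).Finite := by
  refine (T.powerset.image fun s => ∑ j ∈ s, u j).finite_toSet.subset fun y hy => ?_
  by_contra hn
  refine hy ?_
  rw [law, sum_eq_zero fun s hs => if_neg fun e => hn (mem_image.2 ⟨s, hs, e⟩), zero_div]

theorem mass (T : Finset J) (Y : Finset A) : ∑ y ∈ Y, law u T y ≤ 1 := by
  simp only [law]
  rw [← sum_div, sum_comm, div_le_one (by positivity)]
  refine (sum_le_card_nsmul _ _ 1 fun s _ => ?_).trans (by simp)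
  rw [sum_ite_eq]
  split_ifs <;> norm_num

/-- The energy. -/
noncomputable def en (T : Finset J) : ℝ := ∑' y, law u T y ^ 2

theorem en_insert [DecidableEq J] {T : Finset J} {j : J} (h : j ∉ T) (y : A) :
    en u (insert j T) ≤ en u T - (law u T y - law u T (y - u j)) ^ 2 / 4 := by
  simp only [en, law_insert u h]
  exact en_step (law_fin u T) _ _

theorem mono [DecidableEq J] {T T' : Finset J} (h : T ⊆ T') (ρ : ℝ) :
    en u T' ≤ en u T ∧ ((∃ y, ρ < law u T' y) → ∃ y, ρ < law u T y) := by
  rw [← union_eq_right.2 h]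
  clear h
  induction T' using Finset.induction_on with
  | empty => simp
  | insert j D _ ih =>
    rw [union_insert]
    by_cases e : j ∈ T ∪ D
    · rwa [insert_eq_of_mem e]
    refine ⟨((en_insert u e 0).trans (sub_le_self _ (by positivity))).trans ih.1,
      fun ⟨y, hy⟩ => ih.2 ?_⟩
    rw [law_insert u e] at hy
    by_contra hn
    push Not at hn
    linarith [hn y, hn (y - u j)]

/-- Almost periods: many of them are reached in few steps. -/
theorem reach {μ : A → ℝ} {η : ℝ} (h0 : 0 ≤ η) {B : Set A}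
    (h : ∀ x ∈ B, ∀ y, |μ y - μ (y - x)| ≤ η) (k : ℕ) :
    (∀ v ∈ AddSubgroup.closure B, ∀ y, |μ y - μ (y - v)| ≤ k * η) ∨
      ∃ F : Finset A, F.card = k + 1 ∧ ∀ v ∈ F, ∀ y, |μ y - μ (y - v)| ≤ k * η := by
  induction k with
  | zero => exact .inr ⟨{0}, rfl, by simp⟩
  | succ k ih =>
    have up : ∀ {a : ℝ}, a ≤ k * η → a ≤ (k + 1 : ℕ) * η := fun e => by push_cast; linarith
    rcases ih with ih | ⟨F, a, b⟩
    · exact .inl fun v hv y => up (ih v hv y)
    by_cases e : ∀ v, (∀ y, |μ y - μ (y - v)| ≤ (k + 1 : ℕ) * η) → ∀ y, |μ y - μ (y - v)| ≤ k * η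
    · refine .inl fun v hv y => up ?_
      revert y
      induction hv using AddSubgroup.closure_induction_left with
      | zero => simpa using fun _ : A => mul_nonneg k.cast_nonneg h0
      | add_left x hx v _ ih =>
        refine e _ fun y => (abs_sub_le _ (μ (y - x)) _).trans ?_
        have := ih (y - x)
        rw [sub_sub] at this
        push_cast
        linarith [h x hx y]
      | neg_add_cancel x hx v _ ih =>
        refine e _ fun y => (abs_sub_le _ (μ (y + x)) _).trans ?_
        have h1 := ih (y + x)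
        have h2 := h x hx (y + x)
        rw [add_sub_cancel_right, abs_sub_comm] at h2
        rw [show y - (-x + v) = y + x - v by abel]
        push_cast
        linarith
    · push Not at e
      obtain ⟨v, c, y, d⟩ := e
      refine .inr ⟨insert v F, by rw [card_insert_of_notMem fun e => (b v e y).not_gt d, a],
        fun x hx => ?_⟩
      rcases mem_insert.1 hx with rfl | hx
      exacts [c, fun y => up (b x hx y)]

theorem drop {r : ℕ} (hr : 1 ≤ r) (T : Finset J) {B : Set A} {S : Finset A}
    (hS : 2 * r + 1 ≤ S.card) (hB : ∀ x ∈ S, x ∈ AddSubgroup.closure B) {y0 : A}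
    (hy : 1 / (r : ℝ) < law u T y0) :
    ∃ x ∈ B, ∃ y, 1 / (4 * (r : ℝ) ^ 2) < |law u T y - law u T (y - x)| := by
  by_contra hn
  push Not at hn
  have r0 : (0 : ℝ) < r := by exact_mod_cast hr
  obtain ⟨F, a, b⟩ : ∃ F : Finset A, 2 * r + 1 ≤ F.card ∧ ∀ v ∈ F, ∀ y,
      |law u T y - law u T (y - v)| ≤ (2 * r : ℕ) * (1 / (4 * (r : ℝ) ^ 2)) :=
    (reach (by positivity) hn (2 * r)).elim (fun h => ⟨S, hS, fun v hv => h v (hB v hv)⟩)
      fun ⟨F, a, b⟩ => ⟨F, a.ge, b⟩
  have h1 := mass u T (F.image fun v => y0 - v)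
  rw [sum_image fun _ _ _ _ e => sub_right_injective e] at h1
  have e1 : ((2 * r : ℕ) : ℝ) * (1 / (4 * (r : ℝ) ^ 2)) = 1 / (2 * r) := by
    push_cast; field_simp; norm_num
  have e2 : 1 / (r : ℝ) = 1 / (2 * r) + 1 / (2 * r) := by field_simp; norm_num
  have h2 := (card_nsmul_le_sum F _ (1 / (2 * (r : ℝ))) fun v hv => by
    linarith [(abs_le.1 (b v hv y0)).2]).trans h1
  have h3 : (2 * r + 1 : ℝ) ≤ F.card := by exact_mod_cast a
  rw [nsmul_eq_mul, mul_one_div, div_le_one (by positivity)] at h2
  linarith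

theorem pr_eq {w : ℕ} (u : Fin w → A) (c : A) :
    pr (fun a : Fin w → Bool => (∑ j, if a j = true then u j else 0) = c) = law u univ c := by
  rw [pr, law, sum_boole, Fintype.card_fun, Fintype.card_bool, card_univ, Nat.cast_pow,
    Nat.cast_ofNat]
  congr 2
  refine card_nbij' (fun a => univ.filter fun j => a j = true) (fun s j => decide (j ∈ s))
    (fun a ha => ?_) (fun s hs => ?_) (fun a _ => ?_) fun s _ => ?_
  · simpa [sum_filter] using ha
  · simpa using hs
  · simp
  · simp

end LO2Aux

open LO2Aux in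
theorem pLO2 : StLO2 := by
  intro A _ w r u blk hr hb c
  rw [pr_eq]
  by_contra hn
  have r0 : (0 : ℝ) < r := by exact_mod_cast hr
  have key : ∀ i : ℕ, i ≤ 64 * r ^ 4 + 1 →
      en u (univ.filter fun j => blk j < i) ≤ 1 - i / (64 * (r : ℝ) ^ 4) := fun i => by
    induction i with
    | zero => simp [en, law, -sum_boole]
    | succ i ih =>
      intro hi
      obtain ⟨S, h1, h2⟩ := hb i hi
      obtain ⟨y0, hy⟩ := (mono u (subset_univ (univ.filter fun j => blk j < i)) _).2
        ⟨c, not_le.1 hn⟩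
      obtain ⟨_, ⟨j, hj, rfl⟩, y, h3⟩ := drop u hr _ h1 h2 hy
      have hj' : blk j = i := hj
      have h4 := en_insert u (T := univ.filter fun j => blk j < i) (j := j) (by simp [hj']) y
      have h5 := (mono u (T := insert j (univ.filter fun j => blk j < i))
        (T' := univ.filter fun j => blk j < i + 1) (fun x hx => by
          rcases mem_insert.1 hx with rfl | hx
          · simp [hj']
          · simpa using (mem_filter.1 hx).2.le) 0).1
      have h6 := pow_le_pow_left₀ (by positivity) h3.le 2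
      have e : ((i + 1 : ℕ) : ℝ) / (64 * (r : ℝ) ^ 4) =
          i / (64 * (r : ℝ) ^ 4) + (1 / (4 * (r : ℝ) ^ 2)) ^ 2 / 4 := by
        push_cast; field_simp; ring
      rw [sq_abs] at h6
      linarith [ih (by omega)]
  have h1 := (tsum_nonneg fun _ => sq_nonneg _).trans (key _ le_rfl)
  rw [sub_nonneg, div_le_one (by positivity)] at h1
  push_cast at h1
  linarith

end Pool.Agent.P.MP_f57657_co.SZ
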