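import Pool.Agent.P.MP_f57657_co.SZ.Defs

/-! Degrees and the degree sum under a local extension of a graph. -/

open Matrix Finset

namespace Pool.Agent.P.MP_f57657_co.SZ

open SX SY

namespace LocAux

variable {W W' ι : Type} [Fintype W] [DecidableEq W] [Fintype W'] [DecidableEq W'] [Fintype ι]

open Classical in
/-- The new vertices. -/
noncomputable def nw (e : W → W') : Finset W' := univ.filter fun y => y ∉ Set.range e

open Classical in
/-- The number of new neighbours of a vertex. -/
noncomputable def ex (e : W → W') (H' : SimpleGraph W') (z : W') : ℕ :=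
  ((nw e).filter fun y => H'.Adj z y).card

omit [DecidableEq W] in
theorem mem_nw (e : W → W') (y : W') : y ∈ nw e ↔ y ∉ Set.range e := by
  simp [nw]

omit [DecidableEq W] in
theorem nw_eq (e : W → W') : nw e = univ \ univ.image e := by
  ext y
  simp [mem_nw]

omit [DecidableEq W] in
theorem sum_split (e : W → W') (he : Function.Injective e) (f : W' → ℕ) :
    ∑ y, f y = ∑ x, f (e x) + ∑ y ∈ nw e, f y := by
  rw [nw_eq, ← Finset.sum_image (s := univ) (g := e) (f := f) (fun a _ b _ h => he h), add_comm,
    Finset.sum_sdiff (Finset.subset_univ _)]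

omit [DecidableEq W] in
theorem card_nw (e : W → W') (he : Function.Injective e) (M : ℕ)
    (hM : Fintype.card W' ≤ Fintype.card W + M) : (nw e).card ≤ M := by
  have h := sum_split e he (fun _ => 1)
  simp only [Finset.sum_const, smul_eq_mul, mul_one, Finset.card_univ] at h
  omega

theorem dg_eq (e : W → W') (he : Function.Injective e) (H : SimpleGraph W) (H' : SimpleGraph W')
    (hs : Sub e H H') (x : W) : dg H' (e x) = dg H x + ex e H' (e x) := by
  classical
  unfold dg ex
  rw [Finset.card_filter, Finset.card_filter, Finset.card_filter, sum_split e he]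
  congr 1
  refine Finset.sum_congr rfl fun y _ => ?_
  by_cases h : H.Adj x y
  · rw [if_pos h, if_pos ((hs x y).2 h)]
  · rw [if_neg h, if_neg (fun h' => h ((hs x y).1 h'))]

omit [DecidableEq W] in
theorem ex_le (e : W → W') (H' : SimpleGraph W') (z : W') : ex e H' z ≤ (nw e).card := by
  classical
  unfold ex
  exact Finset.card_filter_le _ _

omit [DecidableEq W] in
theorem ex_zero (e : W → W') (t : ι → W) (H' : SimpleGraph W') (ho : Only e t H') (x : W)
    (hx : x ∉ Set.range t) : ex e H' (e x) = 0 := by
  classical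
  unfold ex
  rw [Finset.card_eq_zero, Finset.filter_eq_empty_iff]
  intro y hy ha
  exact hx (ho x y ((mem_nw e y).1 hy) ha)

omit [DecidableEq W] in
theorem dg_new (e : W → W') (t : ι → W) (H' : SimpleGraph W') (ho : Only e t H') (y : W')
    (hy : y ∉ Set.range e) : dg H' y ≤ (nw e).card + Fintype.card ι := by
  classical
  unfold dg
  have hsub : (univ.filter fun z => H'.Adj y z) ⊆ nw e ∪ univ.image (fun i => e (t i)) := by
    intro z hz
    have hz' : H'.Adj y z := (Finset.mem_filter.1 hz).2
    by_cases hr : z ∈ Set.range e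
    · obtain ⟨x, rfl⟩ := hr
      obtain ⟨i, hi⟩ := ho x y hy hz'.symm
      exact Finset.mem_union_right _ (Finset.mem_image.2 ⟨i, Finset.mem_univ _, by rw [hi]⟩)
    · exact Finset.mem_union_left _ ((mem_nw e z).2 hr)
  refine (Finset.card_le_card hsub).trans ((Finset.card_union_le _ _).trans ?_)
  exact Nat.add_le_add_left (Finset.card_image_le.trans (by simp)) _

omit [DecidableEq W] in
theorem sum_ex (e : W → W') (he : Function.Injective e) (H' : SimpleGraph W') :
    ∑ x, ex e H' (e x) ≤ ∑ y ∈ nw e, dg H' y := by
  classical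
  unfold dg ex
  simp only [Finset.card_filter]
  rw [Finset.sum_comm]
  refine Finset.sum_le_sum fun y _ => ?_
  rw [sum_split e he (fun z => if H'.Adj y z then 1 else 0)]
  refine le_trans (le_of_eq ?_) (Nat.le_add_right _ _)
  refine Finset.sum_congr rfl fun x _ => ?_
  by_cases h : H'.Adj (e x) y
  · rw [if_pos h, if_pos h.symm]
  · rw [if_neg h, if_neg (fun h' => h h'.symm)]

end LocAux

open LocAux in
theorem pLoc : StLoc := by
  intro W W' ι _ _ _ _ _ e t H H' M he hs ho hM
  have hN := card_nw e he M hM
  have h3 : ∀ y, y ∉ Set.range e → dg H' y ≤ M + Fintype.card ι := fun y hy =>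
    (dg_new e t H' ho y hy).trans (Nat.add_le_add_right hN _)
  refine ⟨fun x => ?_, fun x hx => ?_, h3, ?_⟩
  · rw [dg_eq e he H H' hs]
    exact Nat.add_le_add_left ((ex_le e H' _).trans hN) _
  · rw [dg_eq e he H H' hs, ex_zero e t H' ho x hx, add_zero]
  · have h4 : ∑ y ∈ nw e, dg H' y ≤ M * (M + Fintype.card ι) := by
      refine (Finset.sum_le_card_nsmul _ _ _ fun y hy => h3 y ((mem_nw e y).1 hy)).trans ?_
      rw [smul_eq_mul]
      exact Nat.mul_le_mul_right _ hN
    have h5 := sum_ex e he H'
    unfold ed
    rw [sum_split e he]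
    simp only [dg_eq e he H H' hs, Finset.sum_add_distrib]
    have h6 : 2 * M * (M + Fintype.card ι) = M * (M + Fintype.card ι) + M * (M + Fintype.card ι) := by
      ring
    omega

end Pool.Agent.P.MP_f57657_co.SZ
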