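import Pool.Agent.P.MP_f57657_co.SZ.Defs

/-! Dimension bounds, values along pendant paths, and transport to numbered vertices. -/

open Matrix Finset

namespace Pool.Agent.P.MP_f57657_co.SZ

open SX SY

namespace ValAux

set_option linter.unusedSectionVars false

variable {W : Type} [Fintype W] [DecidableEq W]

theorem sum_one {F : Type} [Field F] (H : SimpleGraph W) (f : W → F) (x a : W)
    (h : ∀ y, H.Adj x y ↔ y = a) : ∑ y, ((am H x y : ℤ) : F) * f y = f a := by
  rw [Finset.sum_eq_single a]
  · have : H.Adj x a := (h a).2 rfl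
    simp [am, this]
  · intro y _ hy
    have : ¬ H.Adj x y := fun hh => hy ((h y).1 hh)
    simp [am, this]
  · intro hh
    exact absurd (Finset.mem_univ a) hh

theorem sum_two {F : Type} [Field F] (H : SimpleGraph W) (f : W → F) (x a b : W) (hab : a ≠ b)
    (h : ∀ y, H.Adj x y ↔ y = a ∨ y = b) : ∑ y, ((am H x y : ℤ) : F) * f y = f a + f b := by
  rw [Finset.sum_eq_add a b hab]
  · have h1 : H.Adj x a := (h a).2 (Or.inl rfl)
    have h2 : H.Adj x b := (h b).2 (Or.inr rfl)
    simp [am, h1, h2]
  · intro y _ hy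
    have : ¬ H.Adj x y := fun hh => ((h y).1 hh).elim hy.1 hy.2
    simp [am, this]
  · intro hh
    exact absurd (Finset.mem_univ a) hh
  · intro hh
    exact absurd (Finset.mem_univ b) hh

theorem tail_val {F : Type} [Field F] (H : SimpleGraph W) (θ : F) {ι : Type} (P : ι → ℕ → W)
    (s : ℕ) (hT : Tails H P s) (f : W → F)
    (hf : ∀ x, ∑ y, ((am H x y : ℤ) : F) * f y = θ * f x) (t : ι) :
    ∀ i, (i < s → f (P t i) = cheb θ i * f (P t 0)) ∧
      (i + 1 < s → f (P t (i + 1)) = cheb θ (i + 1) * f (P t 0)) := by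
  intro i
  induction i with
  | zero =>
    refine ⟨fun _ => by simp [cheb], fun h => ?_⟩
    have h1 := sum_one H f (P t 0) (P t 1) fun y => by
      rw [hT.nbr t 0 y h]
      simp
    rw [hf] at h1
    simp only [cheb, zero_add]
    exact h1.symm
  | succ i ih =>
    refine ⟨ih.2, fun h => ?_⟩
    have hne : P t (i + 1 + 1) ≠ P t i := fun hh => by
      have := (hT.inj t t (i + 1 + 1) i h (by omega) hh).2
      omega
    have h1 := sum_two H f (P t (i + 1)) (P t (i + 1 + 1)) (P t i) hne fun y => by
      rw [hT.nbr t (i + 1) y h]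
      simp
    rw [hf, ih.1 (by omega), ih.2 (by omega)] at h1
    have h2 : cheb θ (i + 1 + 1) = θ * cheb θ (i + 1) - cheb θ i := rfl
    rw [h2]
    linear_combination -h1

theorem am_comap {V : Type} [Fintype V] [DecidableEq V] (e : V → W) (H : SimpleGraph W)
    (a b : V) : am (H.comap e) a b = am H (e a) (e b) := by
  by_cases h : H.Adj (e a) (e b)
  · have h' : (H.comap e).Adj a b := h
    simp only [am, Matrix.of_apply, if_pos h, if_pos h']
  · have h' : ¬ (H.comap e).Adj a b := h
    simp only [am, Matrix.of_apply, if_neg h, if_neg h']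

theorem dg_comap {V : Type} [Fintype V] [DecidableEq V] (e : V ≃ W) (H : SimpleGraph W)
    (x : V) : dg (H.comap e) x = dg H (e x) := by
  classical
  unfold dg
  refine Finset.card_bij (fun y _ => e y) ?_ ?_ ?_
  · intro y hy
    simpa using hy
  · intro a _ b _ hab
    exact e.injective hab
  · intro y hy
    refine ⟨e.symm y, ?_, by simp⟩
    simpa using hy

end ValAux

open ValAux in
theorem pVal : StVal := by
  intro F _ W _ _ H θ R j
  refine ⟨?_, ?_, ?_⟩
  · have := Submodule.finrank_le (Sol F H θ R j)
    rwa [Module.finrank_fintype_fun_eq_card] at this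
  · intro ι _ t hC
    have hinj : Function.Injective
        ((LinearMap.funLeft F F t).comp (Sol F H θ R j).subtype) := by
      rw [← LinearMap.ker_eq_bot, LinearMap.ker_eq_bot']
      intro f hf
      apply Subtype.ext
      refine hC θ f.1 ⟨f.2.1, fun i hi => absurd hi (Nat.not_lt_zero i)⟩ fun i => ?_
      exact congrFun hf i
    have := LinearMap.finrank_le_finrank_of_injective hinj
    rwa [Module.finrank_fintype_fun_eq_card] at this
  · intro ι P s hT f hf t i hi
    exact (tail_val H θ P s hT f hf.1 t i).1 hi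

open ValAux in
theorem pFinT : StFinT := by
  intro W _ _ k
  refine ⟨(((Fintype.equivFin W).sumCongr (Equiv.refl (Fin k))).trans finSumFinEquiv).symm,
    fun H => ⟨fun hC => ?_, fun x => dg_comap _ H x, ?_⟩⟩
  · intro p hp θ f hf he x
    obtain ⟨e, he'⟩ : ∃ e : Fin (Fintype.card W + k) ≃ W ⊕ Fin k, e =
        (((Fintype.equivFin W).sumCongr (Equiv.refl (Fin k))).trans finSumFinEquiv).symm :=
      ⟨_, rfl⟩
    rw [← he'] at he
    have hr : ∀ i : Fin k, e.symm (Sum.inr i) = Fin.natAdd (Fintype.card W) i := by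
      intro i
      rw [he']
      simp
    have h0 := hC.2 ⟨p, hp.out⟩ θ (fun y => f (e.symm y))
      ⟨fun y => ?_, fun i hi => absurd hi (Nat.not_lt_zero i)⟩ fun i => ?_
    · have := congrFun h0 (e x)
      simpa using this
    · rw [← he (e.symm y), ← Equiv.sum_comp e]
      refine Finset.sum_congr rfl fun z _ => ?_
      rw [am_comap]
      simp
    · rw [hr]
      exact hf i
  · unfold ed
    rw [← Equiv.sum_comp
      (((Fintype.equivFin W).sumCongr (Equiv.refl (Fin k))).trans finSumFinEquiv).symm]
    exact Finset.sum_congr rfl fun x _ => dg_comap _ H x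

end Pool.Agent.P.MP_f57657_co.SZ
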