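import Pool.Agent.P.MP_f57657_co.SZ.StepT
import Pool.Agent.P.MP_f57657_co.SZ.Val

/-! Eigenspace dimensions after one step. -/

open Matrix Finset

namespace Pool.Agent.P.MP_f57657_co.SZ

open SX SY

namespace NulAux

open StepTAux

variable {W : Type} [Fintype W] [DecidableEq W] {F : Type} [Field F]

theorem cheb_ne (θ : F) : ∀ L, cheb θ L ≠ 0 ∨ cheb θ (L + 1) ≠ 0
  | 0 => Or.inl (by simp [cheb])
  | L + 1 => by
    by_contra h
    rw [not_or, not_not, not_not] at h
    have h2 : cheb θ (L + 2) = θ * cheb θ (L + 1) - cheb θ L := rfl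
    have h3 : cheb θ L = 0 := by
      have h4 : cheb θ (L + 2) = 0 := h.2
      rw [h4, h.1, mul_zero, zero_sub] at h2
      exact neg_eq_zero.1 h2.symm
    rcases cheb_ne θ L with h5 | h5
    · exact h5 h3
    · exact h5 h.1

/-- Values on the new path. -/
theorem path_val (H : SimpleGraph W) (b : W → Bool) (L : ℕ) (θ : F)
    (f : W ⊕ Fin (L + 1) → F) (hf : f ∈ Sol F (stepG H b L) θ noR 0) :
    f (Sum.inr (Fin.last L)) = cheb θ L * f (Sum.inr 0) := by
  have hT : Tails H (fun (t : Empty) (_ : ℕ) => (t.elim : W)) (L + 1 + 0) :=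
    ⟨fun t => t.elim, fun t => t.elim⟩
  have h1 := (pStepT W Empty H _ (L + 1) 0 b L hT (by omega) le_rfl fun t => t.elim).1
  have h2 := (pVal F _ (stepG H b L) θ noR 0).2.2 _ _ _ h1 f hf none L (by omega)
  simp only [stepP] at h2
  have e1 : (⟨min L L, Nat.lt_succ_of_le (min_le_right L L)⟩ : Fin (L + 1)) = Fin.last L :=
    Fin.ext (by simp)
  have e2 : (⟨min 0 L, Nat.lt_succ_of_le (min_le_right 0 L)⟩ : Fin (L + 1)) = 0 :=
    Fin.ext (by simp)
  rw [e1, e2] at h2
  exact h2

/-- The equation at an old vertex. -/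
theorem eq_old (H : SimpleGraph W) (b : W → Bool) (L : ℕ) (θ : F)
    (f : W ⊕ Fin (L + 1) → F) (hf : f ∈ Sol F (stepG H b L) θ noR 0) (x : W) :
    ∑ y, ((am H x y : ℤ) : F) * f (Sum.inl y) +
      (if b x = true then f (Sum.inr (Fin.last L)) else 0) = θ * f (Sum.inl x) := by
  have h := hf.1 (Sum.inl x)
  rw [Fintype.sum_sum_type] at h
  rw [← h]
  congr 1
  · refine Finset.sum_congr rfl fun y _ => ?_
    by_cases hxy : H.Adj x y
    · rw [(am_apply H x y).1 hxy, (am_apply (stepG H b L) _ _).1 ((step_ll H b L x y).2 hxy)]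
    · rw [(am_apply H x y).2 hxy,
        (am_apply (stepG H b L) _ _).2 fun h' => hxy ((step_ll H b L x y).1 h')]
  · rw [Finset.sum_eq_single (Fin.last L)]
    · by_cases hx : b x = true
      · rw [if_pos hx, (am_apply (stepG H b L) _ _).1, one_mul]
        rw [step_lr]
        exact ⟨rfl, hx⟩
      · rw [if_neg hx, (am_apply (stepG H b L) _ _).2, zero_mul]
        rw [step_lr]
        exact fun h' => hx h'.2
    · intro k _ hk
      rw [(am_apply (stepG H b L) _ _).2, zero_mul]
      rw [step_lr]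
      exact fun h' => hk (Fin.ext h'.1)
    · intro h'
      exact absurd (Finset.mem_univ _) h'

/-- An eigenvector that vanishes at the free end restricts to one killed by the row. -/
theorem restr_mem (H : SimpleGraph W) (b : W → Bool) (L : ℕ) (θ : F)
    (f : W ⊕ Fin (L + 1) → F) (hf : f ∈ Sol F (stepG H b L) θ noR 0) (h0 : f (Sum.inr 0) = 0) :
    (∀ i, f (Sum.inr i) = 0) ∧ (fun x => f (Sum.inl x)) ∈ Sol F H θ (fun _ => b) 1 := by
  have hr : ∀ i : Fin (L + 1), f (Sum.inr i) = 0 := by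
    intro i
    refine path_zero H b L θ f hf.1 (fun i hi => ?_) i.val i le_rfl
    have e : i = 0 := Fin.ext hi
    rw [e]
    exact h0
  refine ⟨hr, restr H (stepG H b L) (step_ll H b L) θ f hf.1 hr, fun i _ => ?_⟩
  have h := hf.1 (Sum.inr (Fin.last L))
  rw [Fintype.sum_sum_type] at h
  have h2 : ∑ u : Fin (L + 1), ((am (stepG H b L) (Sum.inr (Fin.last L)) (Sum.inr u) : ℤ) : F) *
      f (Sum.inr u) = 0 := Finset.sum_eq_zero fun u _ => by rw [hr u, mul_zero]
  rw [h2, add_zero, hr, mul_zero] at h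
  rw [← h]
  unfold dotW
  refine Finset.sum_congr rfl fun x _ => ?_
  by_cases hx : b x = true
  · rw [if_pos hx, (am_apply (stepG H b L) _ _).1, one_mul]
    rw [step_rl]
    exact ⟨rfl, hx⟩
  · rw [if_neg hx, (am_apply (stepG H b L) _ _).2, zero_mul]
    rw [step_rl]
    exact fun h' => hx h'.2

/-- Evaluation at the free end. -/
def ev (H : SimpleGraph W) (b : W → Bool) (L : ℕ) (θ : F) :
    Sol F (stepG H b L) θ noR 0 →ₗ[F] F :=
  (LinearMap.proj (Sum.inr 0 : W ⊕ Fin (L + 1))).comp (Sol F (stepG H b L) θ noR 0).subtype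

theorem ker_le (H : SimpleGraph W) (b : W → Bool) (L : ℕ) (θ : F) :
    Module.finrank F (LinearMap.ker (ev H b L θ)) ≤ dm F H θ (fun _ => b) 1 := by
  let r : LinearMap.ker (ev H b L θ) →ₗ[F] Sol F H θ (fun _ => b) 1 :=
    { toFun := fun f => ⟨fun x => f.1.1 (Sum.inl x), (restr_mem H b L θ f.1.1 f.1.2 f.2).2⟩
      map_add' := fun _ _ => rfl
      map_smul' := fun _ _ => rfl }
  refine LinearMap.finrank_le_finrank_of_injective (f := r) ?_
  intro f g hfg
  apply Subtype.ext
  apply Subtype.ext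
  funext z
  rcases z with x | i
  · exact congrFun (congrArg Subtype.val hfg) x
  · rw [(restr_mem H b L θ f.1.1 f.1.2 f.2).1 i, (restr_mem H b L θ g.1.1 g.1.2 g.2).1 i]

theorem dm_le_ker (H : SimpleGraph W) (b : W → Bool) (L : ℕ) (θ : F) :
    dm F (stepG H b L) θ noR 0 ≤ Module.finrank F (LinearMap.ker (ev H b L θ)) + 1 := by
  have h := LinearMap.finrank_range_add_finrank_ker (ev H b L θ)
  have h2 : Module.finrank F (LinearMap.range (ev H b L θ)) ≤ 1 := by
    have h3 := Submodule.finrank_le (LinearMap.range (ev H b L θ))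
    rwa [Module.finrank_self] at h3
  unfold dm
  omega

theorem sol_le (H : SimpleGraph W) (b : W → Bool) (θ : F) :
    Sol F H θ (fun _ => b) 1 ≤ Sol F H θ noR 0 :=
  fun _ hf => ⟨hf.1, fun i hi => absurd hi (Nat.not_lt_zero i)⟩

theorem am_sym (H : SimpleGraph W) (x y : W) :
    ((am H x y : ℤ) : F) = ((am H y x : ℤ) : F) := by
  by_cases h : H.Adj x y
  · rw [(am_apply H x y).1 h, (am_apply H y x).1 h.symm]
  · rw [(am_apply H x y).2 h, (am_apply H y x).2 fun h' => h h'.symm]

/-- Pairing the equations at the old vertices with an old eigenvector. -/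
theorem pair (H : SimpleGraph W) (b : W → Bool) (L : ℕ) (θ : F)
    (f : W ⊕ Fin (L + 1) → F) (hf : f ∈ Sol F (stepG H b L) θ noR 0)
    (g : W → F) (hg : g ∈ Sol F H θ noR 0) :
    f (Sum.inr (Fin.last L)) * dotW b g = 0 := by
  have h1 : ∑ x, g x * (∑ y, ((am H x y : ℤ) : F) * f (Sum.inl y) +
      (if b x = true then f (Sum.inr (Fin.last L)) else 0)) =
      ∑ x, g x * (θ * f (Sum.inl x)) :=
    Finset.sum_congr rfl fun x _ => by rw [eq_old H b L θ f hf x]
  have h2 : ∑ x, g x * ∑ y, ((am H x y : ℤ) : F) * f (Sum.inl y) =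
      ∑ x, g x * (θ * f (Sum.inl x)) := by
    simp only [Finset.mul_sum]
    rw [Finset.sum_comm]
    refine Finset.sum_congr rfl fun y _ => ?_
    have h3 : ∑ x, g x * (((am H x y : ℤ) : F) * f (Sum.inl y)) =
        (∑ x, ((am H y x : ℤ) : F) * g x) * f (Sum.inl y) := by
      rw [Finset.sum_mul]
      exact Finset.sum_congr rfl fun x _ => by rw [am_sym H x y]; ring
    rw [h3, hg.1 y]
    ring
  have h4 : ∑ x, g x * (if b x = true then f (Sum.inr (Fin.last L)) else 0) =
      f (Sum.inr (Fin.last L)) * dotW b g := by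
    unfold dotW
    rw [Finset.mul_sum]
    exact Finset.sum_congr rfl fun x _ => by split_ifs <;> ring
  simp only [mul_add, Finset.sum_add_distrib] at h1
  rw [h2, h4] at h1
  exact add_eq_left.1 h1

end NulAux

open NulAux

theorem pNul : StNul := by
  intro F _ θ
  refine ⟨cheb_ne θ, fun W _ _ H b L => ?_⟩
  have h1 := dm_le_ker H b L θ
  have h2 := ker_le H b L θ
  have h3 : dm F H θ (fun _ => b) 1 ≤ dm F H θ noR 0 := Submodule.finrank_mono (sol_le H b θ)
  refine ⟨by omega, ?_⟩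
  rintro ⟨g, hg, hb⟩
  have h4 : dm F H θ (fun _ => b) 1 < dm F H θ noR 0 := by
    refine Submodule.finrank_lt_finrank_of_lt (lt_of_le_of_ne (sol_le H b θ) fun e => ?_)
    have hg' : g ∈ Sol F H θ (fun _ => b) 1 := e ▸ hg
    exact hb (hg'.2 0 Nat.one_pos)
  refine ⟨by omega, fun hc => ?_⟩
  have h5 : LinearMap.ker (ev H b L θ) = ⊤ := by
    rw [eq_top_iff]
    intro f _
    have h6 := pair H b L θ f.1 f.2 g hg
    rw [path_val H b L θ f.1 f.2] at h6
    exact (mul_eq_zero.1 ((mul_eq_zero.1 h6).resolve_right hb)).resolve_left hc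
  rw [h5, finrank_top] at h2
  have h7 : dm F (stepG H b L) θ noR 0 ≤ dm F H θ (fun _ => b) 1 := h2
  omega

end Pool.Agent.P.MP_f57657_co.SZ
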