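import Pool.Agent.P.MP_f57657_co.SZ.Defs

/-! Random rows on the tails hit all points. -/

open Matrix Finset

namespace Pool.Agent.P.MP_f57657_co.SZ

open SX SY

namespace OrcAux

open Classical in
/-- The row supported on the selected positions. -/
noncomputable def row {U W : Type} (pos : U → W) (sel : U → Bool) (x : W) : Bool :=
  decide (∃ u, x = pos u ∧ sel u = true)

theorem row_true {U W : Type} {pos : U → W} {sel : U → Bool} {x : W}
    (h : row pos sel x = true) : ∃ u, x = pos u ∧ sel u = true := by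
  simpa [row] using h

theorem dot_row {F : Type} [Field F] {U W : Type} [Fintype U] [Fintype W] [DecidableEq W]
    (pos : U → W) (hp : Function.Injective pos) (sel : U → Bool) (f : W → F) :
    dotW (row pos sel) f = ∑ u, if sel u = true then f (pos u) else 0 := by
  unfold dotW
  refine (Fintype.sum_of_injective pos hp _ _ (fun x hx => ?_) (fun u => ?_)).symm
  · rw [if_neg]
    intro h
    obtain ⟨u, hu, _⟩ := row_true h
    exact hx ⟨u, hu.symm⟩
  · have h : row pos sel (pos u) = true ↔ sel u = true := by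
      constructor
      · intro h
        obtain ⟨v, hv, hs⟩ := row_true h
        rw [hp hv]
        exact hs
      · intro h
        simp only [row, decide_eq_true_eq]
        exact ⟨u, rfl, h⟩
    simp only [h]

theorem key (hAC : StAC) (F : Type) [Field F] {W : Type} [Fintype W] [DecidableEq W]
    {ι : Type} [Fintype ι] [DecidableEq ι] {Ω : Type} [Fintype Ω] [Nonempty Ω]
    (H : SimpleGraph W) (t : ι → W) (hCF : CF F H t) (θ : F) (R : ℕ → W → Bool) (j m : ℕ)
    (S : Ω → F) (ρ : ℝ) (h0 : 0 ≤ ρ) (h1 : ρ ≤ 1) (hS : ∀ c, pr (fun ω => S ω = c) ≤ ρ)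
    (r : (ι → Ω) → W → Bool)
    (hr : ∀ a, ∀ f ∈ Sol F H θ R j, dotW (r a) f = ∑ i, f (t i) * S (a i))
    (hm : m ≤ dm F H θ R j) :
    pr (fun a : ι → Ω => ∀ f ∈ Sol F H θ R j, dotW (r a) f = 0) ≤ ρ ^ m := by
  let L : Sol F H θ R j →ₗ[F] (ι → F) := (LinearMap.funLeft F F t).comp (Sol F H θ R j).subtype
  have hL : Function.Injective L := by
    rw [injective_iff_map_eq_zero]
    intro f hf
    refine Subtype.ext (hCF θ f.1 ⟨f.2.1, fun i hi => absurd hi (Nat.not_lt_zero i)⟩ fun i => ?_)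
    exact congrFun hf i
  have hk : Module.finrank F (LinearMap.range L) = dm F H θ R j :=
    LinearMap.finrank_range_of_inj hL
  have h2 := hAC F ι Ω S ρ (LinearMap.range L) hS
  have he : (fun a : ι → Ω => ∀ f ∈ Sol F H θ R j, dotW (r a) f = 0) =
      fun a : ι → Ω => ∀ x ∈ LinearMap.range L, ∑ i, x i * S (a i) = 0 := by
    funext a
    refine propext ⟨fun h x hx => ?_, fun h f hf => ?_⟩
    · obtain ⟨f, rfl⟩ := hx
      have h3 := h f.1 f.2
      rw [hr a f.1 f.2] at h3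
      exact h3
    · rw [hr a f hf]
      exact h (L ⟨f, hf⟩) ⟨⟨f, hf⟩, rfl⟩
  rw [he]
  rw [hk] at h2
  exact h2.trans (pow_le_pow_of_le_one h0 h1 hm)

theorem asm (hC : StCand) (hH : StHit) {W : Type} [Fintype W] [DecidableEq W]
    (H : SimpleGraph W) (R : ℕ → W → Bool) (j m y e n : ℕ) (hn : Fintype.card W + j ≤ n)
    (hm : 1 ≤ m) {Ω : Type} [Fintype Ω] [Nonempty Ω] (r : Ω → W → Bool) (ρR : ℝ → ℝ)
    (ρP : Pt → ℝ)
    (hR : ∀ θ : ℝ, m ≤ dm ℝ H θ R j →
      pr (fun a => ∀ f ∈ Sol ℝ H θ R j, dotW (r a) f = 0) ≤ ρR θ)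
    (hP : ∀ q : Pt, m ≤ dm (FF q.1) H q.2 R j →
      pr (fun a => ∀ f ∈ Sol (FF q.1) H q.2 R j, dotW (r a) f = 0) ≤ ρP q)
    (hs : ∀ (S : Finset ℝ) (B : Finset Pt), S.card ≤ n → B.card ≤ XX n →
      ∑ θ ∈ S, ρR θ ^ e + ∑ q ∈ B, ρP q ^ e < 1) :
    ∃ a : ℕ → Ω, Hit H R j m y (fun i => r (a i)) e := by
  classical
  obtain ⟨⟨S, hS, hS'⟩, hB⟩ := hC W H R j y n hn
  have hB' : ∃ B : Finset Pt, B.card ≤ XX n ∧
      (RB H R j y → ∀ q : Pt, y < dm (FF q.1) H q.2 R j → q ∈ B) := by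
    by_cases h : RB H R j y
    · obtain ⟨B, h1, h2⟩ := hB h
      exact ⟨B, h1, fun _ => h2⟩
    · exact ⟨∅, by simp, fun h' => absurd h' h⟩
  obtain ⟨B, hBc, hBm⟩ := hB'
  let S' := S.filter fun θ => m ≤ dm ℝ H θ R j
  let B' := B.filter fun q => m ≤ dm (FF q.1) H q.2 R j
  obtain ⟨a, ha⟩ := hH Ω (ℝ ⊕ Pt) (S'.disjSum B')
    (Sum.elim (fun θ a => ∀ f ∈ Sol ℝ H θ R j, dotW (r a) f = 0)
      (fun q a => ∀ f ∈ Sol (FF q.1) H q.2 R j, dotW (r a) f = 0)) (Sum.elim ρR ρP) e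
    (by
      rintro (θ | q) hq
      · exact hR θ (Finset.mem_filter.1 (Finset.inl_mem_disjSum.1 hq)).2
      · exact hP q (Finset.mem_filter.1 (Finset.inr_mem_disjSum.1 hq)).2)
    (by
      rw [Finset.sum_disjSum]
      exact hs S' B' ((Finset.card_filter_le _ _).trans hS)
        ((Finset.card_filter_le _ _).trans hBc))
  refine ⟨a, fun θ hθ => ?_, fun hrb q h1 h2 => ?_⟩
  · obtain ⟨i, hi, h⟩ := ha (Sum.inl θ)
      (Finset.inl_mem_disjSum.2 (Finset.mem_filter.2 ⟨hS' θ (hm.trans hθ), hθ⟩))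
    simp only [Sum.elim_inl] at h
    push Not at h
    exact ⟨i, hi, h⟩
  · obtain ⟨i, hi, h⟩ := ha (Sum.inr q)
      (Finset.inr_mem_disjSum.2 (Finset.mem_filter.2 ⟨hBm hrb q h2, h1⟩))
    simp only [Sum.elim_inr] at h
    push Not at h
    exact ⟨i, hi, h⟩

theorem pr_bool {F : Type} [Field F] (c : F) :
    pr (fun ω : Bool => (if ω = true then (1 : F) else 0) = c) ≤ 1 / 2 := by
  unfold pr
  rw [Fintype.card_bool, div_le_iff₀ (by norm_num)]
  have h2 : (1 / 2 : ℝ) * ((2 : ℕ) : ℝ) = ((1 : ℕ) : ℝ) := by norm_num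
  rw [h2, Nat.cast_le, Finset.card_le_one]
  intro a ha b hb
  simp only [Finset.mem_filter, Finset.mem_univ, true_and] at ha hb
  have h := ha.trans hb.symm
  clear ha hb
  cases a <;> cases b <;> simp at h ⊢

theorem le_XX (n : ℕ) : n ≤ XX n := by
  unfold XX
  nlinarith [Nat.zero_le (n ^ 3 * n)]

theorem small {n k a b : ℕ} (h : 4 * XX n ≤ 2 ^ k) (ha : a ≤ n) (hb : b ≤ XX n) :
    (a : ℝ) * (1 / 2) ^ k + b * (1 / 2) ^ k ≤ 1 / 2 := by
  have h1 : 2 * (a + b) ≤ 2 ^ k := by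
    have := le_XX n
    omega
  have h2 : (2 : ℝ) * (a + b) ≤ 2 ^ k := by exact_mod_cast h1
  have h3 : (0 : ℝ) < 2 ^ k := by positivity
  rw [← add_mul, one_div, inv_pow, ← div_eq_mul_inv, div_le_iff₀ h3]
  linarith

end OrcAux

open OrcAux

theorem pOrc0 (hAC : StAC) (hC : StCand) (hH : StHit) : StOrc0 := by
  intro m n hm hX W _ _ ι _ _ H P i R j m' e' y hme hT hCtl hn
  have hinj : Function.Injective fun t => P t 0 := fun t t' h =>
    (hT.inj t t' 0 0 (by omega) (by omega) h).1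
  have hm' : 1 ≤ m' := by omega
  have hmul : m' * e' = m := by
    rcases hme with ⟨h1, h2⟩ | ⟨h1, h2⟩ <;> simp [h1, h2]
  have hd : ∀ (F : Type) [Field F] (a : ι → Bool) (f : W → F),
      dotW (row (fun t => P t 0) a) f = ∑ t, f (P t 0) * if a t = true then 1 else 0 := by
    intro F _ a f
    rw [dot_row _ hinj]
    exact Finset.sum_congr rfl fun t _ => by split_ifs <;> simp
  obtain ⟨a, ha⟩ := asm hC hH H R j m' y e' n hn hm' (Ω := ι → Bool)
    (fun a => row (fun t => P t 0) a) (fun _ => (1 / 2) ^ m') (fun _ => (1 / 2) ^ m')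
    (fun θ h => key hAC ℝ H _ hCtl.1 θ R j m' (fun ω : Bool => if ω = true then 1 else 0) (1 / 2)
      (by norm_num) (by norm_num) pr_bool _ (fun a f _ => hd ℝ a f) h)
    (fun q h => key hAC (FF q.1) H _ (hCtl.2 q.1) q.2 R j m'
      (fun ω : Bool => if ω = true then 1 else 0) (1 / 2)
      (by norm_num) (by norm_num) pr_bool _ (fun a f _ => hd _ a f) h)
    (fun S B hS hB => by
      simp only [Finset.sum_const, nsmul_eq_mul, ← pow_mul, hmul]
      have := small hX hS hB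
      linarith)
  refine ⟨_, ha, fun i' x hx => ?_⟩
  obtain ⟨t, ht, _⟩ := row_true hx
  exact ⟨t, 0, by omega, by omega, ht⟩

theorem pOrc1 (hV : StVal) (hAC : StAC) (hR : StRho) (hW : StWT) (hC : StCand) (hH : StHit) :
    StOrc1 := by
  intro w I D n hw hD hX W _ _ ι _ _ H P i R j m' e' y hme hT hCtl hn
  have hinj : Function.Injective fun u : ι × Fin w => P u.1 (i * w + 1 + u.2.val) := by
    rintro ⟨t, l⟩ ⟨t', l'⟩ h
    have hl := l.2
    have hl' := l'.2
    obtain ⟨h1, h2⟩ := hT.inj t t' (i * w + 1 + l.val) (i * w + 1 + l'.val) (by omega)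
      (by omega) h
    have h3 : l = l' := Fin.ext (by omega)
    rw [h1, h3]
  have hm' : 1 ≤ m' := by omega
  have hmul : m' * e' = D := by
    rcases hme with ⟨h1, h2⟩ | ⟨h1, h2⟩ <;> simp [h1, h2]
  have hd : ∀ (F : Type) [Field F] (θ : F) (a : ι → Fin w → Bool), ∀ f ∈ Sol F H θ R j,
      dotW (row (fun u : ι × Fin w => P u.1 (i * w + 1 + u.2.val)) fun u => a u.1 u.2) f =
        ∑ t, f (P t 0) * ∑ l : Fin w, if a t l = true then cheb θ (i * w + 1 + l.val) else 0 := by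
    intro F _ θ a f hf
    rw [dot_row _ hinj, Fintype.sum_prod_type]
    refine Finset.sum_congr rfl fun t _ => ?_
    rw [Finset.mul_sum]
    refine Finset.sum_congr rfl fun l _ => ?_
    have hl := l.2
    split_ifs
    · rw [(hV F W H θ R j).2.2 ι P _ hT f hf t _ (by omega), mul_comm]
    · simp
  have hle : ∀ k : ℕ, (1 / 2 : ℝ) ^ k ≤ 1 := fun k => pow_le_one₀ (by norm_num) (by norm_num)
  obtain ⟨a, ha⟩ := asm hC hH H R j m' y e' n hn hm' (Ω := ι → Fin w → Bool)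
    (fun a => row (fun u : ι × Fin w => P u.1 (i * w + 1 + u.2.val)) fun u => a u.1 u.2)
    (fun θ => ((1 / 2) ^ lev I θ) ^ m') (fun q => ((1 / 2) ^ lev I q.2) ^ m')
    (fun θ h => key hAC ℝ H _ hCtl.1 θ R j m'
      (fun a : Fin w → Bool => ∑ l : Fin w, if a l = true then cheb θ (i * w + 1 + l.val) else 0)
      _ (by positivity) (hle _) (hR ℝ θ (i * w + 1) w I hw) _ (hd ℝ θ) h)
    (fun q h => key hAC (FF q.1) H _ (hCtl.2 q.1) q.2 R j m'
      (fun a : Fin w → Bool => ∑ l : Fin w, if a l = true then cheb q.2 (i * w + 1 + l.val) else 0)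
      _ (by positivity) (hle _) (hR _ q.2 (i * w + 1) w I hw) _ (hd _ q.2) h)
    (fun S B hS hB => by
      have h1 := hW.2 B I D hD
      have h2 : ∑ θ ∈ S, (((1 / 2 : ℝ) ^ lev I θ) ^ m') ^ e' ≤ S.card * (1 / 2 : ℝ) ^ (I * D) := by
        rw [← nsmul_eq_mul]
        refine Finset.sum_le_card_nsmul _ _ _ fun θ _ => ?_
        rw [← pow_mul, hmul, ← pow_mul]
        exact pow_le_pow_of_le_one (by norm_num) (by norm_num)
          (Nat.mul_le_mul_right D (hW.1 I θ))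
      have h3 : ∑ q ∈ B, (((1 / 2 : ℝ) ^ lev I q.2) ^ m') ^ e' =
          ∑ q ∈ B, ((1 / 2 : ℝ) ^ lev I q.2) ^ D :=
        Finset.sum_congr rfl fun q _ => by rw [← pow_mul, hmul]
      have h4 := small hX hS hB
      linarith)
  refine ⟨_, ha, fun i' x hx => ?_⟩
  obtain ⟨u, hu, _⟩ := row_true hx
  have hl := u.2.2
  exact ⟨u.1, i * w + 1 + u.2.val, by omega, by omega, hu⟩

end Pool.Agent.P.MP_f57657_co.SZ
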