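import Pool.Agent.P.MP_f57657_co.SZ.Defs

/-! Reduction of the number of roots: pendant paths, steps, and the final rows. -/

open Matrix Finset

namespace Pool.Agent.P.MP_f57657_co.SZ

open SX SY

namespace RedAux

/-- The invariant with `i` steps still to be made. -/
def Inv {W ι : Type} (t : ι → W) (w k N L : ℕ) (H0 : SimpleGraph W) (i : ℕ) (W' : Type)
    [Fintype W'] [DecidableEq W'] (e : W → W') (H : SimpleGraph W') : Prop :=
  Fintype.card W' + i * (L + 2) ≤ N ∧ i ≤ 8 * k ∧ Sub e H0 H ∧ Only e t H ∧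
    ∃ (ι' : Type) (_ : Fintype ι') (_ : DecidableEq ι') (P : ι' → ℕ → W'),
      Fintype.card ι' + i ≤ 9 * k ∧ Tails H P (i * w + 1 + w) ∧ Ctl H (fun o => P o 0) ∧
      ∀ o l, l < i * w + 1 + w → P o l ∉ Set.range e

theorem sub_comp {W W' W'' : Type} {e : W → W'} {f : W' → W''} {H0 : SimpleGraph W}
    {H : SimpleGraph W'} {H' : SimpleGraph W''} (h1 : Sub e H0 H) (h2 : Sub f H H') :
    Sub (f ∘ e) H0 H' := fun x y => (h2 (e x) (e y)).trans (h1 x y)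

theorem only_comp {W W' U ι : Type} {e : W → W'} {t : ι → W} {H : SimpleGraph W'}
    {H' : SimpleGraph (W' ⊕ U)} (h1 : Only e t H) (h2 : Sub Sum.inl H H')
    (h3 : ∀ x u, ¬ H'.Adj (Sum.inl (e x)) (Sum.inr u)) : Only (Sum.inl ∘ e) t H' := by
  intro x y hy hadj
  rcases y with y | u
  · refine h1 x y (fun hy' => hy ?_) ((h2 _ _).1 hadj)
    obtain ⟨z, rfl⟩ := hy'
    exact ⟨z, rfl⟩
  · exact absurd hadj (h3 x u)

theorem step (hS : StStepT) (hA : StAdj) {W ι : Type} {t : ι → W} {w k N L : ℕ}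
    {H0 : SimpleGraph W} {i : ℕ} {W' : Type} [Fintype W'] [DecidableEq W'] {e : W → W'}
    {H : SimpleGraph W'} {ι' : Type} [Fintype ι'] [DecidableEq ι'] {P : ι' → ℕ → W'}
    (hL : 8 * k * w ≤ L) (h1 : Fintype.card W' + (i + 1) * (L + 2) ≤ N) (h2 : i + 1 ≤ 8 * k)
    (h3 : Sub e H0 H) (h4 : Only e t H) (h5 : Fintype.card ι' + (i + 1) ≤ 9 * k)
    (h6 : Tails H P ((i + 1) * w + 1 + w)) (h7 : Ctl H (fun o => P o 0))
    (h8 : ∀ o l, l < (i + 1) * w + 1 + w → P o l ∉ Set.range e) (b : W' → Bool)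
    (hb : ∀ x, b x = true → ∃ o l, (i + 1) * w ≤ l ∧ l < (i + 1) * w + 1 + w ∧ x = P o l)
    (L' : ℕ) (hl : L ≤ L') (hl' : L' ≤ L + 1) :
    Inv t w k N L H0 i (W' ⊕ Fin (L' + 1)) (Sum.inl ∘ e) (stepG H b L') := by
  have es : (i + 1) * w + 1 = i * w + 1 + w := by ring
  have hiw : (i + 1) * w ≤ 8 * k * w := Nat.mul_le_mul_right w h2
  have h6' : Tails H P (i * w + 1 + w + w) := es ▸ h6
  obtain ⟨s1, s2⟩ := hS W' ι' H P (i * w + 1 + w) w b L' h6' (by omega) (by omega) (by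
    intro o j hj
    by_contra hc
    obtain ⟨o', l, l1, l2, l3⟩ := hb _ (by simpa using hc)
    have := (h6.inj o o' j l (by omega) l2 l3).2
    omega)
  obtain ⟨a1, a2⟩ := (hA W' H).1 b L'
  refine ⟨?_, by omega, sub_comp h3 a1, only_comp h4 a1 fun x u hx => ?_,
    Option ι', inferInstance, inferInstance, stepP P L', ?_, s1,
    ⟨s2 ℝ h7.1, fun p => s2 (FF p) (h7.2 p)⟩, ?_⟩
  · rw [Fintype.card_sum, Fintype.card_fin]
    rw [add_mul, one_mul] at h1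
    omega
  · obtain ⟨o, l, -, l2, l3⟩ := hb _ (a2 _ _ hx)
    exact h8 o l l2 ⟨x, l3⟩
  · rw [Fintype.card_option]
    omega
  · rintro (_ | o) l hl2 ⟨x, hx⟩
    · simp [stepP] at hx
    · simp only [stepP, Function.comp_apply, Sum.inl.injEq] at hx
      exact h8 o l (by omega) ⟨x, hx⟩

end RedAux

open RedAux in
theorem pRed (hI : StInit) (hS : StStepT) (hV : StVal) (hA : StAdj) (hIt : StIter)
    (hRo : StRoots) : StRed := by
  intro w m e n hO W ι _ _ _ _ t hn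
  obtain ⟨k, hk⟩ : ∃ k, k = Fintype.card ι := ⟨_, rfl⟩
  rw [← hk] at hn ⊢
  obtain ⟨L, hL⟩ : ∃ L, L = (8 * k + 1) * w := ⟨_, rfl⟩
  have hg : gM k w m e = 9 * (k * L) + 17 * k + (2 * m + 1) * e := by
    rw [gM, ← hL]; ring
  rw [hg] at hn ⊢
  have hL' : 8 * k * w ≤ L := by rw [hL]; exact Nat.mul_le_mul_right w (Nat.le_succ _)
  obtain ⟨N, hN⟩ : ∃ N, N = Fintype.card W + 9 * (k * L) + 17 * k := ⟨_, rfl⟩
  obtain ⟨W', i1, i2, u, hu, hc, hmain⟩ := hIt W (SimpleGraph W) (Inv t w k N L) m L k (3 * k)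
    (by
      rintro a i W' _ _ e' H ⟨h1, h2, h3, h4, ι', _, _, P, h5, h6, h7, h8⟩
      obtain ⟨b, hb1, hb2⟩ := hO W' ι' H P (i + 1) noR 0 m 1 m (Or.inl ⟨rfl, rfl⟩) h6 h7
        (by omega)
      refine ⟨b 0, ⟨fun θ hθ => ?_, fun hr q hq hq' => ?_⟩,
        step hS hA hL' h1 h2 h3 h4 h5 h6 h7 h8 (b 0) (hb2 0) L le_rfl (by omega),
        step hS hA hL' h1 h2 h3 h4 h5 h6 h7 h8 (b 0) (hb2 0) (L + 1) (by omega) le_rfl⟩
      · obtain ⟨j, hj, hf⟩ := hb1.1 θ hθ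
        obtain rfl : j = 0 := by omega
        exact ⟨0, hj, hf⟩
      · obtain ⟨j, hj, hf⟩ := hb1.2 hr q hq hq'
        obtain rfl : j = 0 := by omega
        exact ⟨0, hj, hf⟩)
    (by
      rintro a W' _ _ e' H ⟨-, -, -, -, ι', _, _, P, h5, -, h7, -⟩ q
      have := (hV (FF q.1) W' H q.2 noR 0).2.1 ι' _ (h7.2 q.1)
      omega)
    (W ⊕ ι × Fin (L + 1)) Sum.inl Sum.inl_injective
  have c1 : Fintype.card (W ⊕ ι × Fin (L + 1)) = Fintype.card W + k * L + k := by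
    rw [Fintype.card_sum, Fintype.card_prod, Fintype.card_fin, ← hk]; ring
  have c2 : (k + 3 * k) * (2 * L + 3) = 8 * (k * L) + 12 * k := by ring
  rw [c1, c2] at hc
  refine ⟨W', i1, i2, u, hu, by omega, fun H hH => ?_⟩
  obtain ⟨t1, t2, t3, t4⟩ := hI W ι H t (L + 1) (by omega)
  have hctl : Ctl (initG H t (L + 1)) (fun o => initP t (L + 1) o 0) :=
    ⟨t2 ℝ hH.1, fun p => t2 (FF p) (hH.2 p)⟩
  have e8 : (2 * k + 2 * (3 * k)) * w + 1 + w = L + 1 := by rw [hL]; ring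
  obtain ⟨H', ⟨h1, -, h3, h4, ι', _, _, P, -, h6, h7, h8⟩, hr, hp⟩ := hmain H
    (initG H t (L + 1))
    ⟨by rw [c1, hN]; exact le_of_eq (by ring), by omega, t3, t4, ι, inferInstance, inferInstance,
      initP t (L + 1), by omega, by rw [e8]; exact t1, hctl, by
        rintro o l hl ⟨x, hx⟩
        rw [e8] at hl
        simp [initP, hl] at hx⟩
    (fun θ => hk ▸ (hV ℝ _ (initG H t (L + 1)) θ noR 0).2.1 ι _ hctl.1)
  obtain ⟨R, g1, g2, g3⟩ := hRo W' H' (fun b => ∀ x, b (u x) = false) m e (fun _ => rfl)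
    (fun R j y hj => by
      obtain ⟨b, hb1, hb2⟩ := hO W' ι' H' P 0 R j 1 e y (Or.inr ⟨rfl, rfl⟩) h6 h7 (by omega)
      refine ⟨b, hb1, fun i x => ?_⟩
      by_contra hc'
      obtain ⟨o, l, -, l2, l3⟩ := hb2 i _ (by simpa using hc')
      exact h8 o l l2 ⟨x, l3⟩) hr hp
  obtain ⟨a1, a2, a3⟩ := (hA W' H').2 R ((2 * m + 1) * e)
  refine ⟨rootG H' R _, sub_comp h3 a1, only_comp h4 a1 fun x v hx => ?_, a3 g2 g3⟩
  have := a2 _ _ hx
  rw [g1] at this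
  exact Bool.false_ne_true this

end Pool.Agent.P.MP_f57657_co.SZ
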