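import Pool.Agent.P.MP_f57657_co.SY.Anc
import Pool.Agent.P.MP_f57657_co.SY.AncDS
import Pool.Agent.P.MP_f57657_co.SY.Mod

/-! Degree and edge bounds through the constructions; the anchor with a degree bound. -/

open Matrix Finset

set_option linter.unusedSectionVars false

namespace Pool.Agent.P.MP_f57657_co.SY

open SX

namespace Trk

variable {V W : Type} [Fintype V] [DecidableEq V] [Fintype W] [DecidableEq W]

/-- All degrees are at most `D`. -/
def MaxDeg (G : SimpleGraph V) (D : ℕ) : Prop := ∀ x, ∑ y, am G x y ≤ (D : ℤ)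

/-- The sum of the degrees is at most `E`. -/
def DegSum (G : SimpleGraph V) (E : ℕ) : Prop := ∑ x, ∑ y, am G x y ≤ (E : ℤ)

theorem MaxDeg.mono {G : SimpleGraph V} {D D' : ℕ} (h : MaxDeg G D) (e : D ≤ D') : MaxDeg G D' :=
  fun x => (h x).trans (by exact_mod_cast e)

theorem DegSum.mono {G : SimpleGraph V} {E E' : ℕ} (h : DegSum G E) (e : E ≤ E') : DegSum G E' :=
  le_trans h (by exact_mod_cast e)

theorem am_comm (G : SimpleGraph V) (x y : V) : am G x y = am G y x :=
  (Main.am_symm G).apply y x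

/-- A count of neighbours through an injective code. -/
theorem sum_le_code {U α : Type} [Fintype U] (G : SimpleGraph V) (x : V) (j : U → V) (c : U → α)
    (hc : Function.Injective c) (T : List α) (h : ∀ u, G.Adj x (j u) → c u ∈ T) :
    ∑ u, am G x (j u) ≤ (T.length : ℤ) := by
  classical
  have h1 : ∑ u, am G x (j u) = ((univ.filter fun u => G.Adj x (j u)).card : ℤ) := by
    simp only [am, of_apply]
    rw [Finset.card_filter]
    push_cast
    exact Finset.sum_congr rfl fun u _ => by congr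
  rw [h1]
  exact_mod_cast (card_le_card_of_injOn c (fun u hu => by
    simpa using h u (by simpa using hu)) hc.injOn).trans (List.toFinset_card_le T)

theorem sum_le_card {U : Type} [Fintype U] (G : SimpleGraph V) (x : V) (j : U → V) (T : Finset U)
    (h : ∀ u, G.Adj x (j u) → u ∈ T) : ∑ u, am G x (j u) ≤ (T.card : ℤ) := by
  have := sum_le_code G x j id Function.injective_id T.toList fun u hu => by simpa using h u hu
  rwa [Finset.length_toList] at this

theorem am_inl {G : SimpleGraph V} {H : SimpleGraph (V ⊕ W)}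
    (h : ∀ x y, H.Adj (Sum.inl x) (Sum.inl y) ↔ G.Adj x y) (x y : V) :
    am H (Sum.inl x) (Sum.inl y) = am G x y := by
  by_cases e : G.Adj x y
  · rw [AncAux.am_pos e, AncAux.am_pos ((h x y).2 e)]
  · rw [AncAux.am_neg e, AncAux.am_neg fun e' => e ((h x y).1 e')]

theorem maxDeg_sum {G : SimpleGraph V} {H : SimpleGraph (V ⊕ W)} {D a b : ℕ}
    (h : ∀ x y, H.Adj (Sum.inl x) (Sum.inl y) ↔ G.Adj x y)
    (ha : ∀ w, ∑ y, am H (Sum.inr w) y ≤ (a : ℤ))
    (hb : ∀ x, ∑ w, am H (Sum.inl x) (Sum.inr w) ≤ (b : ℤ)) (hD : MaxDeg G D) :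
    MaxDeg H (max (D + b) a) := by
  rintro (x | w)
  · rw [Fintype.sum_sum_type]
    simp only [am_inl h]
    have := hD x
    have := hb x
    have : ((D + b : ℕ) : ℤ) ≤ ((max (D + b) a : ℕ) : ℤ) := by exact_mod_cast le_max_left _ _
    push_cast at this ⊢
    omega
  · exact (ha w).trans (by exact_mod_cast le_max_right _ _)

theorem degSum_sum {G : SimpleGraph V} {H : SimpleGraph (V ⊕ W)} {E : ℕ} (a : W → ℕ)
    (h : ∀ x y, H.Adj (Sum.inl x) (Sum.inl y) ↔ G.Adj x y)
    (ha : ∀ w, ∑ y, am H (Sum.inr w) y ≤ (a w : ℤ)) (hE : DegSum G E) :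
    DegSum H (E + 2 * ∑ w, a w) := by
  unfold DegSum at hE ⊢
  rw [Fintype.sum_sum_type]
  have h1 : ∑ w, ∑ y, am H (Sum.inr w) y ≤ ∑ w, (a w : ℤ) := Finset.sum_le_sum fun w _ => ha w
  have h2 : ∑ x, ∑ y, am H (Sum.inl x) y ≤ E + ∑ w, (a w : ℤ) := by
    simp only [Fintype.sum_sum_type, Finset.sum_add_distrib, am_inl h]
    refine add_le_add hE ?_
    rw [Finset.sum_comm]
    refine Finset.sum_le_sum fun w _ => le_trans ?_ (ha w)
    rw [Fintype.sum_sum_type]
    simp only [am_comm H (Sum.inl _) (Sum.inr w)]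
    exact le_add_of_nonneg_right (Finset.sum_nonneg fun _ _ => Main.am_nonneg _ _ _)
  push_cast
  omega

theorem degSum_sum' {G : SimpleGraph V} {H : SimpleGraph (V ⊕ W)} {E a : ℕ}
    (h : ∀ x y, H.Adj (Sum.inl x) (Sum.inl y) ↔ G.Adj x y)
    (ha : ∀ w, ∑ y, am H (Sum.inr w) y ≤ (a : ℤ)) (hE : DegSum G E) :
    DegSum H (E + 2 * (Fintype.card W * a)) := by
  have := degSum_sum (fun _ => a) h ha hE
  rwa [Finset.sum_const, card_univ, smul_eq_mul] at this

theorem DegSum.ncard {G : SimpleGraph V} {E : ℕ} (h : DegSum G E) : 2 * G.edgeSet.ncard ≤ E := by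
  classical
  have h1 : ∀ x, ∑ y, am G x y = (G.degree x : ℤ) := fun x => by
    rw [← SimpleGraph.card_neighborFinset_eq_degree, SimpleGraph.neighborFinset_eq_filter,
      Finset.card_filter]
    push_cast
    exact Finset.sum_congr rfl fun y _ => by simp only [am, of_apply]
  unfold DegSum at h
  simp only [h1] at h
  rw [← Nat.cast_sum, SimpleGraph.sum_degrees_eq_twice_card_edges] at h
  rw [← SimpleGraph.coe_edgeFinset, Set.ncard_coe_finset]
  exact_mod_cast h

theorem MaxDeg.iso {G : SimpleGraph V} {H : SimpleGraph W} (e : V ≃ W)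
    (h : ∀ x y, H.Adj (e x) (e y) ↔ G.Adj x y) {D : ℕ} (hD : MaxDeg G D) : MaxDeg H D := by
  intro w
  obtain ⟨x, rfl⟩ := e.surjective w
  rw [← e.sum_comp]
  refine le_trans (le_of_eq (Finset.sum_congr rfl fun y _ => ?_)) (hD x)
  by_cases hxy : G.Adj x y
  · rw [AncAux.am_pos hxy, AncAux.am_pos ((h x y).2 hxy)]
  · rw [AncAux.am_neg hxy, AncAux.am_neg fun h' => hxy ((h x y).1 h')]

theorem DegSum.iso {G : SimpleGraph V} {H : SimpleGraph W} (e : V ≃ W)
    (h : ∀ x y, H.Adj (e x) (e y) ↔ G.Adj x y) {E : ℕ} (hE : DegSum G E) : DegSum H E := by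
  unfold DegSum
  rw [← e.sum_comp]
  refine le_trans (le_of_eq (Finset.sum_congr rfl fun x _ => ?_)) hE
  rw [← e.sum_comp]
  refine Finset.sum_congr rfl fun y _ => ?_
  by_cases hxy : G.Adj x y
  · rw [AncAux.am_pos hxy, AncAux.am_pos ((h x y).2 hxy)]
  · rw [AncAux.am_neg hxy, AncAux.am_neg fun h' => hxy ((h x y).1 h')]

/-! ### the extension -/

theorem ext_a (G : SimpleGraph V) (t0 t1 : V) (l : ℕ) (w : St l) :
    ∑ y, am (extG G t0 t1 l) (Sum.inr w) y ≤ ((6 : ℕ) : ℤ) := by
  have hc : Function.Injective (Sum.map id (Option.map (Prod.map Fin.val id)) :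
      V ⊕ St l → V ⊕ Option (ℕ × Bool)) :=
    Function.injective_id.sumMap (Option.map_injective
      (Fin.val_injective.prodMap Function.injective_id))
  rcases w with _ | ⟨j, c⟩
  · refine (sum_le_code _ _ id _ hc [Sum.inr (some (0, true)), Sum.inr (some (0, false))]
      ?_).trans (by simp)
    rintro (x | _ | ⟨i, c⟩) h <;> simp [extG, SimpleGraph.fromRel_adj, extRel] at h ⊢
    cases c <;> simp [h]
  · refine sum_le_code _ _ id _ hc [Sum.inl t0, Sum.inl t1, Sum.inr none,
      Sum.inr (some (j.val + 1, c)), Sum.inr (some (j.val - 1, c)), Sum.inr (some (j.val, !c))] ?_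
    rintro (x | _ | ⟨i, c'⟩) h <;> simp [extG, SimpleGraph.fromRel_adj, extRel] at h ⊢
    · cases c <;> simp_all
    · obtain ⟨-, h⟩ := h
      cases c <;> cases c' <;> simp at h ⊢ <;> omega

theorem ext_b (G : SimpleGraph V) (t0 t1 : V) (l : ℕ) (x : V) :
    ∑ w, am (extG G t0 t1 l) (Sum.inl x) (Sum.inr w) ≤ ((2 : ℕ) : ℤ) := by
  refine sum_le_code _ _ Sum.inr _ (Option.map_injective
    (Fin.val_injective.prodMap Function.injective_id)) [some (l + 1, true), some (l + 1, false)] ?_
  rintro (_ | ⟨i, c⟩) h <;> simp [extG, SimpleGraph.fromRel_adj, extRel] at h ⊢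
  cases c <;> simp [h.1]

theorem ext_maxDeg {G : SimpleGraph V} {D : ℕ} (h : MaxDeg G D) (t0 t1 : V) (l : ℕ) :
    MaxDeg (extG G t0 t1 l) (D + 6) :=
  (maxDeg_sum (Main.ext_adj G t0 t1 l) (ext_a G t0 t1 l) (ext_b G t0 t1 l) h).mono (by omega)

theorem ext_degSum {G : SimpleGraph V} {E : ℕ} (h : DegSum G E) (t0 t1 : V) (l : ℕ) :
    DegSum (extG G t0 t1 l) (E + 12 * Fintype.card (St l)) :=
  (degSum_sum' (Main.ext_adj G t0 t1 l) (ext_a G t0 t1 l) h).mono (by omega)

/-! ### the core -/

theorem core_a {N k : ℕ} (G : SimpleGraph (Fin (N + k))) (w) :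
    ∑ y, am (coreG G) (Sum.inr w) y ≤ ((8 : ℕ) : ℤ) := by
  rcases w with ⟨x, a⟩ | j
  · refine sum_le_code _ _ id id Function.injective_id
      (Sum.inl x :: List.ofFn fun b : Fin 7 => Sum.inr (Sum.inl (x, b))) ?_
    rintro (y | ⟨y, b⟩ | j) h <;> simp only [coreG, SimpleGraph.fromRel_adj, coreRel, id] at h
    · simp_all
    · have : y = x := by tauto
      subst this
      exact List.mem_cons_of_mem _ ((List.mem_ofFn' _ _).2 ⟨b, rfl⟩)
    · simp at h
  · refine (sum_le_code _ _ id (Sum.map Fin.val id) (Fin.val_injective.sumMap Function.injective_id)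
      [Sum.inl N, Sum.inl (N + 1), Sum.inl (N + j.val - 1)] ?_).trans (by simp)
    rintro (y | ⟨y, b⟩ | j) h <;> simp [coreG, SimpleGraph.fromRel_adj, coreRel] at h ⊢
    omega

theorem core_b {N k : ℕ} (G : SimpleGraph (Fin (N + k))) (x : Fin (N + k)) :
    ∑ w, am (coreG G) (Sum.inl x) (Sum.inr w) ≤ ((3 : ℕ) : ℤ) := by
  refine sum_le_code _ _ Sum.inr (Sum.map id Fin.val)
    (Function.injective_id.sumMap Fin.val_injective)
    [Sum.inl (x, 0), Sum.inr 0, Sum.inr (x.val + 1 - N)] ?_
  rintro (⟨y, b⟩ | j) h <;> simp [coreG, SimpleGraph.fromRel_adj, coreRel] at h ⊢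
  · exact h
  · omega

theorem core_maxDeg {N k D : ℕ} {G : SimpleGraph (Fin (N + k))} (h : MaxDeg G D) :
    MaxDeg (coreG G) (D + 8) :=
  (maxDeg_sum (Main.core_adj G) (core_a G) (core_b G) h).mono (by omega)

theorem core_degSum {N k E : ℕ} {G : SimpleGraph (Fin (N + k))} (h : DegSum G E) :
    DegSum (coreG G) (E + 16 * (7 * N + 8 * k + 1)) :=
  (degSum_sum' (Main.core_adj G) (core_a G) h).mono (by
    simp only [Fintype.card_sum, Fintype.card_prod, Fintype.card_fin]
    omega)

/-! ### the anchor -/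

open AncAux in
theorem anc_degSum {G : SimpleGraph V} {E : ℕ} (h : DegSum G E) (ρ : V) (tw k : ℕ) :
    DegSum (ancG G ρ tw k) (E + 2 * (tw * (tw + 1) + (3 * k + tw))) := by
  refine (degSum_sum (Sum.elim (fun _ => tw + 1) fun i => 3 + if i.val = 0 then tw else 0)
    (Main.anc_adj G ρ tw k) ?_ h).mono ?_
  · rintro (s | i) <;> rw [Fintype.sum_sum_type, Fintype.sum_sum_type]
    · have h1 := sum_le_code (ancG G ρ tw k) (Sum.inr (Sum.inl s)) Sum.inl id
        Function.injective_id [] fun u hu => absurd hu (adj_tl G ρ tw k u s)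
      have h2 := sum_le_card (ancG G ρ tw k) (Sum.inr (Sum.inl s)) (fun u => Sum.inr (Sum.inl u))
        univ fun u _ => mem_univ u
      have h3 := sum_le_code (ancG G ρ tw k) (Sum.inr (Sum.inl s)) (fun u => Sum.inr (Sum.inr u))
        Fin.val Fin.val_injective [0] fun u hu => by simpa using (adj_tp G ρ tw k s u).1 hu
      simp only [List.length_nil, card_univ, Fintype.card_fin, List.length_singleton,
        Sum.elim_inl] at h1 h2 h3 ⊢
      push_cast at h1 h2 h3 ⊢
      omega
    · have h1 := sum_le_code (ancG G ρ tw k) (Sum.inr (Sum.inr i)) Sum.inl id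
        Function.injective_id [ρ] fun u hu => by simpa using ((adj_pl G ρ tw k u i).1 hu).2
      have h2 := sum_le_card (ancG G ρ tw k) (Sum.inr (Sum.inr i)) (fun u => Sum.inr (Sum.inl u))
        (if i.val = 0 then univ else ∅) fun u hu => by simp [(adj_pt G ρ tw k u i).1 hu]
      have h3 := sum_le_code (ancG G ρ tw k) (Sum.inr (Sum.inr i)) (fun u => Sum.inr (Sum.inr u))
        Fin.val Fin.val_injective [i.val + 1, i.val - 1] fun u hu => by
          have := (adj_pp G ρ tw k i u).1 hu
          simp only [List.mem_cons, List.not_mem_nil, or_false]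
          omega
      simp only [List.length_cons, List.length_nil, Sum.elim_inr] at h1 h3 ⊢
      split_ifs at h2 ⊢ <;> simp only [card_univ, Fintype.card_fin, card_empty] at h2 <;>
        push_cast at h1 h2 h3 ⊢ <;> omega
  · rw [Fintype.sum_sum_type]
    simp only [Sum.elim_inl, Sum.elim_inr, Finset.sum_const, card_univ, Fintype.card_fin,
      smul_eq_mul, Finset.sum_add_distrib]
    have : ∑ i : Fin k, (if i.val = 0 then tw else 0) ≤ tw := by
      rw [← Finset.sum_filter, Finset.sum_const, smul_eq_mul]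
      refine (Nat.mul_le_mul_right _ (Finset.card_le_one.2 fun a ha b hb => Fin.ext ?_)).trans
        (by omega)
      simp only [mem_filter] at ha hb
      omega
    omega

open AncAux in
theorem front2 (G : SimpleGraph V) (ρ : V) (tw k D : ℕ) (hD : MaxDeg G D) (hk : 1 ≤ k)
    (htw : 2 * (D + 3) + 2 ≤ tw) :
    Front (ancLay ρ tw k) (ancG G ρ tw k) (k + 1) (D + 3) (ancP ρ tw k) where
  layered := layered G ρ tw k
  two_le := by omega
  clique := by
    intro x y hx hy hxy
    obtain ⟨s, rfl⟩ := lay_zero ρ tw k hx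
    obtain ⟨s', rfl⟩ := lay_zero ρ tw k hy
    rw [adj_tt]
    rintro rfl
    exact hxy rfl
  pv_lay := by
    intro j h1 h2
    by_cases h : j = k + 1
    · rw [h, ancP_top, lay_rho]
    · have e := ancP_path ρ tw k ⟨j - 1, by omega⟩
      simp only at e
      rw [show j - 1 + 1 = j by omega] at e
      rw [e]
      simp only [ancLay]
      omega
  pv_uniq := by
    intro x h1 h2
    rcases x with x | s | i
    · by_cases h : x = ρ
      · rw [h, lay_rho, ancP_top]
      · simp only [ancLay, if_neg h] at h2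
        omega
    · simp [ancLay] at h1
    · exact (ancP_path ρ tw k i).symm
  pv_adj := by
    intro x hx
    rcases x with x | s | i
    · have := lay_inl ρ tw k x
      omega
    · have e := ancP_path ρ tw k ⟨0, by omega⟩
      simp only at e
      change (ancG G ρ tw k).Adj _ (ancP ρ tw k (0 + 1))
      rw [e, adj_tp]
    · exact adj_next G ρ tw k i
  deg := by
    intro x hx
    rw [Fintype.sum_sum_type, Fintype.sum_sum_type]
    have h2 : ∑ s : Fin tw, up (ancLay ρ tw k) 1 (am (ancG G ρ tw k)) x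
        (Sum.inr (Sum.inl s)) = 0 := Finset.sum_eq_zero fun s _ => by simp [up, ancLay]
    have h1 := Finset.sum_le_sum (s := univ) fun (y : V) _ =>
      up_le tw k (ancLay ρ tw k) (ancG G ρ tw k) x (Sum.inl y)
    have h3 := Finset.sum_le_sum (s := univ) fun (j : Fin k) _ =>
      up_le tw k (ancLay ρ tw k) (ancG G ρ tw k) x (Sum.inr (Sum.inr j))
    rcases x with x | s | i
    · simp only [am_inl (Main.anc_adj G ρ tw k)] at h1
      have h4 := sum_le_code (ancG G ρ tw k) (Sum.inl x) (fun u => Sum.inr (Sum.inr u))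
        Fin.val Fin.val_injective [k - 1] fun u hu => by
          have := (adj_lp G ρ tw k x u).1 hu
          simp only [List.mem_singleton]
          omega
      have := hD x
      simp only [List.length_singleton] at h4
      push_cast at h4 ⊢
      omega
    · simp [ancLay] at hx
    · have h4 := sum_le_code (ancG G ρ tw k) (Sum.inr (Sum.inr i)) Sum.inl id
        Function.injective_id [ρ] fun u hu => by simpa using ((adj_pl G ρ tw k u i).1 hu).2
      have h5 := sum_le_code (ancG G ρ tw k) (Sum.inr (Sum.inr i)) (fun u => Sum.inr (Sum.inr u))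
        Fin.val Fin.val_injective [i.val + 1, i.val - 1] fun u hu => by
          have := (adj_pp G ρ tw k i u).1 hu
          simp only [List.mem_cons, List.not_mem_nil, or_false]
          omega
      simp only [List.length_cons, List.length_nil] at h4 h5
      push_cast at h4 h5 ⊢
      omega
  big := by rw [card_L0]; exact htw

open AncDSAux in
/-- The anchored graph with a small clique. -/
theorem anc_all (G : SimpleGraph V) (t : Fin 1 → V) (tw k D : ℕ) (hD : MaxDeg G D)
    (h1 : k % 3 = 1) (h2 : 2 * (D + 3) + 2 ≤ tw) (h3 : Fintype.card V + 2 ≤ k) (hP : Pre G t)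
    (hRig : Rigid G t) :
    (ancG G (t 0) tw k).Connected ∧
      (∀ x, ∃ y z, y ≠ z ∧ (ancG G (t 0) tw k).Adj x y ∧ (ancG G (t 0) tw k).Adj x z) ∧
      DSV (ancG G (t 0) tw k) := by
  have hk1 : 1 ≤ k := by omega
  refine ⟨AncAux.connected G _ tw k hk1 fun x => ?_,
    AncAux.two_nb G _ tw k hk1 (by omega) ?_ fun x hx => ?_, ?_⟩
  · obtain ⟨i, hi⟩ := hP.reach x
    rwa [Subsingleton.elim (α := Fin 1) i 0] at hi
  · by_contra h
    have e := hP.deg0
    rw [Finset.sum_eq_zero fun y _ => AncAux.am_neg fun h' => h ⟨y, h'⟩] at e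
    exact absurd e (by norm_num)
  · exact hP.two x fun i => by rwa [Subsingleton.elim (α := Fin 1) i 0]
  intro H0 hc
  have hR := pRestr
  have F := front2 G (t 0) tw k D hD hk1 h2
  have hK := AncAux.ker_ok G tw k t h1 hP.ker ⟨0, by omega⟩
  have hU := AncAux.card_U (t 0) tw k
  obtain ⟨H, ⟨hg, ⟨e0⟩⟩, ha, -⟩ := SX.Main.phaseA (pTop pSim) F
    (SX.Main.phase0 (pTwins pSim) F rfl hK hc) (k + 1) le_rfl
  obtain ⟨d1, d2⟩ := pOne pGlue pBasic pSep _ _ _ H _ _ _ F hg ha.1 (by omega)
  have hp : ancP (t 0) tw k (k + 1) = Sum.inl (t 0) := dif_neg (by omega)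
  rw [(restr hR H).1, (restr hR _).1, comap_anc] at d1
  obtain ⟨e, he⟩ := hRig (H.comap Sum.inl) t d1 fun j i i' => by
    have := d2 j
    rw [hp, (restr hR H).2, (restr hR _).2, comap_anc] at this
    rwa [Subsingleton.elim i 0, Subsingleton.elim i' 0]
  have he' : ∀ x, e x = t 0 ↔ x = t 0 := fun x =>
    ⟨fun h => e.injective (h.trans (he 0).symm), fun h => h ▸ he 0⟩
  have key : ∀ u b, H.Adj (Sum.inr u) (Sum.map e id b) ↔
      (ancG G (t 0) tw k).Adj (Sum.inr u) b := fun u b => by
    rw [ha.1 _ _ (lay_inr u)]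
    rcases b with y | w
    · exact adj_cross G u (he' y)
    · exact Iff.rfl
  refine ⟨e0.trans (RelIso.symm (⟨Equiv.sumCongr e.toEquiv (Equiv.refl _), ?_⟩ :
    ancG G (t 0) tw k ≃g H))⟩
  rintro (x | u) b
  · rcases b with y | w
    · exact (e.map_adj_iff (v := x) (w := y)).trans (Main.anc_adj G _ tw k x y).symm
    · rw [H.adj_comm, (ancG G (t 0) tw k).adj_comm]
      exact key w (Sum.inl x)
  · exact key u b

end Trk

end Pool.Agent.P.MP_f57657_co.SY
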