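import Pool.Agent.P.MP_f57657_co.SZ.Defs
import Pool.Agent.P.MP_f57657_co.SZ.Trk

/-! Seeds: layers joined by matchings, with a bipartite graph inside each layer. -/

open Matrix Finset

set_option linter.unusedSectionVars false

namespace Pool.Agent.P.MP_f57657_co.SZ

open SX SY SY.Trk

namespace SeedAux

section General

variable {V : Type} [Fintype V] [DecidableEq V]

theorem dg_cast (H : SimpleGraph V) (x : V) : (dg H x : ℤ) = ∑ y, am H x y := by
  unfold dg
  rw [Finset.card_filter]
  push_cast
  exact Finset.sum_congr rfl fun y _ => by simp only [am, of_apply]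

theorem maxDeg_iff (H : SimpleGraph V) (D : ℕ) : MaxDeg H D ↔ ∀ x, dg H x ≤ D :=
  forall_congr' fun x => by rw [← dg_cast]; exact Int.ofNat_le

theorem degSum_iff (H : SimpleGraph V) (E : ℕ) : DegSum H E ↔ ed H ≤ E := by
  unfold DegSum ed
  simp only [← dg_cast]
  rw [← Nat.cast_sum]
  exact Int.ofNat_le

theorem am_fromRel_le (r : V → V → Prop) [DecidableRel r] (x y : V) :
    am (SimpleGraph.fromRel r) x y ≤ (if r x y then 1 else 0) + if r y x then 1 else 0 := by
  by_cases h : (SimpleGraph.fromRel r).Adj x y
  · rw [AncAux.am_pos h]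
    rcases ((SimpleGraph.fromRel_adj r x y).1 h).2 with h | h
    · rw [if_pos h]; split_ifs <;> simp
    · rw [if_pos h]; split_ifs <;> simp
  · rw [AncAux.am_neg h]
    split_ifs <;> simp

open Classical in
theorem degSum_fromRel (r : V → V → Prop) (c : V → ℕ)
    (h : ∀ x, (univ.filter fun y => r x y).card ≤ c x) :
    DegSum (SimpleGraph.fromRel r) (2 * ∑ x, c x) := by
  have h1 : ∑ x, ∑ y, (if r x y then (1 : ℤ) else 0) ≤ ∑ x, (c x : ℤ) :=
    Finset.sum_le_sum fun x _ => by
      have := h x
      rw [Finset.card_filter] at this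
      exact_mod_cast this
  have h2 : ∑ x, ∑ y, (if r y x then (1 : ℤ) else 0) ≤ ∑ x, (c x : ℤ) := by
    rw [Finset.sum_comm]; exact h1
  unfold DegSum
  refine le_trans (Finset.sum_le_sum fun x _ => Finset.sum_le_sum fun y _ =>
    am_fromRel_le r x y) ?_
  simp only [Finset.sum_add_distrib]
  push_cast
  linarith

end General

variable {A P Q : Type} [Fintype A] [DecidableEq A] [Fintype P] [DecidableEq P] [Fintype Q]
  [DecidableEq Q] {L : ℕ}

/-- One orientation of the edges of a seed. -/
def seedRel (σ : Fin L → A → P → Q) (x y : Fin L × (A ⊕ P × Q)) : Prop :=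
  (x.2 = y.2 ∧ y.1.val = x.1.val + 1) ∨
    (x.1 = y.1 ∧ ∃ a g, x.2 = Sum.inl a ∧ y.2 = Sum.inr (g, σ x.1 a g))

/-- The seed. -/
def seedG (σ : Fin L → A → P → Q) : SimpleGraph (Fin L × (A ⊕ P × Q)) :=
  SimpleGraph.fromRel (seedRel σ)

variable (σ : Fin L → A → P → Q)

theorem seed_adj (l : Fin L) (a : A) (g : P) (c : Q) :
    (seedG σ).Adj (l, Sum.inl a) (l, Sum.inr (g, c)) ↔ c = σ l a g := by
  simp [seedG, SimpleGraph.fromRel_adj, seedRel]

theorem seed_inj :
    Function.Injective (seedG : (Fin L → A → P → Q) → SimpleGraph (Fin L × (A ⊕ P × Q))) := by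
  intro σ τ hG
  funext l a g
  rw [← seed_adj τ, ← hG, seed_adj]

theorem seed_cases {x y : Fin L × (A ⊕ P × Q)} (hxy : (seedG σ).Adj x y) :
    (x.2 = y.2 ∧ y.1.val = x.1.val + 1) ∨ (x.2 = y.2 ∧ x.1.val = y.1.val + 1) ∨ x.1 = y.1 := by
  rcases ((SimpleGraph.fromRel_adj _ x y).1 hxy).2 with (h1 | ⟨h1, _⟩) | (h1 | ⟨h1, _⟩)
  · exact Or.inl h1
  · exact Or.inr (Or.inr h1)
  · exact Or.inr (Or.inl ⟨h1.1.symm, h1.2⟩)
  · exact Or.inr (Or.inr h1.symm)

/-- The first layer controls the seed over every commutative ring. -/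
theorem seed_ctrl (F : Type) [CommRing F] (θ : F) (f : Fin L × (A ⊕ P × Q) → F)
    (h0 : ∀ x : Fin L × (A ⊕ P × Q), x.1.val = 0 → f x = 0)
    (hf : ∀ x, ∑ y, ((am (seedG σ) x y : ℤ) : F) * f y = θ * f x) (x : Fin L × (A ⊕ P × Q)) :
    f x = 0 := by
  have key : ∀ m : ℕ, ∀ x : Fin L × (A ⊕ P × Q), x.1.val ≤ m → f x = 0 := by
    intro m
    induction m with
    | zero => exact fun x hx => h0 x (by omega)
    | succ m ih =>
      intro x hx
      by_cases hm : x.1.val ≤ m
      · exact ih x hm
      have hL := x.1.isLt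
      let z : Fin L × (A ⊕ P × Q) := (⟨m, by omega⟩, x.2)
      have hz := hf z
      rw [ih z (le_refl m), mul_zero, Finset.sum_eq_single x] at hz
      · have ha : (seedG σ).Adj z x := by
          refine (SimpleGraph.fromRel_adj _ z x).2 ⟨fun e => ?_, Or.inl (Or.inl ⟨rfl, ?_⟩)⟩
          · have := congrArg (fun q : Fin L × (A ⊕ P × Q) => q.1.val) e
            simp only [z] at this
            omega
          · simp only [z]
            omega
        rw [AncAux.am_pos ha] at hz
        simpa using hz
      · intro y _ hy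
        by_cases ha : (seedG σ).Adj z y
        · have : y.1.val ≤ m := by
            rcases seed_cases σ ha with h1 | h1 | h1
            · exfalso
              apply hy
              refine Prod.ext (Fin.ext ?_) h1.1.symm
              have := h1.2
              simp only [z] at this
              omega
            · have := h1.2
              simp only [z] at this
              omega
            · have := congrArg Fin.val h1
              simp only [z] at this
              omega
          rw [ih y this, mul_zero]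
        · rw [AncAux.am_neg ha]
          simp
      · simp
  exact key _ x (le_refl _)

theorem seed_maxDeg : MaxDeg (seedG σ) (Fintype.card (A ⊕ P × Q) + 2) := by
  intro x
  have := sum_le_code (seedG σ) x id
    (fun y : Fin L × (A ⊕ P × Q) => (y.1.val, y.2)) (fun y y' e => by
      simp only [Prod.mk.injEq] at e
      exact Prod.ext (Fin.ext e.1) e.2)
    ((x.1.val + 1, x.2) :: (x.1.val - 1, x.2) :: (univ : Finset (A ⊕ P × Q)).toList.map fun b =>
      (x.1.val, b)) fun y hy => by
      simp only [List.mem_cons, Prod.mk.injEq, List.mem_map, Finset.mem_toList, mem_univ,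
        true_and]
      rcases seed_cases σ hy with h1 | h1 | h1
      · exact Or.inl ⟨h1.2, h1.1.symm⟩
      · exact Or.inr (Or.inl ⟨by have := h1.2; simp only [id] at this; omega, h1.1.symm⟩)
      · exact Or.inr (Or.inr ⟨y.2, congrArg Fin.val h1, rfl⟩)
  simp only [List.length_cons, List.length_map, Finset.length_toList, card_univ, id] at this
  push_cast at this ⊢
  linarith

theorem seed_degSum : DegSum (seedG σ) (2 * (L * (Fintype.card A * (1 + Fintype.card P) +
    Fintype.card P * Fintype.card Q))) := by
  classical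
  refine (degSum_fromRel (seedRel σ)
    (fun x => 1 + x.2.elim (fun _ => Fintype.card P) fun _ => 0) ?_).mono ?_
  · rintro ⟨l, i⟩
    have h1 : (univ.filter fun y : Fin L × (A ⊕ P × Q) =>
        i = y.2 ∧ y.1.val = l.val + 1).card ≤ 1 :=
      Finset.card_le_one.2 fun y hy y' hy' => by
        simp only [mem_filter, mem_univ, true_and] at hy hy'
        exact Prod.ext (Fin.ext (by omega)) (hy.1.symm.trans hy'.1)
    have h2 : (univ.filter fun y : Fin L × (A ⊕ P × Q) => l = y.1 ∧ ∃ a g, i = Sum.inl a ∧
        y.2 = Sum.inr (g, σ l a g)).card ≤ i.elim (fun _ => Fintype.card P) fun _ => 0 := by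
      rcases i with a | a
      · simp only [Sum.elim_inl]
        refine le_trans (Finset.card_le_card
          (t := univ.image fun g => (l, Sum.inr (g, σ l a g))) fun y hy => ?_)
          (Finset.card_image_le.trans (card_univ (α := P)).le)
        simp only [mem_filter, mem_univ, true_and] at hy
        obtain ⟨e1, a', g, e2, e3⟩ := hy
        obtain rfl := Sum.inl_injective e2
        exact Finset.mem_image.2 ⟨g, mem_univ _, Prod.ext e1 e3.symm⟩
      · simp
    refine le_trans (Finset.card_le_card fun y hy => ?_)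
      ((Finset.card_union_le _ _).trans (Nat.add_le_add h1 h2))
    have := (Finset.mem_filter.1 hy).2
    simpa only [mem_filter, mem_univ, true_and, mem_union, seedRel] using this
  · simp only [Fintype.sum_prod_type, Fintype.sum_sum_type, Sum.elim_inl, Sum.elim_inr,
      Finset.sum_const, card_univ, Fintype.card_fin, smul_eq_mul, Fintype.card_prod]
    exact le_of_eq (by ring)

end SeedAux

open SeedAux in
theorem pSeed : StSeed := by
  intro δ t s
  have hc : ∀ (σ : Fin (s + 1) → Fin (δ * t) → Fin δ → Fin t) (F : Type) [Field F],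
      CF F (seedG σ) fun x : Fin (δ * t) ⊕ Fin δ × Fin t => (0, x) := by
    intro σ F _ θ f hf h0
    funext x
    refine seed_ctrl σ F θ f (fun y hy => ?_) hf.1 x
    obtain ⟨l, i⟩ := y
    obtain rfl : l = 0 := Fin.ext hy
    exact h0 i
  refine ⟨seedG, seed_inj, fun σ => ⟨⟨hc σ ℝ, fun p => hc σ _⟩, ?_, ?_⟩⟩
  · refine (degSum_iff _ _).1 ((seed_degSum σ).mono (le_of_eq ?_))
    simp only [Fintype.card_fin]
    ring
  · refine (maxDeg_iff _ _).1 ((seed_maxDeg σ).mono (le_of_eq ?_))
    simp only [Fintype.card_sum, Fintype.card_prod, Fintype.card_fin]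
    ring

end Pool.Agent.P.MP_f57657_co.SZ
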