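import Pool.Agent.P.MP_f57657_co.SZ.Defs

/-! Tails and control after one step, and adjacency in the step and root graphs. -/

open Matrix Finset

namespace Pool.Agent.P.MP_f57657_co.SZ

open SX SY

namespace StepTAux

variable {W : Type} [Fintype W] [DecidableEq W]

omit [Fintype W] [DecidableEq W] in
theorem step_ll (H : SimpleGraph W) (b : W → Bool) (L : ℕ) (x y : W) :
    (stepG H b L).Adj (Sum.inl x) (Sum.inl y) ↔ H.Adj x y := by
  unfold stepG
  rw [SimpleGraph.fromRel_adj]
  constructor
  · rintro ⟨_, h | h⟩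
    · exact h
    · exact SimpleGraph.Adj.symm h
  · intro h
    exact ⟨fun e => h.ne (Sum.inl.inj e), Or.inl h⟩

omit [Fintype W] [DecidableEq W] in
theorem step_lr (H : SimpleGraph W) (b : W → Bool) (L : ℕ) (x : W) (i : Fin (L + 1)) :
    (stepG H b L).Adj (Sum.inl x) (Sum.inr i) ↔ i.val = L ∧ b x = true := by
  unfold stepG
  rw [SimpleGraph.fromRel_adj]
  constructor
  · rintro ⟨_, h | h⟩
    · exact h.elim
    · exact h
  · intro h
    exact ⟨Sum.inl_ne_inr, Or.inr h⟩

omit [Fintype W] [DecidableEq W] in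
theorem step_rl (H : SimpleGraph W) (b : W → Bool) (L : ℕ) (x : W) (i : Fin (L + 1)) :
    (stepG H b L).Adj (Sum.inr i) (Sum.inl x) ↔ i.val = L ∧ b x = true := by
  rw [SimpleGraph.adj_comm]
  exact step_lr H b L x i

omit [Fintype W] [DecidableEq W] in
theorem step_rr (H : SimpleGraph W) (b : W → Bool) (L : ℕ) (i j : Fin (L + 1)) :
    (stepG H b L).Adj (Sum.inr i) (Sum.inr j) ↔ j.val = i.val + 1 ∨ i.val = j.val + 1 := by
  unfold stepG
  rw [SimpleGraph.fromRel_adj]
  constructor
  · rintro ⟨_, h⟩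
    exact h
  · intro h
    refine ⟨fun e => ?_, h⟩
    have e' : i = j := Sum.inr.inj e
    subst e'
    omega

omit [Fintype W] [DecidableEq W] in
theorem root_ll (H : SimpleGraph W) (R : ℕ → W → Bool) (k : ℕ) (x y : W) :
    (rootG H R k).Adj (Sum.inl x) (Sum.inl y) ↔ H.Adj x y := by
  unfold rootG
  rw [SimpleGraph.fromRel_adj]
  constructor
  · rintro ⟨_, h | h⟩
    · exact h
    · exact SimpleGraph.Adj.symm h
  · intro h
    exact ⟨fun e => h.ne (Sum.inl.inj e), Or.inl h⟩

omit [Fintype W] [DecidableEq W] in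
theorem root_lr (H : SimpleGraph W) (R : ℕ → W → Bool) (k : ℕ) (x : W) (i : Fin k) :
    (rootG H R k).Adj (Sum.inl x) (Sum.inr i) ↔ R i x = true := by
  unfold rootG
  rw [SimpleGraph.fromRel_adj]
  constructor
  · rintro ⟨_, h | h⟩
    · exact h.elim
    · exact h
  · intro h
    exact ⟨Sum.inl_ne_inr, Or.inr h⟩

omit [Fintype W] [DecidableEq W] in
theorem am_apply {V : Type} [Fintype V] [DecidableEq V] {F : Type} [Field F] (G : SimpleGraph V)
    (x y : V) :
    (G.Adj x y → ((am G x y : ℤ) : F) = 1) ∧ (¬ G.Adj x y → ((am G x y : ℤ) : F) = 0) := by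
  constructor
  · intro h
    simp [am, h]
  · intro h
    simp [am, h]

/-- An eigenvector that vanishes on the new vertices restricts to an eigenvector. -/
theorem restr {U : Type} [Fintype U] [DecidableEq U] {F : Type} [Field F] (H : SimpleGraph W)
    (G : SimpleGraph (W ⊕ U)) (hs : ∀ x y, G.Adj (Sum.inl x) (Sum.inl y) ↔ H.Adj x y) (θ : F)
    (f : W ⊕ U → F) (hf : ∀ x, ∑ y, ((am G x y : ℤ) : F) * f y = θ * f x)
    (h0 : ∀ u, f (Sum.inr u) = 0) (x : W) :
    ∑ y, ((am H x y : ℤ) : F) * f (Sum.inl y) = θ * f (Sum.inl x) := by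
  have h := hf (Sum.inl x)
  rw [Fintype.sum_sum_type] at h
  have h2 : ∑ u : U, ((am G (Sum.inl x) (Sum.inr u) : ℤ) : F) * f (Sum.inr u) = 0 :=
    Finset.sum_eq_zero fun u _ => by rw [h0 u, mul_zero]
  rw [h2, add_zero] at h
  rw [← h]
  refine Finset.sum_congr rfl fun y _ => ?_
  by_cases hxy : H.Adj x y
  · rw [(am_apply H x y).1 hxy, (am_apply G _ _).1 ((hs x y).2 hxy)]
  · rw [(am_apply H x y).2 hxy, (am_apply G _ _).2 fun h' => hxy ((hs x y).1 h')]

/-- An eigenvector of the step graph that vanishes at the free end vanishes on the new path. -/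
theorem path_zero {F : Type} [Field F] (H : SimpleGraph W) (b : W → Bool) (L : ℕ) (θ : F)
    (f : W ⊕ Fin (L + 1) → F)
    (hf : ∀ x, ∑ y, ((am (stepG H b L) x y : ℤ) : F) * f y = θ * f x)
    (h0 : ∀ i : Fin (L + 1), i.val = 0 → f (Sum.inr i) = 0) :
    ∀ n, ∀ i : Fin (L + 1), i.val ≤ n → f (Sum.inr i) = 0 := by
  intro n
  induction n with
  | zero => exact fun i hi => h0 i (Nat.le_zero.1 hi)
  | succ n ih =>
    intro i hi
    by_cases hn : i.val ≤ n
    · exact ih i hn
    have hi1 : i.val = n + 1 := by omega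
    have hiL := i.isLt
    have hnL : n < L + 1 := by omega
    have h := hf (Sum.inr ⟨n, hnL⟩)
    rw [Fintype.sum_sum_type] at h
    have h1 : ∑ x : W, ((am (stepG H b L) (Sum.inr ⟨n, hnL⟩) (Sum.inl x) : ℤ) : F) *
        f (Sum.inl x) = 0 := by
      refine Finset.sum_eq_zero fun x _ => ?_
      rw [(am_apply (stepG H b L) _ _).2, zero_mul]
      rw [step_rl]
      rintro ⟨h', _⟩
      simp only at h'
      omega
    have h2 : ∑ k : Fin (L + 1), ((am (stepG H b L) (Sum.inr ⟨n, hnL⟩) (Sum.inr k) : ℤ) : F) *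
        f (Sum.inr k) = f (Sum.inr i) := by
      rw [Finset.sum_eq_single i]
      · rw [(am_apply (stepG H b L) _ _).1, one_mul]
        rw [step_rr]
        exact Or.inl hi1
      · intro k _ hk
        by_cases hkn : k.val ≤ n
        · rw [ih k hkn, mul_zero]
        · rw [(am_apply (stepG H b L) _ _).2, zero_mul]
          rw [step_rr]
          rintro (h' | h')
          · simp only at h'
            exact hk (Fin.ext (by omega))
          · simp only at h'
            omega
      · intro h'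
        exact absurd (Finset.mem_univ i) h'
    rw [h1, h2, zero_add, ih ⟨n, hnL⟩ le_rfl, mul_zero] at h
    exact h

/-- Control of the root graph over one field. -/
theorem root_cf {F : Type} [Field F] (H : SimpleGraph W) (R : ℕ → W → Bool) (k : ℕ)
    (hd : ∀ θ : F, dm F H θ R k ≤ 0) :
    CF F (rootG H R k) (Sum.inr : Fin k → W ⊕ Fin k) := by
  intro θ f hf h0
  have hg : (fun x => f (Sum.inl x)) ∈ Sol F H θ R k := by
    refine ⟨restr H (rootG H R k) (root_ll H R k) θ f hf.1 h0, fun i hi => ?_⟩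
    have h := hf.1 (Sum.inr ⟨i, hi⟩)
    rw [Fintype.sum_sum_type] at h
    have h2 : ∑ u : Fin k, ((am (rootG H R k) (Sum.inr ⟨i, hi⟩) (Sum.inr u) : ℤ) : F) *
        f (Sum.inr u) = 0 := Finset.sum_eq_zero fun u _ => by rw [h0 u, mul_zero]
    rw [h2, add_zero, h0, mul_zero] at h
    rw [← h]
    unfold dotW
    refine Finset.sum_congr rfl fun x _ => ?_
    by_cases hx : R i x = true
    · rw [if_pos hx, (am_apply (rootG H R k) _ _).1, one_mul]
      rw [SimpleGraph.adj_comm, root_lr]
      exact hx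
    · rw [if_neg hx, (am_apply (rootG H R k) _ _).2, zero_mul]
      rw [SimpleGraph.adj_comm, root_lr]
      exact hx
  have hb : Sol F H θ R k = ⊥ := Submodule.finrank_eq_zero.1 (Nat.le_zero.1 (hd θ))
  rw [hb, Submodule.mem_bot] at hg
  funext z
  rcases z with x | i
  · exact congrFun hg x
  · exact h0 i

end StepTAux

open StepTAux

theorem pStepT : StStepT := by
  intro W _ _ ι H P s w b L hT _ hsL hb
  refine ⟨⟨?_, ?_⟩, ?_⟩
  · intro t t' j j' hj hj' h
    rcases t with _ | t <;> rcases t' with _ | t'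
    · have h' : min j L = min j' L := congrArg Fin.val (Sum.inr.inj h)
      exact ⟨rfl, by omega⟩
    · exact absurd h Sum.inr_ne_inl
    · exact absurd h Sum.inl_ne_inr
    · have h' := hT.inj t t' j j' (by omega) (by omega) (Sum.inl.inj h)
      exact ⟨congrArg some h'.1, h'.2⟩
  · intro t j y hj
    rcases t with _ | t <;> rcases y with x | i
    · simp only [stepP]
      rw [step_rl]
      constructor
      · rintro ⟨h', _⟩
        simp only at h'
        omega
      · rintro (h' | ⟨_, h'⟩) <;> exact absurd h' Sum.inl_ne_inr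
    · simp only [stepP]
      rw [step_rr]
      simp only [Sum.inr.injEq, Fin.ext_iff]
      omega
    · simp only [stepP]
      rw [step_ll, hT.nbr t j x (by omega)]
      simp only [Sum.inl.injEq]
    · simp only [stepP]
      rw [step_lr, hb t j hj]
      constructor
      · rintro ⟨_, h'⟩
        exact absurd h' Bool.false_ne_true
      · rintro (h' | ⟨_, h'⟩) <;> exact absurd h' Sum.inr_ne_inl
  · intro F _ hC θ f hf h0
    have hr : ∀ i : Fin (L + 1), f (Sum.inr i) = 0 := by
      intro i
      refine path_zero H b L θ f hf.1 (fun i hi => ?_) i.val i le_rfl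
      have h := h0 none
      simp only [stepP] at h
      have e : i = ⟨min 0 L, Nat.lt_succ_of_le (min_le_right 0 L)⟩ := Fin.ext (by simp [hi])
      rw [e]
      exact h
    have hg : (fun x => f (Sum.inl x)) ∈ Sol F H θ noR 0 :=
      ⟨restr H (stepG H b L) (step_ll H b L) θ f hf.1 hr, fun i hi => absurd hi (Nat.not_lt_zero i)⟩
    have hz := hC θ _ hg fun t => h0 (some t)
    funext z
    rcases z with x | i
    · exact congrFun hz x
    · exact hr i

theorem pAdj : StAdj := by
  intro W _ _ H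
  refine ⟨fun b L => ⟨step_ll H b L, fun x i h => ((step_lr H b L x i).1 h).2⟩,
    fun R k => ⟨root_ll H R k, fun x i h => (root_lr H R k x i).1 h, fun hR hP => ?_⟩⟩
  exact ⟨root_cf H R k hR, fun p => root_cf H R k fun θ => hP ⟨p, θ⟩⟩

end Pool.Agent.P.MP_f57657_co.SZ
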