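import Pool.Agent.P.MP_f57657_co.SZ.Defs

/-! Weights of the points: few points generate a small subring. -/

open Finset

namespace Pool.Agent.P.MP_f57657_co.SZ

open SX SY

namespace WTAux

theorem big_real (θ : ℝ) (m : ℕ) : Big θ m := by
  refine ⟨(range m).image (fun n : ℕ => (n : ℝ)), ?_, ?_⟩
  · rw [Finset.card_image_of_injective _ Nat.cast_injective, card_range]
  · intro x hx
    obtain ⟨n, _, rfl⟩ := Finset.mem_image.1 hx
    exact natCast_mem _ n

theorem prime_le (p : Nat.Primes) (θ : FF p) (Q : ℕ) (h : ¬ Big θ (Q + 1)) : p.1 ≤ Q := by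
  classical
  by_contra hp
  have hp' : Q + 1 ≤ p.1 := by omega
  apply h
  refine ⟨(range (Q + 1)).image (fun n : ℕ => (n : FF p)), ?_, ?_⟩
  · rw [Finset.card_image_of_injOn, card_range]
    intro a ha b hb hab
    have ha' : a < p.1 := lt_of_lt_of_le (by simpa using ha) hp'
    have hb' : b < p.1 := lt_of_lt_of_le (by simpa using hb) hp'
    exact CharP.natCast_injOn_Iio (FF p) p.1 ha' hb' hab
  · intro x hx
    obtain ⟨n, _, rfl⟩ := Finset.mem_image.1 hx
    exact natCast_mem _ n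

theorem root_of_small {F : Type} [Field F] (θ : F) (Q : ℕ) (h : ¬ Big θ (Q + 1)) :
    θ = 0 ∨ ∃ c, 1 ≤ c ∧ c ≤ Q ∧ θ ^ c = 1 := by
  classical
  by_contra hc
  have h0 : θ ≠ 0 := fun h0 => hc (Or.inl h0)
  have key : ∀ a b : ℕ, a < b → b ≤ Q → θ ^ a ≠ θ ^ b := by
    intro a b hab hb he
    apply hc
    refine Or.inr ⟨b - a, by omega, by omega, ?_⟩
    have h1 : θ ^ b = θ ^ a * θ ^ (b - a) := by
      rw [← pow_add]
      congr 1
      omega
    have h2 : θ ^ a ≠ 0 := pow_ne_zero _ h0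
    have h3 : θ ^ a * 1 = θ ^ a * θ ^ (b - a) := by rw [mul_one, ← h1, he]
    exact (mul_left_cancel₀ h2 h3).symm
  apply h
  refine ⟨(range (Q + 1)).image (fun n : ℕ => θ ^ n), ?_, ?_⟩
  · rw [Finset.card_image_of_injOn, card_range]
    intro a ha b hb hab
    have ha' : a ≤ Q := by simpa [Nat.lt_succ_iff] using ha
    have hb' : b ≤ Q := by simpa [Nat.lt_succ_iff] using hb
    rcases lt_trichotomy a b with h1 | h1 | h1
    · exact absurd hab (key a b h1 hb')
    · exact h1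
    · exact absurd hab.symm (key b a h1 ha')
  · intro x hx
    obtain ⟨n, _, rfl⟩ := Finset.mem_image.1 hx
    exact pow_mem (Subring.subset_closure (Set.mem_singleton θ)) n

theorem small_set (F : Type) [Field F] (Q : ℕ) :
    ∃ T : Finset F, T.card ≤ Q * Q + 1 ∧ ∀ θ : F, ¬ Big θ (Q + 1) → θ ∈ T := by
  classical
  refine ⟨insert 0 ((Icc 1 Q).biUnion fun c => (Polynomial.nthRoots c (1 : F)).toFinset), ?_, ?_⟩
  · refine (Finset.card_insert_le _ _).trans (Nat.succ_le_succ ?_)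
    refine (Finset.card_biUnion_le_card_mul _ _ Q ?_).trans (by simp)
    intro c hc
    exact (Multiset.toFinset_card_le _).trans
      ((Polynomial.card_nthRoots c (1 : F)).trans (Finset.mem_Icc.1 hc).2)
  · intro θ hθ
    rcases root_of_small θ Q hθ with h | ⟨c, h1, h2, h3⟩
    · rw [h]
      exact Finset.mem_insert_self _ _
    · refine Finset.mem_insert_of_mem (Finset.mem_biUnion.2 ⟨c, Finset.mem_Icc.2 ⟨h1, h2⟩, ?_⟩)
      rw [Multiset.mem_toFinset, Polynomial.mem_nthRoots (by omega)]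
      exact h3

theorem card_small (B : Finset Pt) (Q : ℕ) (hQ : 2 ≤ Q)
    (hB : ∀ q ∈ B, ¬ Big q.2 (Q + 1)) : B.card ≤ Q ^ 4 := by
  classical
  have h1 : B.card ≤ (Q * Q + 1) * (range (Q + 1)).card := by
    refine Finset.card_le_mul_card_image_of_maps_to (f := fun q : Pt => q.1.1) ?_ _ ?_
    · intro q hq
      exact Finset.mem_range.2 (Nat.lt_succ_of_le (prime_le q.1 q.2 Q (hB q hq)))
    · intro b _
      by_cases hb : b.Prime
      · obtain ⟨T, hT, hT'⟩ := small_set (FF ⟨b, hb⟩) Q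
        refine le_trans ?_ (Finset.card_image_le.trans hT :
          (T.image fun x => (⟨⟨b, hb⟩, x⟩ : Pt)).card ≤ _)
        refine Finset.card_le_card ?_
        intro q hq
        obtain ⟨hq1, hq2⟩ := Finset.mem_filter.1 hq
        obtain ⟨⟨p, hp⟩, x⟩ := q
        have hpb : p = b := hq2
        subst hpb
        exact Finset.mem_image.2 ⟨x, hT' x (hB _ hq1), rfl⟩
      · have h0 : (B.filter fun q : Pt => q.1.1 = b) = ∅ := by
          refine Finset.filter_eq_empty_iff.2 ?_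
          intro q _ hq
          exact hb (hq ▸ q.1.2)
        rw [h0]
        simp
  rw [card_range] at h1
  refine h1.trans ?_
  obtain ⟨k, rfl⟩ : ∃ k, Q = k + 2 := ⟨Q - 2, by omega⟩
  have h2 : (k + 2) ^ 4 = ((k + 2) * (k + 2) + 1) * (k + 2 + 1) +
      (k ^ 4 + 7 * k ^ 3 + 17 * k ^ 2 + 15 * k + 1) := by ring
  omega

theorem not_big {F : Type} [Field F] (I : ℕ) (θ : F) (h : lev I θ < I) :
    ¬ Big θ (2 ^ (lev I θ + 2) + 1) := by
  classical
  intro hb
  have h1 : lev I θ + 1 ≤ Nat.findGreatest (fun i => Big θ (2 * 2 ^ i + 1)) I := by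
    refine Nat.le_findGreatest (Nat.succ_le_of_lt h) ?_
    have h2 : 2 * 2 ^ (lev I θ + 1) = 2 ^ (lev I θ + 2) := by ring
    rw [h2]
    exact hb
  have h3 : Nat.findGreatest (fun i => Big θ (2 * 2 ^ i + 1)) I ≤ lev I θ := le_max_right _ _
  omega

theorem geo (I : ℕ) : ∑ l ∈ Ico 1 (I + 1), (1 / 2 : ℝ) ^ l ≤ 1 - (1 / 2 : ℝ) ^ I := by
  induction I with
  | zero => simp
  | succ k ih =>
    rw [Finset.sum_Ico_succ_top (by omega), pow_succ]
    linarith

theorem term_le (l D : ℕ) (hl : 1 ≤ l) (hD : 50 ≤ D) :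
    (((2 ^ (l + 2)) ^ 4 : ℕ) : ℝ) * (1 / 2 : ℝ) ^ (l * D) ≤ 1 / 4 * (1 / 2 : ℝ) ^ l := by
  have h1 : (l + 2) * 4 + (2 + l) ≤ l * D := by nlinarith
  have h2 : (1 / 2 : ℝ) ^ (l * D) ≤ (1 / 2 : ℝ) ^ ((l + 2) * 4 + (2 + l)) :=
    pow_le_pow_of_le_one (by norm_num) (by norm_num) h1
  have h3 : (((2 ^ (l + 2)) ^ 4 : ℕ) : ℝ) * (1 / 2 : ℝ) ^ ((l + 2) * 4) = 1 := by
    push_cast
    rw [← pow_mul, ← mul_pow]
    norm_num
  calc (((2 ^ (l + 2)) ^ 4 : ℕ) : ℝ) * (1 / 2 : ℝ) ^ (l * D)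
      ≤ (((2 ^ (l + 2)) ^ 4 : ℕ) : ℝ) * (1 / 2 : ℝ) ^ ((l + 2) * 4 + (2 + l)) :=
        mul_le_mul_of_nonneg_left h2 (Nat.cast_nonneg _)
    _ = (((2 ^ (l + 2)) ^ 4 : ℕ) : ℝ) * (1 / 2 : ℝ) ^ ((l + 2) * 4) * (1 / 2 : ℝ) ^ (2 + l) := by
        rw [pow_add (1 / 2 : ℝ) ((l + 2) * 4), mul_assoc]
    _ = 1 / 4 * (1 / 2 : ℝ) ^ l := by
        rw [h3, pow_add]
        norm_num

end WTAux

open WTAux

theorem pWT : StWT := by
  classical
  refine ⟨fun I θ => ?_, fun B I D hD => ?_⟩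
  · have h : I ≤ Nat.findGreatest (fun i => Big θ (2 * 2 ^ i + 1)) I :=
      Nat.le_findGreatest le_rfl (big_real θ _)
    exact h.trans (le_max_right _ _)
  · have hpos : ∀ k : ℕ, (0 : ℝ) ≤ (1 / 2 : ℝ) ^ k := fun k => by positivity
    have h1 : ∀ q ∈ B, ((1 / 2 : ℝ) ^ lev I q.2) ^ D ≤ (1 / 2 : ℝ) ^ (I * D) +
        ∑ l ∈ Ico 1 (I + 1),
          if ¬ Big q.2 (2 ^ (l + 2) + 1) then (1 / 2 : ℝ) ^ (l * D) else 0 := by
      intro q _
      have hn : ∀ l ∈ Ico 1 (I + 1), (0 : ℝ) ≤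
          if ¬ Big q.2 (2 ^ (l + 2) + 1) then (1 / 2 : ℝ) ^ (l * D) else 0 := by
        intro l _
        split_ifs
        · exact le_rfl
        · exact hpos _
      rw [← pow_mul]
      by_cases hl : lev I q.2 < I
      · have hm : lev I q.2 ∈ Ico 1 (I + 1) :=
          Finset.mem_Ico.2 ⟨le_max_left _ _, by omega⟩
        have h2 := Finset.single_le_sum hn hm
        rw [if_pos (not_big I q.2 hl)] at h2
        exact h2.trans (le_add_of_nonneg_left (hpos _))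
      · have h2 : (1 / 2 : ℝ) ^ (lev I q.2 * D) ≤ (1 / 2 : ℝ) ^ (I * D) :=
          pow_le_pow_of_le_one (by norm_num) (by norm_num)
            (Nat.mul_le_mul_right _ (not_lt.1 hl))
        exact h2.trans (le_add_of_nonneg_right (Finset.sum_nonneg hn))
    refine (Finset.sum_le_sum h1).trans ?_
    rw [Finset.sum_add_distrib, Finset.sum_const, nsmul_eq_mul, add_comm, Finset.sum_comm]
    refine add_le_add ?_ le_rfl
    have h3 : ∀ l ∈ Ico 1 (I + 1), (∑ q ∈ B,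
        if ¬ Big q.2 (2 ^ (l + 2) + 1) then (1 / 2 : ℝ) ^ (l * D) else 0) ≤
        1 / 4 * (1 / 2 : ℝ) ^ l := by
      intro l hl
      rw [← Finset.sum_filter, Finset.sum_const, nsmul_eq_mul]
      refine le_trans (mul_le_mul_of_nonneg_right ?_ (hpos _))
        (term_le l D (Finset.mem_Ico.1 hl).1 hD)
      refine Nat.cast_le.2 (card_small _ _ ?_ fun q hq => (Finset.mem_filter.1 hq).2)
      calc 2 = 2 ^ 1 := rfl
        _ ≤ 2 ^ (l + 2) := Nat.pow_le_pow_right (by norm_num) (by omega)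
    refine (Finset.sum_le_sum h3).trans ?_
    rw [← Finset.mul_sum]
    have h4 := geo I
    have h5 := hpos I
    linarith

end Pool.Agent.P.MP_f57657_co.SZ
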