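import Pool.Agent.P.MP_f57657_co.SX.Count
import Pool.Agent.P.MP_f57657_co.SY.Kry
import Pool.Agent.P.MP_f57657_co.SY.Mod
import Pool.Agent.P.MP_f57657_co.SY.Glue2
import Pool.Agent.P.MP_f57657_co.SY.More
import Pool.Agent.P.MP_f57657_co.SY.PBH
import Pool.Agent.P.MP_f57657_co.SY.ExtA
import Pool.Agent.P.MP_f57657_co.SY.ExtB
import Pool.Agent.P.MP_f57657_co.SY.ExtRigid
import Pool.Agent.P.MP_f57657_co.SY.Core
import Pool.Agent.P.MP_f57657_co.SZ.Main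
import Pool.Agent.P.MP_f57657_co.SZ.Init
import Pool.Agent.P.MP_f57657_co.SZ.StepT
import Pool.Agent.P.MP_f57657_co.SZ.Null
import Pool.Agent.P.MP_f57657_co.SZ.Val
import Pool.Agent.P.MP_f57657_co.SZ.Loc
import Pool.Agent.P.MP_f57657_co.SZ.Seed
import Pool.Agent.P.MP_f57657_co.SZ.Degs
import Pool.Agent.P.MP_f57657_co.SZ.AncF
import Pool.Agent.P.MP_f57657_co.SZ.AC
import Pool.Agent.P.MP_f57657_co.SZ.LO2
import Pool.Agent.P.MP_f57657_co.SZ.Win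
import Pool.Agent.P.MP_f57657_co.SZ.WT
import Pool.Agent.P.MP_f57657_co.SZ.Cand
import Pool.Agent.P.MP_f57657_co.SZ.Orc
import Pool.Agent.P.MP_f57657_co.SZ.Iter
import Pool.Agent.P.MP_f57657_co.SZ.Red
import Pool.Agent.P.MP_f57657_co.SZ.AsyD

/-! All packages put together. -/

namespace Pool.Agent.P.MP_f57657_co.SZ

open SX SY

theorem main_all : ∃ c : ℝ, 0 < c ∧ ∃ d0 n0 : ℕ, ∀ n ≥ n0, ∀ d ≥ d0, d ≤ n →
    ∃ S : Finset (SimpleGraph (Fin n)), GoodFamily (d * n) S ∧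
      Real.exp (c * d * n * Real.log (2 * (n : ℝ) / d)) ≤ S.card :=
  main_of pKry pPBH pExtPre (pExtRigid pKry pMod pRestr (pMore pGlue2) pExtPaths) pCorePre pCount
    pSeed (pRed pInit pStepT pVal pAdj (pIter pNul) pRoots) pLoc (pOrc0 pAC pCand pHit)
    (pOrc1 pVal pAC (pRho pLO2) pWT pCand pHit) pFinT pDegs pAncF pAsyD

end Pool.Agent.P.MP_f57657_co.SZ
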