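import Pool.Agent.P.MP_f57657_co.SY.Defs

/-! Interface for the count of graphs determined by their spectrum at every edge density. -/

open Matrix Finset

namespace Pool.Agent.P.MP_f57657_co.SZ

open SX SY

/-- Values of an eigenvector along a pendant path, in units of the value at the free end. -/
def cheb {F : Type} [Field F] (θ : F) : ℕ → F
  | 0 => 1
  | 1 => θ
  | j + 2 => θ * cheb θ (j + 1) - cheb θ j

/-- The subring generated by `θ` has at least `m` elements. -/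
def Big {F : Type} [Field F] (θ : F) (m : ℕ) : Prop :=
  ∃ S : Finset F, m ≤ S.card ∧ ∀ x ∈ S, x ∈ Subring.closure ({θ} : Set F)

open Classical in
/-- The dyadic size of the subring generated by `θ`, cut off at `I`. -/
noncomputable def lev {F : Type} [Field F] (I : ℕ) (θ : F) : ℕ :=
  max 1 (Nat.findGreatest (fun i => Big θ (2 * 2 ^ i + 1)) I)

/-- Bound for the number of bad points. -/
def XX (n : ℕ) : ℕ := (20 * n ^ 3 + 20) * n

section Abstract

variable {W : Type} [Fintype W] [DecidableEq W]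

/-- The sum of the entries of `f` selected by `b`. -/
def dotW {F : Type} [Field F] (b : W → Bool) (f : W → F) : F :=
  ∑ x, if b x = true then f x else 0

/-- Eigenvectors that are killed by the first `j` rows. -/
def Sol (F : Type) [Field F] (H : SimpleGraph W) (θ : F) (R : ℕ → W → Bool) (j : ℕ) :
    Submodule F (W → F) where
  carrier := {f | (∀ x, ∑ y, ((am H x y : ℤ) : F) * f y = θ * f x) ∧
    ∀ i, i < j → dotW (R i) f = 0}
  add_mem' := by
    intro f g hf hg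
    refine ⟨fun x => ?_, fun i hi => ?_⟩
    · simp only [Pi.add_apply, mul_add, Finset.sum_add_distrib, hf.1 x, hg.1 x]
    · have h : dotW (R i) (f + g) = dotW (R i) f + dotW (R i) g := by
        simp only [dotW, ← Finset.sum_add_distrib]
        exact Finset.sum_congr rfl fun x _ => by split_ifs <;> simp
      rw [h, hf.2 i hi, hg.2 i hi, add_zero]
  zero_mem' := ⟨fun _ => by simp, fun _ _ => by simp [dotW]⟩
  smul_mem' := by
    intro c f hf
    refine ⟨fun x => ?_, fun i hi => ?_⟩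
    · simp only [Pi.smul_apply, smul_eq_mul]
      rw [mul_left_comm θ, ← hf.1 x, Finset.mul_sum]
      exact Finset.sum_congr rfl fun l _ => by ring
    · have h : dotW (R i) (c • f) = c * dotW (R i) f := by
        simp only [dotW, Finset.mul_sum]
        exact Finset.sum_congr rfl fun x _ => by split_ifs <;> simp
      rw [h, hf.2 i hi, mul_zero]

/-- Its dimension. -/
noncomputable def dm (F : Type) [Field F] (H : SimpleGraph W) (θ : F) (R : ℕ → W → Bool)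
    (j : ℕ) : ℕ := Module.finrank F (Sol F H θ R j)

/-- No rows. -/
def noR : ℕ → W → Bool := fun _ _ => false

/-- No eigenvector over `F` vanishes at all roots. -/
def CF (F : Type) [Field F] {T : Type} (H : SimpleGraph W) (t : T → W) : Prop :=
  ∀ (θ : F) (f : W → F), f ∈ Sol F H θ noR 0 → (∀ i, f (t i) = 0) → f = 0

/-- Control over the reals and in every prime characteristic. -/
def Ctl {T : Type} (H : SimpleGraph W) (t : T → W) : Prop :=
  CF ℝ H t ∧ ∀ p : Nat.Primes, CF (FF p) H t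

/-- Bound for the real dimensions. -/
def RB (H : SimpleGraph W) (R : ℕ → W → Bool) (j x : ℕ) : Prop := ∀ θ : ℝ, dm ℝ H θ R j ≤ x

/-- Bound for the dimensions in prime characteristic. -/
def PB (H : SimpleGraph W) (R : ℕ → W → Bool) (j y : ℕ) : Prop :=
  ∀ q : Pt, dm (FF q.1) H q.2 R j ≤ y

/-- The rows `b 0, ..., b (e - 1)` hit every point of dimension at least `m` (in prime
characteristic only above a bound `y` for the real dimensions). -/
def Hit (H : SimpleGraph W) (R : ℕ → W → Bool) (j m y : ℕ) (b : ℕ → W → Bool) (e : ℕ) : Prop :=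
  (∀ θ : ℝ, m ≤ dm ℝ H θ R j → ∃ i, i < e ∧ ∃ f ∈ Sol ℝ H θ R j, dotW (b i) f ≠ 0) ∧
  (RB H R j y → ∀ q : Pt, m ≤ dm (FF q.1) H q.2 R j → y < dm (FF q.1) H q.2 R j →
    ∃ i, i < e ∧ ∃ f ∈ Sol (FF q.1) H q.2 R j, dotW (b i) f ≠ 0)

open Classical in
/-- Degree. -/
noncomputable def dg (H : SimpleGraph W) (x : W) : ℕ := (univ.filter fun y => H.Adj x y).card

/-- Sum of the degrees. -/
noncomputable def ed (H : SimpleGraph W) : ℕ := ∑ x, dg H x

/-- One orientation of the edges: a new vertex (index `L`) joined to the row `b`, with a pendant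
path of `L` vertices whose free end has index `0`. -/
def stepRel (H : SimpleGraph W) (b : W → Bool) (L : ℕ) :
    W ⊕ Fin (L + 1) → W ⊕ Fin (L + 1) → Prop
  | Sum.inl x, Sum.inl y => H.Adj x y
  | Sum.inr i, Sum.inr j => j.val = i.val + 1
  | Sum.inr i, Sum.inl x => i.val = L ∧ b x = true
  | _, _ => False

/-- The step. -/
def stepG (H : SimpleGraph W) (b : W → Bool) (L : ℕ) : SimpleGraph (W ⊕ Fin (L + 1)) :=
  SimpleGraph.fromRel (stepRel H b L)

/-- The tails after a step. -/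
def stepP {ι : Type} (P : ι → ℕ → W) (L : ℕ) : Option ι → ℕ → W ⊕ Fin (L + 1)
  | some t, j => Sum.inl (P t j)
  | none, j => Sum.inr ⟨min j L, Nat.lt_succ_of_le (min_le_right j L)⟩

/-- One orientation of the edges: `k` new vertices joined to the first `k` rows. -/
def rootRel (H : SimpleGraph W) (R : ℕ → W → Bool) (k : ℕ) : W ⊕ Fin k → W ⊕ Fin k → Prop
  | Sum.inl x, Sum.inl y => H.Adj x y
  | Sum.inr i, Sum.inl x => R i x = true
  | _, _ => False

/-- The graph with its new roots. -/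
def rootG (H : SimpleGraph W) (R : ℕ → W → Bool) (k : ℕ) : SimpleGraph (W ⊕ Fin k) :=
  SimpleGraph.fromRel (rootRel H R k)

/-- One orientation of the edges: a pendant path with `s` vertices at every root. -/
def initRel {ι : Type} (H : SimpleGraph W) (t : ι → W) (s : ℕ) :
    W ⊕ ι × Fin s → W ⊕ ι × Fin s → Prop
  | Sum.inl x, Sum.inl y => H.Adj x y
  | Sum.inr u, Sum.inr v => u.1 = v.1 ∧ v.2.val = u.2.val + 1
  | Sum.inr u, Sum.inl x => u.2.val + 1 = s ∧ x = t u.1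
  | _, _ => False

/-- The graph with pendant paths. -/
def initG {ι : Type} (H : SimpleGraph W) (t : ι → W) (s : ℕ) : SimpleGraph (W ⊕ ι × Fin s) :=
  SimpleGraph.fromRel (initRel H t s)

/-- The pendant paths, read from the free end. -/
def initP {ι : Type} (t : ι → W) (s : ℕ) (i : ι) (j : ℕ) : W ⊕ ι × Fin s :=
  if h : j < s then Sum.inr (i, ⟨j, h⟩) else Sum.inl (t i)

/-- Disjoint pendant paths of length `s`; the last vertices may have other neighbours. -/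
structure Tails {ι : Type} (H : SimpleGraph W) (P : ι → ℕ → W) (s : ℕ) : Prop where
  inj : ∀ t t' j j', j < s → j' < s → P t j = P t' j' → t = t' ∧ j = j'
  nbr : ∀ t j y, j + 1 < s → (H.Adj (P t j) y ↔ y = P t (j + 1) ∨ (1 ≤ j ∧ y = P t (j - 1)))

end Abstract

/-- `H` is an induced subgraph of `H'` along `e`. -/
def Sub {W W' : Type} (e : W → W') (H : SimpleGraph W) (H' : SimpleGraph W') : Prop :=
  ∀ x y, H'.Adj (e x) (e y) ↔ H.Adj x y

/-- New vertices touch the old graph only at the roots. -/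
def Only {W W' ι : Type} (e : W → W') (t : ι → W) (H' : SimpleGraph W') : Prop :=
  ∀ x y, y ∉ Set.range e → H'.Adj (e x) y → x ∈ Set.range t

/-- Number of vertices used by the reduction of `k` roots to `(2 * m + 1) * e` roots. -/
def gM (k w m e : ℕ) : ℕ := 9 * k * ((8 * k + 1) * w) + 17 * k + (2 * m + 1) * e

/-- Rows on the tails that hit all points: one row for dimension at least `m`, or `e` rows for
dimension at least one. -/
def Orc (w m e n : ℕ) : Prop := ∀ (W : Type) [Fintype W] [DecidableEq W] (ι : Type) [Fintype ι]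
  [DecidableEq ι] (H : SimpleGraph W) (P : ι → ℕ → W) (i : ℕ) (R : ℕ → W → Bool)
  (j m' e' y : ℕ), (m' = m ∧ e' = 1) ∨ (m' = 1 ∧ e' = e) → Tails H P (i * w + 1 + w) →
  Ctl H (fun t => P t 0) → Fintype.card W + j ≤ n →
  ∃ b : ℕ → W → Bool, Hit H R j m' y b e' ∧
    ∀ i' x, b i' x = true → ∃ t l, i * w ≤ l ∧ l < i * w + 1 + w ∧ x = P t l

/-! ### Statements: graphs -/

def StInit : Prop := ∀ (W : Type) [Fintype W] [DecidableEq W] (ι : Type) [Fintype ι]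
  [DecidableEq ι] (H : SimpleGraph W) (t : ι → W) (s : ℕ), 1 ≤ s →
  Tails (initG H t s) (initP t s) s ∧
  (∀ (F : Type) [Field F], CF F H t → CF F (initG H t s) fun i => initP t s i 0) ∧
  Sub Sum.inl H (initG H t s) ∧ Only Sum.inl t (initG H t s)

def StStepT : Prop := ∀ (W : Type) [Fintype W] [DecidableEq W] (ι : Type) (H : SimpleGraph W)
  (P : ι → ℕ → W) (s w : ℕ) (b : W → Bool) (L : ℕ), Tails H P (s + w) → 1 ≤ s → s ≤ L + 1 →
  (∀ t j, j + 1 < s → b (P t j) = false) →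
  Tails (stepG H b L) (stepP P L) s ∧
  ∀ (F : Type) [Field F], CF F H (fun t => P t 0) → CF F (stepG H b L) fun o => stepP P L o 0

def StNul : Prop := ∀ (F : Type) [Field F] (θ : F),
  (∀ L, cheb θ L ≠ 0 ∨ cheb θ (L + 1) ≠ 0) ∧
  ∀ (W : Type) [Fintype W] [DecidableEq W] (H : SimpleGraph W) (b : W → Bool) (L : ℕ),
    dm F (stepG H b L) θ noR 0 ≤ dm F H θ noR 0 + 1 ∧
    ((∃ f ∈ Sol F H θ noR 0, dotW b f ≠ 0) → dm F (stepG H b L) θ noR 0 ≤ dm F H θ noR 0 ∧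
      (cheb θ L ≠ 0 → dm F (stepG H b L) θ noR 0 + 1 ≤ dm F H θ noR 0))

def StVal : Prop := ∀ (F : Type) [Field F] (W : Type) [Fintype W] [DecidableEq W]
  (H : SimpleGraph W) (θ : F) (R : ℕ → W → Bool) (j : ℕ),
  dm F H θ R j ≤ Fintype.card W ∧
  (∀ (ι : Type) [Fintype ι] (t : ι → W), CF F H t → dm F H θ R j ≤ Fintype.card ι) ∧
  ∀ (ι : Type) (P : ι → ℕ → W) (s : ℕ), Tails H P s → ∀ f ∈ Sol F H θ R j, ∀ t i, i < s →
    f (P t i) = cheb θ i * f (P t 0)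

def StAdj : Prop := ∀ (W : Type) [Fintype W] [DecidableEq W] (H : SimpleGraph W),
  (∀ (b : W → Bool) (L : ℕ), Sub Sum.inl H (stepG H b L) ∧
    ∀ x i, (stepG H b L).Adj (Sum.inl x) (Sum.inr i) → b x = true) ∧
  ∀ (R : ℕ → W → Bool) (k : ℕ), Sub Sum.inl H (rootG H R k) ∧
    (∀ x i, (rootG H R k).Adj (Sum.inl x) (Sum.inr i) → R i x = true) ∧
    (RB H R k 0 → PB H R k 0 → Ctl (rootG H R k) (Sum.inr : Fin k → W ⊕ Fin k))

def StLoc : Prop := ∀ (W W' ι : Type) [Fintype W] [DecidableEq W] [Fintype W'] [DecidableEq W']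
  [Fintype ι] (e : W → W') (t : ι → W) (H : SimpleGraph W) (H' : SimpleGraph W') (M : ℕ),
  Function.Injective e → Sub e H H' → Only e t H' → Fintype.card W' ≤ Fintype.card W + M →
  (∀ x, dg H' (e x) ≤ dg H x + M) ∧ (∀ x, x ∉ Set.range t → dg H' (e x) = dg H x) ∧
  (∀ y, y ∉ Set.range e → dg H' y ≤ M + Fintype.card ι) ∧
  ed H' ≤ ed H + 2 * M * (M + Fintype.card ι)

def StSeed : Prop := ∀ δ t s : ℕ,
  ∃ F : (Fin (s + 1) → Fin (δ * t) → Fin δ → Fin t) →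
      SimpleGraph (Fin (s + 1) × (Fin (δ * t) ⊕ Fin δ × Fin t)),
    Function.Injective F ∧ ∀ σ, Ctl (F σ) (fun x : Fin (δ * t) ⊕ Fin δ × Fin t => (0, x)) ∧
      ed (F σ) ≤ (s + 1) * ((2 * δ + 4) * (δ * t)) ∧ ∀ v, dg (F σ) v ≤ 2 * (δ * t) + 2

def StFinT : Prop := ∀ (W : Type) [Fintype W] [DecidableEq W] (k : ℕ),
  ∃ e : Fin (Fintype.card W + k) ≃ W ⊕ Fin k, ∀ H : SimpleGraph (W ⊕ Fin k),
    (Ctl H (Sum.inr : Fin k → W ⊕ Fin k) → CoreGood (Fintype.card W) k (H.comap e)) ∧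
    (∀ x, dg (H.comap e) x = dg H (e x)) ∧ ed (H.comap e) = ed H

def StDegs : Prop :=
  (∀ (N k D : ℕ) (G : SimpleGraph (Fin (N + k))), (∀ x, dg G x ≤ D) →
    (∀ x, dg (coreG G) x ≤ D + 4) ∧ ed (coreG G) ≤ ed G + 8 * Fintype.card (CV N k)) ∧
  (∀ (V : Type) [Fintype V] [DecidableEq V] (G : SimpleGraph V) (t0 t1 : V) (l D : ℕ),
    (∀ x, dg G x ≤ D) → (∀ x, dg (extG G t0 t1 l) x ≤ D + 3) ∧
      ed (extG G t0 t1 l) ≤ ed G + 8 * Fintype.card (St l)) ∧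
  ∀ (V : Type) [Fintype V] [DecidableEq V] (G : SimpleGraph V) (ρ : V) (tw k : ℕ),
    (ancG G ρ tw k).edgeSet.ncard ≤ ed G + (tw + 1) ^ 2 + k

def StAncF : Prop := ∀ (V : Type) [Fintype V] [DecidableEq V] (G : SimpleGraph V)
  (t : Fin 1 → V) (tw k β : ℕ), k % 3 = 1 → (∀ x, dg G x + 2 ≤ β) → 2 * β + 2 ≤ tw →
  Fintype.card V + 2 ≤ k → Pre G t → Rigid G t →
  (ancG G (t 0) tw k).Connected ∧
  (∀ x, ∃ y z, y ≠ z ∧ (ancG G (t 0) tw k).Adj x y ∧ (ancG G (t 0) tw k).Adj x z) ∧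
  DSV (ancG G (t 0) tw k)

/-! ### Statements: counting -/

def StAC : Prop := ∀ (F : Type) [Field F] (ι Ω : Type) [Fintype ι] [DecidableEq ι] [Fintype Ω]
  [Nonempty Ω] (S : Ω → F) (ρ : ℝ) (K : Submodule F (ι → F)),
  (∀ c, pr (fun ω => S ω = c) ≤ ρ) →
  pr (fun a : ι → Ω => ∀ x ∈ K, ∑ t, x t * S (a t) = 0) ≤ ρ ^ Module.finrank F K

def StLO2 : Prop := ∀ (A : Type) [AddCommGroup A] (w r : ℕ) (u : Fin w → A) (blk : Fin w → ℕ),
  1 ≤ r → (∀ i, i < 64 * r ^ 4 + 1 → ∃ S : Finset A, 2 * r + 1 ≤ S.card ∧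
    ∀ x ∈ S, x ∈ AddSubgroup.closure (u '' {j | blk j = i})) →
  ∀ c, pr (fun a : Fin w → Bool => (∑ j, if a j = true then u j else 0) = c) ≤ 1 / (r : ℝ)

def StWin : Prop := ∀ (F : Type) [Field F] (θ : F) (r c : ℕ), Big θ (2 * r + 1) →
  ∃ S : Finset F, 2 * r + 1 ≤ S.card ∧
    ∀ x ∈ S, x ∈ AddSubgroup.closure (cheb θ '' {j | c ≤ j ∧ j < c + (4 * r + 2)})

def StRho : Prop := ∀ (F : Type) [Field F] (θ : F) (s w I : ℕ), 400 * 32 ^ I ≤ w → ∀ c,
  pr (fun a : Fin w → Bool => (∑ j, if a j = true then cheb θ (s + j.val) else 0) = c) ≤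
    (1 / 2 : ℝ) ^ lev I θ

def StWT : Prop := (∀ (I : ℕ) (θ : ℝ), I ≤ lev I θ) ∧
  ∀ (B : Finset Pt) (I D : ℕ), 50 ≤ D →
    ∑ q ∈ B, ((1 / 2 : ℝ) ^ lev I q.2) ^ D ≤ 1 / 4 + B.card * (1 / 2 : ℝ) ^ (I * D)

def StCand : Prop := ∀ (W : Type) [Fintype W] [DecidableEq W] (H : SimpleGraph W)
  (R : ℕ → W → Bool) (j y n : ℕ), Fintype.card W + j ≤ n →
  (∃ S : Finset ℝ, S.card ≤ n ∧ ∀ θ, 1 ≤ dm ℝ H θ R j → θ ∈ S) ∧
  (RB H R j y → ∃ B : Finset Pt, B.card ≤ XX n ∧ ∀ q : Pt, y < dm (FF q.1) H q.2 R j → q ∈ B)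

def StHit : Prop := ∀ (Ω Q : Type) [Fintype Ω] [Nonempty Ω] (B : Finset Q) (E : Q → Ω → Prop)
  (ρ : Q → ℝ) (e : ℕ), (∀ q ∈ B, pr (E q) ≤ ρ q) → ∑ q ∈ B, ρ q ^ e < 1 →
  ∃ a : ℕ → Ω, ∀ q ∈ B, ∃ i, i < e ∧ ¬ E q (a i)

def StOrc0 : Prop := ∀ m n : ℕ, 1 ≤ m → 4 * XX n ≤ 2 ^ m → Orc 0 m m n

def StOrc1 : Prop := ∀ w I D n : ℕ, 400 * 32 ^ I ≤ w → 50 ≤ D → 4 * XX n ≤ 2 ^ (I * D) →
  Orc w D D n

/-! ### Statements: iteration -/

def StIter : Prop := ∀ (W0 J : Type)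
  (C : J → ℕ → ∀ (W : Type) [Fintype W] [DecidableEq W], (W0 → W) → SimpleGraph W → Prop)
  (m L x y : ℕ),
  (∀ (a : J) (i : ℕ) (W : Type) [Fintype W] [DecidableEq W] (e : W0 → W) (H : SimpleGraph W),
    C a (i + 1) W e H → ∃ b : W → Bool, Hit H noR 0 m m (fun _ => b) 1 ∧
      C a i (W ⊕ Fin (L + 1)) (Sum.inl ∘ e) (stepG H b L) ∧
      C a i (W ⊕ Fin (L + 1 + 1)) (Sum.inl ∘ e) (stepG H b (L + 1))) →
  (∀ (a : J) (W : Type) [Fintype W] [DecidableEq W] (e : W0 → W) (H : SimpleGraph W),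
    C a (2 * y) W e H → PB H noR 0 y) →
  ∀ (W : Type) [Fintype W] [DecidableEq W] (e : W0 → W), Function.Injective e →
    ∃ (W' : Type) (_ : Fintype W') (_ : DecidableEq W') (e' : W0 → W'), Function.Injective e' ∧
      Fintype.card W' = Fintype.card W + (x + y) * (2 * L + 3) ∧
      ∀ (a : J) (H : SimpleGraph W), C a (2 * x + 2 * y) W e H → RB H noR 0 x →
        ∃ H' : SimpleGraph W', C a 0 W' e' H' ∧ RB H' noR 0 m ∧ PB H' noR 0 (m + 1)

def StRoots : Prop := ∀ (W : Type) [Fintype W] [DecidableEq W] (H : SimpleGraph W)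
  (Gd : (W → Bool) → Prop) (m e : ℕ), Gd (fun _ => false) →
  (∀ (R : ℕ → W → Bool) (j y : ℕ), j ≤ (2 * m + 1) * e →
    ∃ b : ℕ → W → Bool, Hit H R j 1 y b e ∧ ∀ i, Gd (b i)) →
  RB H noR 0 m → PB H noR 0 (m + 1) →
  ∃ R : ℕ → W → Bool, (∀ i, Gd (R i)) ∧ RB H R ((2 * m + 1) * e) 0 ∧ PB H R ((2 * m + 1) * e) 0

def StRed : Prop := ∀ w m e n : ℕ, Orc w m e n →
  ∀ (W ι : Type) [Fintype W] [DecidableEq W] [Fintype ι] [DecidableEq ι] (t : ι → W),
  Fintype.card W + gM (Fintype.card ι) w m e ≤ n →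
  ∃ (W' : Type) (_ : Fintype W') (_ : DecidableEq W') (u : W → W'), Function.Injective u ∧
    Fintype.card W' + (2 * m + 1) * e ≤ Fintype.card W + gM (Fintype.card ι) w m e ∧
    ∀ H : SimpleGraph W, Ctl H t → ∃ H' : SimpleGraph (W' ⊕ Fin ((2 * m + 1) * e)),
      Sub (Sum.inl ∘ u) H H' ∧ Only (Sum.inl ∘ u) t H' ∧
        Ctl H' (Sum.inr : Fin ((2 * m + 1) * e) → W' ⊕ Fin ((2 * m + 1) * e))

/-! ### Statement: asymptotics -/

def StAsyD : Prop := ∀ C : ℕ, 1000 ≤ C → ∃ c : ℝ, 0 < c ∧ ∃ d0 n0 : ℕ, ∀ n ≥ n0, ∀ d ≥ d0,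
  d ≤ n → ∃ δ t m I s : ℕ, 1 ≤ δ ∧ 1 ≤ m ∧ 4 * XX n ≤ 2 ^ m ∧ 4 * XX n ≤ 2 ^ (I * 200) ∧
    gM ((2 * m + 1) * m) (400 * 32 ^ I) 200 200 ≤ δ * t ∧ C * (δ * t * (s + 1)) ≤ n ∧
    20000 * (δ * (δ * t * (s + 1)) + (δ * t) ^ 2) + 5 * n ≤ d * n ∧
    ∀ q : ℕ, t ^ (δ * (δ * t * (s + 1))) ≤ q * n.factorial →
      Real.exp (c * d * n * Real.log (2 * (n : ℝ) / d)) ≤ q

end Pool.Agent.P.MP_f57657_co.SZ
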