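import Pool.Agent.P.MP_f57657_co.SZ.Defs
import Pool.Agent.P.MP_f57657_co.SY.Main

/-! Assembly for the count at every edge density. -/

open Matrix Finset

set_option linter.unusedSectionVars false

namespace Pool.Agent.P.MP_f57657_co.SZ

open SX SY

namespace Main

/-- An injective family of controlled graphs with bounds on size, degrees and degree sum. -/
def CFam (J : Type) (k r D E : ℕ) : Prop :=
  ∃ (W ι : Type) (_ : Fintype W) (_ : DecidableEq W) (_ : Fintype ι) (_ : DecidableEq ι)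
    (F : J → SimpleGraph W) (t : ι → W), Fintype.card ι = k ∧ Fintype.card W ≤ r ∧
    Function.Injective F ∧ ∀ a, Ctl (F a) t ∧ (∀ x, dg (F a) x ≤ D) ∧ ed (F a) ≤ E

/-- The same with the roots as a summand of the vertex type. -/
def RFam (J : Type) (k r D E : ℕ) : Prop :=
  ∃ (W : Type) (_ : Fintype W) (_ : DecidableEq W) (F : J → SimpleGraph (W ⊕ Fin k)),
    Fintype.card W + k ≤ r ∧ Function.Injective F ∧
    ∀ a, Ctl (F a) (Sum.inr : Fin k → W ⊕ Fin k) ∧ (∀ x, dg (F a) x ≤ D) ∧ ed (F a) ≤ E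

theorem cfam_of_rfam {J : Type} {k r D E : ℕ} (h : RFam J k r D E) : CFam J k r D E := by
  obtain ⟨W, i1, i2, F, hc, hF, h⟩ := h
  exact ⟨W ⊕ Fin k, Fin k, inferInstance, inferInstance, inferInstance, inferInstance, F, Sum.inr,
    Fintype.card_fin k, by simpa using hc, hF, h⟩

theorem red_fam (hRed : StRed) (hL : StLoc) {J : Type} {k r D E w m e n M : ℕ}
    (hO : Orc w m e n) (h : CFam J k r D E) (hM : gM k w m e ≤ M) (hn : r + M ≤ n) (hk : k ≤ D) :
    RFam J ((2 * m + 1) * e) (r + M) (D + M) (E + 2 * M * (M + k)) := by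
  obtain ⟨W, ι, i1, i2, i3, i4, F, t, rfl, hc, hF, h⟩ := h
  obtain ⟨W', j1, j2, u, hu, hc', h'⟩ := hRed w m e n hO W ι t (by omega)
  choose F' s1 s2 s3 using fun a => h' (F a) (h a).1
  have hu' : Function.Injective (Sum.inl ∘ u : W → W' ⊕ Fin ((2 * m + 1) * e)) :=
    Sum.inl_injective.comp hu
  refine ⟨W', j1, j2, F', by omega, fun a b hab => hF ?_, fun a => ?_⟩
  · ext x y
    rw [← s1 a x y, ← s1 b x y, hab]
  · obtain ⟨l1, -, l3, l4⟩ := hL W _ ι _ t (F a) (F' a) M hu' (s1 a) (s2 a)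
      (by simp only [Fintype.card_sum, Fintype.card_fin]; omega)
    refine ⟨s3 a, fun y => ?_, l4.trans (Nat.add_le_add_right (h a).2.2 _)⟩
    by_cases hy : y ∈ Set.range (Sum.inl ∘ u : W → W' ⊕ Fin ((2 * m + 1) * e))
    · obtain ⟨x, rfl⟩ := hy
      exact (l1 x).trans (Nat.add_le_add_right ((h a).2.1 x) _)
    · exact (l3 y hy).trans (by omega)

/-- An injective family of rigid rooted graphs with bounds. -/
def Fam (J : Type) (m r D E : ℕ) : Prop :=
  ∃ (W : Type) (_ : Fintype W) (_ : DecidableEq W) (F : J → SimpleGraph W) (t : Fin (m + 1) → W),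
    Fintype.card W ≤ r ∧ Function.Injective F ∧ ∀ i, Pre (F i) t ∧ Rigid (F i) t ∧
      (∀ x, dg (F i) x ≤ D) ∧ ed (F i) ≤ E + 8 * Fintype.card W

theorem fam_core (hK : StKry) (hPBH : StPBH) (hC : StCorePre) (hT : StFinT) (hD : StDegs)
    {J : Type} {k r D E : ℕ} (hk : 2 ≤ k) (h : RFam J k r D E) :
    Fam J k (9 * r + 1) (D + 4) E := by
  obtain ⟨W, i1, i2, F, hc, hF, h⟩ := h
  obtain ⟨e, he⟩ := hT W k
  refine ⟨CV (Fintype.card W) k, inferInstance, inferInstance,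
    fun a => coreG ((F a).comap e), coreT _ k, ?_, fun a b hab => hF ?_, fun a => ?_⟩
  · simp only [Fintype.card_sum, Fintype.card_prod, Fintype.card_fin]
    omega
  · ext x y
    have h1 := SY.Main.core_adj ((F a).comap e) (e.symm x) (e.symm y)
    have h2 := SY.Main.core_adj ((F b).comap e) (e.symm x) (e.symm y)
    simp only [SimpleGraph.comap_adj, Equiv.apply_symm_apply] at h1 h2 hab
    rw [← h1, ← h2, hab]
  · obtain ⟨e1, e2, e3⟩ := he (F a)
    obtain ⟨c1, c2⟩ := hC _ k _ hk (e1 (h a).1)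
    have htop := hPBH _ _ _ _ (SY.Main.am_symm _) c1
    obtain ⟨d1, d2⟩ := hD.1 _ k D ((F a).comap e) fun x => (e2 x).trans_le ((h a).2.1 _)
    exact ⟨c2 htop, SY.Main.rigid_of_top hK _ _ htop, d1,
      d2.trans (Nat.add_le_add_right (e3.trans_le (h a).2.2) _)⟩

theorem fam_step (hP : StExtPre) (hR : StExtRigid) (hD : StDegs) {J : Type} {m r D E : ℕ}
    (h : Fam J (m + 1) r D E) : Fam J m (3 * r + 33) (D + 3) E := by
  obtain ⟨W, i1, i2, F, t, hc, hF, h⟩ := h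
  refine ⟨W ⊕ St (3 * (Fintype.card W / 3 + 4) + if Fintype.card W % 3 = 0 then 0 else 3),
    inferInstance, inferInstance, fun i => extG (F i) (t 0) (t 1) _, extT t _, ?_, ?_, fun i =>
    ⟨hP W m (F i) t _ (by split_ifs <;> omega) (h i).1,
      hR W m (F i) t _ (by split_ifs <;> omega) (h i).1 (h i).2.1,
      (hD.2.1 W (F i) _ _ _ D (h i).2.2.1).1, ?_⟩⟩
  · simp only [Fintype.card_sum, Fintype.card_option, Fintype.card_prod, Fintype.card_fin,
      Fintype.card_bool]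
    split_ifs <;> omega
  · intro i j hij
    apply hF
    ext x y
    rw [← SY.Main.ext_adj (F i) (t 0) (t 1), ← SY.Main.ext_adj (F j) (t 0) (t 1)]
    simp only at hij
    rw [hij]
  · refine (hD.2.1 W (F i) _ _ _ D (h i).2.2.1).2.trans ?_
    have := (h i).2.2.2
    rw [Fintype.card_sum]
    omega

theorem fam_mono {J : Type} {m r r' D D' E : ℕ} (h : Fam J m r D E) (hr : r ≤ r') (hD : D ≤ D') :
    Fam J m r' D' E := by
  obtain ⟨W, i1, i2, F, t, hc, hF, h⟩ := h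
  exact ⟨W, i1, i2, F, t, hc.trans hr, hF, fun i =>
    ⟨(h i).1, (h i).2.1, fun x => ((h i).2.2.1 x).trans hD, (h i).2.2.2⟩⟩

theorem fam_iter (hP : StExtPre) (hR : StExtRigid) (hD : StDegs) {J : Type} {E : ℕ} :
    ∀ m r D : ℕ, Fam J m r D E → Fam J 0 (3 ^ m * (r + 17)) (D + 3 * m) E := by
  intro m
  induction m with
  | zero => exact fun r D h => fam_mono h (by omega) (by omega)
  | succ m ih =>
    intro r D h
    refine fam_mono (ih _ _ (fam_step hP hR hD h)) ?_ (by omega)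
    rw [pow_succ, mul_assoc]
    exact Nat.mul_le_mul_left _ (by omega)

theorem fam_count (hA : StAncF) (hD : StDegs) (hCount : StCount) {J : Type} [Fintype J]
    {r D E n M : ℕ} (h : Fam J 0 r D E) (hn : 2 * r + 2 * D + 10 ≤ n)
    (hM : E + 5 * n + (2 * D + 9) ^ 2 ≤ M) :
    ∃ S : Finset (SimpleGraph (Fin n)), GoodFamily M S ∧
      Fintype.card J ≤ S.card * n.factorial := by
  obtain ⟨W, i1, i2, F, t, hc, hF, hW⟩ := h
  obtain ⟨tw, k, e1, e2, e3, e4⟩ : ∃ tw k : ℕ, k % 3 = 1 ∧ 2 * (D + 2) + 2 ≤ tw ∧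
      tw ≤ 2 * D + 8 ∧ Fintype.card W + (tw + k) = n :=
    ⟨2 * D + 6 + (n - Fintype.card W - (2 * D + 6) + 2) % 3,
      n - Fintype.card W - (2 * D + 6 + (n - Fintype.card W - (2 * D + 6) + 2) % 3),
      by omega, by omega, by omega, by omega⟩
  refine hCount (W ⊕ (Fin tw ⊕ Fin k)) J (fun G => ancG (F G) (t 0) tw k) n M
    (by simpa only [Fintype.card_sum, Fintype.card_fin] using e4) ?_ fun G => ?_
  · intro i j hij
    apply hF
    ext x y
    rw [← SY.Main.anc_adj (F i) (t 0), ← SY.Main.anc_adj (F j) (t 0)]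
    simp only at hij
    rw [hij]
  · obtain ⟨a1, a2, a3⟩ := hA W (F G) t tw k (D + 2) e1
      (fun x => Nat.add_le_add_right ((hW G).2.2.1 x) 2) e2 (by omega) (hW G).1 (hW G).2.1
    refine ⟨a1, a2, (hD.2.2 W (F G) (t 0) tw k).trans ?_, a3⟩
    have h1 := (hW G).2.2.2
    have h2 : (tw + 1) ^ 2 ≤ (2 * D + 9) ^ 2 := Nat.pow_le_pow_left (by omega) 2
    omega

theorem arith {δ b s n d K T k : ℕ} (hδ : 1 ≤ δ) (hK : K ≤ b) (hk : k ≤ b) (hb : 10 ≤ b)
    (hT : 1 ≤ T) (h1 : 1000 * T * (b * (s + 1)) ≤ n)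
    (h2 : 20000 * (δ * (b * (s + 1)) + b ^ 2) + 5 * n ≤ d * n) :
    (s + 1) * (2 * b) + 35 * b + b ≤ n ∧
    2 * (T * (9 * ((s + 1) * (2 * b) + 35 * b + b) + 1 + 17)) +
      2 * (2 * b + 2 + 35 * b + b + 4 + 3 * K) + 10 ≤ n ∧
    (s + 1) * ((2 * δ + 4) * b) + 2 * (35 * b) * (35 * b + 2 * b) + 2 * b * (b + k) + 5 * n +
      (2 * (2 * b + 2 + 35 * b + b + 4 + 3 * K) + 9) ^ 2 ≤ d * n := by
  have e1 : b ≤ b * (s + 1) := Nat.le_mul_of_pos_right _ (by omega)
  have e2 : (s + 1) * (2 * b) = 2 * (b * (s + 1)) := by ring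
  have e3 : (s + 1) * ((2 * δ + 4) * b) = 2 * (δ * (b * (s + 1))) + 4 * (b * (s + 1)) := by ring
  rw [e2, e3]
  generalize b * (s + 1) = B at *
  have e4 : B ≤ T * B := Nat.le_mul_of_pos_left _ hT
  have e5 : B ≤ δ * B := Nat.le_mul_of_pos_left _ hδ
  have e6 : T * (9 * (2 * B + 35 * b + b) + 1 + 17) ≤ T * (360 * B) :=
    Nat.mul_le_mul_left _ (by omega)
  have e7 : T * (360 * B) = 360 * (T * B) := by ring
  have e8 : 1000 * T * B = 1000 * (T * B) := by ring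
  have e9 : (2 * (2 * b + 2 + 35 * b + b + 4 + 3 * K) + 9) ^ 2 ≤ (85 * b) ^ 2 :=
    Nat.pow_le_pow_left (by omega) 2
  have e10 : 2 * b * (b + k) ≤ 2 * b * (b + b) := Nat.mul_le_mul_left _ (by omega)
  have e11 : (85 * b) ^ 2 = 7225 * b ^ 2 := by ring
  have e12 : 2 * b * (b + b) = 4 * b ^ 2 := by ring
  have e13 : 2 * (35 * b) * (35 * b + 2 * b) = 2590 * b ^ 2 := by ring
  refine ⟨by omega, by omega, by omega⟩

end Main

open Main in
theorem main_of (hK : StKry) (hPBH : StPBH) (hP : StExtPre) (hR : StExtRigid) (hC : StCorePre)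
    (hCount : StCount) (hSeed : StSeed) (hRed : StRed) (hL : StLoc) (h0 : StOrc0) (h1 : StOrc1)
    (hT : StFinT) (hD : StDegs) (hA : StAncF) (hAsy : StAsyD) :
    ∃ c : ℝ, 0 < c ∧ ∃ d0 n0 : ℕ, ∀ n ≥ n0, ∀ d ≥ d0, d ≤ n →
      ∃ S : Finset (SimpleGraph (Fin n)), GoodFamily (d * n) S ∧
        Real.exp (c * d * n * Real.log (2 * (n : ℝ) / d)) ≤ S.card := by
  obtain ⟨K, hKe⟩ : ∃ K : ℕ, K = (2 * 200 + 1) * 200 := ⟨_, rfl⟩
  have hT1 : 1 ≤ 3 ^ K := Nat.one_le_pow _ _ (by omega)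
  obtain ⟨c, hc, d0, n0, h⟩ := hAsy (1000 * 3 ^ K) (Nat.le_mul_of_pos_right _ hT1)
  refine ⟨c, hc, d0, n0, fun n hn d hd hdn => ?_⟩
  obtain ⟨δ, t, m, I, s, a1, a2, a3, a4, a5, a6, a7, a8⟩ := h n hn d hd hdn
  have b1 : 17 * ((2 * m + 1) * m) + K ≤ δ * t := by
    refine le_trans ?_ a5
    rw [gM, ← hKe]
    omega
  obtain ⟨r1, r2, r3⟩ := arith (K := K) (k := (2 * m + 1) * m) a1 (by omega) (by omega)
    (by omega) hT1 a6 a7
  obtain ⟨F, hF, hs⟩ := hSeed δ t s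
  have f0 : CFam (Fin (s + 1) → Fin (δ * t) → Fin δ → Fin t) (2 * (δ * t))
      ((s + 1) * (2 * (δ * t))) (2 * (δ * t) + 2) ((s + 1) * ((2 * δ + 4) * (δ * t))) :=
    ⟨_, _, inferInstance, inferInstance, inferInstance, inferInstance, F, fun x => (0, x),
      by simp only [Fintype.card_sum, Fintype.card_prod, Fintype.card_fin]; omega,
      by simp only [Fintype.card_sum, Fintype.card_prod, Fintype.card_fin, two_mul, le_refl],
      hF, fun σ => ⟨(hs σ).1, (hs σ).2.2, (hs σ).2.1⟩⟩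
  have f1 := red_fam (M := 35 * (δ * t)) hRed hL (h0 m n a2 a3) f0
    (by simp only [gM, mul_zero]; omega) (by omega) (by omega)
  have f2 := red_fam (M := δ * t) hRed hL (h1 _ I 200 n le_rfl (by omega) a4) (cfam_of_rfam f1)
    a5 r1 (by omega)
  rw [← hKe] at f2
  obtain ⟨S, hS, hcard⟩ := fam_count hA hD hCount
    (fam_iter hP hR hD _ _ _ (fam_core hK hPBH hC hT hD (by omega) f2)) r2 r3
  refine ⟨S, hS, a8 _ (le_of_eq_of_le ?_ hcard)⟩
  simp only [Fintype.card_fun, Fintype.card_fin, ← pow_mul]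
  rw [mul_assoc δ (δ * t)]

end Pool.Agent.P.MP_f57657_co.SZ
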