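import Pool.Agent.P.MP_f57657_co.SZ.Defs

/-! Windows of values along a pendant path and the resulting anticoncentration. -/

open Matrix Finset

namespace Pool.Agent.P.MP_f57657_co.SZ

open SX SY

namespace WinAux

variable {F : Type} [Field F]

theorem ne_or (θ : F) (L : ℕ) : cheb θ L ≠ 0 ∨ cheb θ (L + 1) ≠ 0 := by
  induction L with
  | zero => exact Or.inl one_ne_zero
  | succ L ih =>
    by_cases h : cheb θ (L + 1) = 0
    · right
      have h1 : cheb θ L ≠ 0 := ih.resolve_right fun h' => h' h
      show θ * cheb θ (L + 1) - cheb θ L ≠ 0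
      rw [h, mul_zero, zero_sub]
      exact neg_ne_zero.2 h1
    · exact Or.inl h

/-- The group generated by a window around `m`, `m + 1`. -/
def Wd (θ : F) (m i : ℕ) : AddSubgroup F :=
  AddSubgroup.closure (cheb θ '' {j | m ≤ j + i ∧ j ≤ m + 1 + i})

theorem Wd_mono (θ : F) (m : ℕ) {i i' : ℕ} (h : i ≤ i') : Wd θ m i ≤ Wd θ m i' :=
  AddSubgroup.closure_mono (Set.image_mono fun j hj => ⟨by have := hj.1; omega,
    by have := hj.2; omega⟩)

theorem mem_Wd (θ : F) {m i j : ℕ} (h1 : m ≤ j + i) (h2 : j ≤ m + 1 + i) : cheb θ j ∈ Wd θ m i :=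
  AddSubgroup.subset_closure ⟨j, ⟨h1, h2⟩, rfl⟩

theorem mul_mem_Wd (θ : F) {m i : ℕ} (hi : i < m) {x : F} (hx : x ∈ Wd θ m i) :
    θ * x ∈ Wd θ m (i + 1) := by
  induction hx using AddSubgroup.closure_induction with
  | mem x hx =>
    obtain ⟨j, ⟨h1, h2⟩, rfl⟩ := hx
    obtain ⟨l, rfl⟩ : ∃ l, j = l + 1 := ⟨j - 1, by omega⟩
    have e : θ * cheb θ (l + 1) = cheb θ (l + 2) + cheb θ l := by
      show _ = θ * cheb θ (l + 1) - cheb θ l + cheb θ l
      ring
    rw [e]
    exact add_mem (mem_Wd θ (by omega) (by omega)) (mem_Wd θ (by omega) (by omega))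
  | zero => simp
  | add x y _ _ hx hy => rw [mul_add]; exact add_mem hx hy
  | neg x _ hx => rw [mul_neg]; exact neg_mem hx

theorem ring_mul (θ : F) (G : AddSubgroup F) (hG : ∀ x ∈ G, θ * x ∈ G) {a : F}
    (ha : a ∈ Subring.closure ({θ} : Set F)) : ∀ x ∈ G, a * x ∈ G := by
  induction ha using Subring.closure_induction with
  | mem a ha =>
    rw [Set.mem_singleton_iff.1 ha]
    exact hG
  | zero => simp
  | one => simp
  | add a b _ _ ha hb => exact fun x hx => by rw [add_mul]; exact add_mem (ha x hx) (hb x hx)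
  | neg a _ ha => exact fun x hx => by rw [neg_mul]; exact neg_mem (ha x hx)
  | mul a b _ _ ha hb => exact fun x hx => by rw [mul_assoc]; exact ha _ (hb x hx)

open Classical in
theorem half {w : ℕ} (u : Fin w → F) (j0 : Fin w) (h0 : u j0 ≠ 0) (c : F) :
    pr (fun a : Fin w → Bool => (∑ j, if a j = true then u j else 0) = c) ≤ 1 / 2 := by
  set E : (Fin w → Bool) → Prop := fun a => (∑ j, if a j = true then u j else 0) = c with hE
  have key : ∀ a, E a → ¬ E (Function.update a j0 (!a j0)) := by
    intro a h1 h2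
    have e : ∀ b : Fin w → Bool, (∑ j, if b j = true then u j else 0) =
        (if b j0 = true then u j0 else 0) +
          ∑ j ∈ univ.erase j0, if b j = true then u j else 0 :=
      fun b => (add_sum_erase _ (fun j => if b j = true then u j else 0) (mem_univ j0)).symm
    have e2 : (∑ j ∈ univ.erase j0, if Function.update a j0 (!a j0) j = true then u j else 0) =
        ∑ j ∈ univ.erase j0, if a j = true then u j else 0 :=
      sum_congr rfl fun j hj => by rw [Function.update_of_ne (ne_of_mem_erase hj)]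
    have h3 := (h1.trans h2.symm)
    rw [e a, e (Function.update a j0 (!a j0)), e2, add_left_inj, Function.update_self] at h3
    cases h : a j0 <;> simp [h, h0, h0.symm] at h3
  have hc : (univ.filter E).card ≤ (univ.filter fun a => ¬ E a).card := by
    refine card_le_card_of_injOn (fun a => Function.update a j0 (!a j0)) ?_ ?_
    · intro a ha
      simp only [coe_filter, mem_univ, true_and, Set.mem_ofPred_eq] at ha ⊢
      exact key a ha
    · intro a _ b _ h
      funext j
      have h1 := congrFun h j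
      by_cases hj : j = j0
      · subst hj
        simpa using h1
      · simpa [Function.update_of_ne hj] using h1
  have hs := card_filter_add_card_filter_not (s := (univ : Finset (Fin w → Bool))) E
  have hp : (0 : ℝ) < Fintype.card (Fin w → Bool) := by exact_mod_cast Fintype.card_pos
  have h2 : 2 * (univ.filter E).card ≤ Fintype.card (Fin w → Bool) := by
    rw [card_univ] at hs
    omega
  have h3 : (2 : ℝ) * (univ.filter E).card ≤ Fintype.card (Fin w → Bool) := by exact_mod_cast h2
  unfold pr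
  rw [div_le_iff₀ hp]
  have h4 : (1 / 2 : ℝ) * Fintype.card (Fin w → Bool) ≥ (univ.filter E).card := by linarith
  convert h4

end WinAux

open WinAux

theorem pWin : StWin := by
  classical
  intro F _ θ r c ⟨S, hS, hm⟩
  have hW : AddSubgroup.closure (cheb θ '' {j | c ≤ j ∧ j < c + (4 * r + 2)}) =
      Wd θ (c + 2 * r) (2 * r) := by
    unfold Wd
    congr 2
    ext j
    simp only [Set.mem_ofPred_eq]
    omega
  rw [hW]
  by_cases h : ∃ i, i < 2 * r ∧ Wd θ (c + 2 * r) (i + 1) ≤ Wd θ (c + 2 * r) i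
  · obtain ⟨i, hi, hle⟩ := h
    obtain ⟨y, hy0, hy⟩ : ∃ y, y ≠ 0 ∧ y ∈ Wd θ (c + 2 * r) i := by
      rcases ne_or θ (c + 2 * r) with h1 | h1
      · exact ⟨_, h1, mem_Wd θ (by omega) (by omega)⟩
      · exact ⟨_, h1, mem_Wd θ (by omega) (by omega)⟩
    refine ⟨S.image (· * y), ?_, ?_⟩
    · rwa [card_image_of_injective _ (mul_left_injective₀ hy0)]
    · intro x hx
      obtain ⟨a, ha, rfl⟩ := mem_image.1 hx
      exact Wd_mono θ _ hi.le (ring_mul θ _ (fun x hx => hle (mul_mem_Wd θ (by omega) hx))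
        (hm a ha) y hy)
  · have key : ∀ i, i ≤ 2 * r → ∃ T : Finset F, i + 1 ≤ T.card ∧
        ∀ x ∈ T, x ∈ Wd θ (c + 2 * r) i := by
      intro i
      induction i with
      | zero => exact fun _ => ⟨{0}, by simp, by simp⟩
      | succ i ih =>
        intro hi
        obtain ⟨T, hT, hmem⟩ := ih (by omega)
        obtain ⟨z, hz1, hz2⟩ := SetLike.not_le_iff_exists.1 fun hle => h ⟨i, by omega, hle⟩
        refine ⟨insert z T, ?_, ?_⟩
        · rw [card_insert_of_notMem fun hz => hz2 (hmem z hz)]
          omega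
        · intro x hx
          rcases mem_insert.1 hx with rfl | hx
          · exact hz1
          · exact Wd_mono θ _ (Nat.le_succ i) (hmem x hx)
    exact key _ le_rfl

theorem pRho (hL : StLO2) : StRho := by
  classical
  intro F _ θ s w I hw c
  have h1 : 1 ≤ 32 ^ I := Nat.one_le_pow _ _ (by norm_num)
  unfold lev
  set l := Nat.findGreatest (fun i => Big θ (2 * 2 ^ i + 1)) I with hl
  by_cases h : l ≤ 1
  · rw [max_eq_left h, pow_one]
    rcases ne_or θ s with h2 | h2
    · exact half (fun j : Fin w => cheb θ (s + j.val)) ⟨0, by omega⟩ h2 c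
    · exact half (fun j : Fin w => cheb θ (s + j.val)) ⟨1, by omega⟩ h2 c
  · have hB : Big θ (2 * 2 ^ l + 1) :=
      Nat.findGreatest_of_ne_zero (P := fun i => Big θ (2 * 2 ^ i + 1)) hl.symm (by omega)
    have hI : l ≤ I := Nat.findGreatest_le I
    rw [max_eq_right (by omega), _root_.one_div_pow]
    set r := 2 ^ l with hr
    have hr1 : 1 ≤ r := Nat.one_le_two_pow
    have hr5 : r ^ 5 ≤ 32 ^ I := by
      rw [hr, ← pow_mul, mul_comm, pow_mul]
      exact Nat.pow_le_pow_right (by norm_num) hI
    have hn : (64 * r ^ 4 + 1) * (4 * r + 2) ≤ w := by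
      have h4 : 1 ≤ r ^ 4 := Nat.one_le_pow _ _ hr1
      have h5 : (64 * r ^ 4 + 1) * (4 * r + 2) ≤ (65 * r ^ 4) * (6 * r) :=
        Nat.mul_le_mul (by omega) (by omega)
      have h6 : (65 * r ^ 4) * (6 * r) = 390 * r ^ 5 := by ring
      omega
    have := hL F w r (fun j : Fin w => cheb θ (s + j.val)) (fun j => j.val / (4 * r + 2)) hr1 ?_ c
    · simpa [hr] using this
    · intro i hi
      obtain ⟨S, hS, hm⟩ := pWin F θ r (s + i * (4 * r + 2)) hB
      refine ⟨S, hS, fun x hx => AddSubgroup.closure_mono ?_ (hm x hx)⟩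
      rintro _ ⟨j, ⟨hj1, hj2⟩, rfl⟩
      have h7 : (i + 1) * (4 * r + 2) ≤ (64 * r ^ 4 + 1) * (4 * r + 2) :=
        Nat.mul_le_mul_right _ hi
      rw [add_mul, one_mul] at h7
      refine ⟨⟨j - s, by omega⟩, ?_, ?_⟩
      · show (j - s) / (4 * r + 2) = i
        refine Nat.div_eq_of_lt_le (by omega) ?_
        rw [add_mul, one_mul]
        omega
      · show cheb θ (s + (j - s)) = cheb θ j
        congr 1
        omega

end Pool.Agent.P.MP_f57657_co.SZ
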